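import Mathlib
import Pool.Agent.KS6_22.CU.F.Base

/-!
# The iteration of eventually different forcing: cov(M), the continuum, and a Luzin set
-/

namespace Pool.Agent.KS6_22.CU.F.Main

open Cardinal Pool.Agent.KS6_22.CU.F.Iter Pool.Agent.KS6_22.CU.F.EIter Pool.Agent.KS6_22.CU.F.Forcing
  Pool.Agent.KS6_22.CU.F.Base

set_option linter.unusedSectionVars false

universe u

variable {J : Type u} [LinearOrder J] [WellFoundedLT J]

theorem not_fnot_of {φ : Set (Cond J)} {p q : Cond J} (h : p ∈ φ) (hφ : Down φ) (hq : q ∈ fnot φ)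
    (hc : Compat p q) : False := by
  obtain ⟨s, h1, h2⟩ := hc
  exact hq s h2 (hφ p h s h1)

/-- the generic real added at a late coordinate is eventually different from a given real -/
theorem eventually_different (hcof : ∀ S : Set J, S.Countable → ∃ b, ∀ s ∈ S, s < b)
    (x : ℕ → ℕ → Set (Cond J)) :
    ∃ b : J, ∀ ξ, b ≤ ξ → ∀ p ∈ IsFun x, ∃ p' ≤ p, ∀ n, (p.1.st (ξ : WithTop J)).length ≤ n →
      ∀ m, ∀ r ≤ p', r ∈ Ee ξ n m → r ∉ meets (x n m) := by
  classical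
  have hD : ∀ n, ∃ A ⊆ {q : Cond J | (∃ m, ∀ m', m' ≠ m → q ∈ fnot (meets (x n m'))) ∨
      q ∈ fnot (IsFun x)}, A.Countable ∧ (∀ p, ∃ a ∈ A, Compat a p) ∧
      ∀ a ∈ A, ∀ b ∈ A, Compat a b → a = b := by
    intro n
    apply exists_antichain
    intro q
    by_cases hq : q ∈ fnot (IsFun x)
    · exact ⟨q, le_rfl, Or.inr hq⟩
    · simp only [fnot, Set.mem_ofPred_eq, not_forall, not_not] at hq
      obtain ⟨q', hq', hfun⟩ := hq
      obtain ⟨q'', hq'', m, hm⟩ := IsFun.total hfun n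
      refine ⟨q'', hq''.trans hq', Or.inl ⟨m, fun m' hne r hr hr' => hne ?_⟩⟩
      exact IsFun.unique (down_IsFun x _ hfun r (hr.trans hq'')) hr' (down_meets _ _ hm r hr)
  choose A hAD hAc hApre hAanti using hD
  obtain ⟨b, hb⟩ := exists_below hcof (Set.countable_iUnion hAc)
  refine ⟨b, fun ξ hξ p hp => ?_⟩
  have hbelow : ∀ n, ∀ a ∈ A n, Below a.1 (ξ : WithTop J) := fun n a ha =>
    (hb a (Set.mem_iUnion.2 ⟨n, ha⟩)).mono (WithTop.coe_le_coe.2 hξ)
  let B : ℕ → ℕ → Set (Cond J) := fun n m =>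
    {a | a ∈ A n ∧ (a ∈ fnot (meets (x n m)) ∨ a ∈ fnot (IsFun x))}
  let R : Pr (WithTop J) := fun n m => ⋃ q ∈ Subtype.val '' (B n m), bs q (ξ : WithTop J)
  have hR : R ∈ ER (ξ : WithTop J) := by
    rw [ER_eq]
    refine ⟨fun n m => ⟨Subtype.val '' (B n m), ?_, ?_, rfl⟩, fun n q hq => ?_⟩
    · rintro _ ⟨a, ha, rfl⟩
      exact ⟨a.2.1, hbelow n a ha.1⟩
    · exact ((hAc n).mono fun a ha => ha.1).image _
    · obtain ⟨a, ha, s, hsa, hsq⟩ := hApre n ⟨q, hq.1, hq.2.mono le_top⟩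
      have h1 : resP s ξ ≤ a := resP_le hsa (hbelow n a ha)
      have h2 : (resP s ξ).1 ≤ q := resP_le (q := ⟨q, hq.1, hq.2.mono le_top⟩) hsq hq.2
      refine ⟨(resP s ξ).1, resP_mem s ξ, h2, ?_⟩
      have h3 : bs (resP s (ξ : WithTop J)).1 (ξ : WithTop J) ⊆ bs a.1 (ξ : WithTop J) :=
        bs_le h1 _
      rcases hAD n ha with ⟨m₀, hm₀⟩ | hnf
      · refine ⟨m₀, fun m hm => h3.trans ?_⟩
        exact Set.subset_biUnion_of_mem (u := fun q => bs q (ξ : WithTop J))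
          ⟨a, ⟨ha, Or.inl (hm₀ m hm)⟩, rfl⟩
      · refine ⟨0, fun m _ => h3.trans ?_⟩
        exact Set.subset_biUnion_of_mem (u := fun q => bs q (ξ : WithTop J))
          ⟨a, ⟨ha, Or.inr hnf⟩, rfl⟩
  have hξtop : (ξ : WithTop J) < ⊤ := WithTop.coe_lt_top ξ
  let p' : Cond J := ⟨addPr p.1 ξ R, addPr_mem p.2 hξtop hR⟩
  have hp'p : p' ≤ p := addPr_le p.1 ξ R
  refine ⟨p', hp'p, fun n hn m r hr hre hrx => ?_⟩
  have h1 : bs r.1 (ξ : WithTop J) ⊆ R n ((r.1.st (ξ : WithTop J)).getD n 0) :=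
    (hr (ξ : WithTop J)).2.2 R (addPr_pr_self p.1 ξ R) n hn hre.1
  rw [hre.2] at h1
  obtain ⟨w, hw⟩ := bs_nonempty good r.2
  have h2 := h1 (hw ξ)
  simp only [R, Set.mem_iUnion] at h2
  obtain ⟨_, ⟨a, ha, rfl⟩, hwa⟩ := h2
  obtain ⟨q, hq, hq1, hq2⟩ := compat_of_point good (resP_mem r ξ)
    ⟨a.2.1, hbelow n a ha.1⟩ (by
      show w ∈ bs (res r.1 ξ) ξ
      rw [bs_res le_rfl]; exact hw ξ) hwa
  obtain ⟨s, hs1, hs2, _⟩ := compat_res (p := r) (hbelow n a ha.1)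
    ⟨⟨q, hq.1, hq.2.mono le_top⟩, hq2, hq1⟩
  rcases ha.2 with h3 | h3
  · exact h3 s hs1 (down_meets _ _ hrx s hs2)
  · exact h3 s hs1 (down_IsFun x _ hp s (hs2.trans (hr.trans hp'p)))

/-- stems can be extended so that the Cohen part becomes a given sequence -/
theorem push_list (ξ : J) (t : List ℕ) : ∀ r : Cond J,
    ∃ r' ≤ r, (r'.1.st (ξ : WithTop J)).map (fun a => (Nat.unpair a).1) =
      (r.1.st (ξ : WithTop J)).map (fun a => (Nat.unpair a).1) ++ t ∧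
      ∀ ζ : WithTop J, (ξ : WithTop J) < ζ → r'.1.st ζ = r.1.st ζ := by
  induction t with
  | nil => intro r; exact ⟨r, le_rfl, by simp, fun _ _ => rfl⟩
  | cons a t ih =>
    intro r
    have hinf : {m : ℕ | (Nat.unpair m).1 = a}.Infinite := by
      refine Set.infinite_of_injective_forall_mem (f := fun k => Nat.pair a k) ?_ ?_
      · intro k k' h
        have := congrArg Nat.unpair h
        simpa using this
      · intro k
        simp
    obtain ⟨m, hm, r', h1, h2, h2'⟩ := push_one r ξ _ hinf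
    obtain ⟨r'', h3, h4, h4'⟩ := ih r'
    refine ⟨r'', h3.trans h1, ?_, fun ζ hζ => (h4' ζ hζ).trans (h2' ζ hζ)⟩
    rw [h4, h2]
    have : (Nat.unpair m).1 = a := hm
    simp [this]

/-- a late Cohen real avoids a given meager set -/
theorem cohen_avoids (hcof : ∀ S : Set J, S.Countable → ∃ b, ∀ s ∈ S, s < b)
    (T : ℕ → List ℕ → Set (Cond J)) :
    ∃ b : J, ∀ ξ, b ≤ ξ → IsMeagerCode T ⊆ fnot (InMeager (Cc ξ) T) := by
  classical
  have hD : ∀ k s, ∃ A ⊆ {q : Cond J | (∃ t, s <+: t ∧ q ∈ fnot (meets (T k t))) ∨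
      q ∈ fnot (IsMeagerCode T)}, A.Countable ∧ (∀ p, ∃ a ∈ A, Compat a p) ∧
      ∀ a ∈ A, ∀ b ∈ A, Compat a b → a = b := by
    intro k s
    apply exists_antichain
    intro q
    by_cases hq : q ∈ fnot (IsMeagerCode T)
    · exact ⟨q, le_rfl, Or.inr hq⟩
    · simp only [fnot, Set.mem_ofPred_eq, not_forall, not_not] at hq
      obtain ⟨q', hq', hT⟩ := hq
      obtain ⟨r, hr, t, ht1, ht2⟩ := mem_fex.1 (hT k s) q' le_rfl
      exact ⟨r, hr.trans hq', Or.inl ⟨t, ht1, ht2⟩⟩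
  choose A hAD hAc hApre hAanti using hD
  obtain ⟨b, hb⟩ := exists_below hcof
    (Set.countable_iUnion fun k => Set.countable_iUnion fun s => hAc k s)
  refine ⟨b, fun ξ hξ p hp q hq hqM => ?_⟩
  obtain ⟨r, hr, k, hk⟩ := mem_fex.1 hqM q le_rfl
  set s : List ℕ := (r.1.st (ξ : WithTop J)).map fun a => (Nat.unpair a).1 with hs
  obtain ⟨a, ha, hcomp⟩ := hApre k s (resP r ξ)
  have hbelow : Below a.1 (ξ : WithTop J) :=
    (hb a (Set.mem_iUnion.2 ⟨k, Set.mem_iUnion.2 ⟨s, ha⟩⟩)).mono (WithTop.coe_le_coe.2 hξ)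
  obtain ⟨r1, h1a, h1r, h1st⟩ := compat_res (p := r) hbelow hcomp
  rcases hAD k s ha with ⟨t, ⟨t', rfl⟩, hat⟩ | hnot
  swap
  · exact hnot r1 h1a (down_IsMeagerCode T p hp r1 (h1r.trans (hr.trans hq)))
  obtain ⟨r2, h2, h2st, _⟩ := push_list ξ t' r1
  rw [h1st _ le_rfl, ← hs] at h2st
  have hinit : r2 ∈ InitSeg (s ++ t') (Cc ξ) := by
    intro i hi
    refine meets_of_mem ⟨?_, ?_⟩
    · rw [← h2st] at hi; simpa using hi
    · rw [← h2st, List.length_map] at hi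
      rw [← h2st, List.getD_eq_getElem _ _ hi, List.getD_eq_getElem _ _ (by simpa using hi)]
      simp
  obtain ⟨r3, h3, h3T⟩ := mem_fimp.1 (hk (s ++ t')) r2 (h2.trans h1r) hinit
  exact hat r3 (h3.trans (h2.trans h1a)) h3T

/-! ### cov(M) -/

/-- the set of sequences differing from the generic real at all places from `k` on -/
def Td (ξ : J) (k : ℕ) (s : List ℕ) : Set (Cond J) :=
  {p | ∀ n, k ≤ n → n < s.length → p ∈ fnot (Ee ξ n (s.getD n 0))}

theorem down_Td (ξ : J) (k : ℕ) (s : List ℕ) : Down (Td ξ k s) :=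
  fun _ hp _ hq n h1 h2 => down_fnot _ _ (hp n h1 h2) _ hq

theorem isMeagerCode_Td (ξ : J) (p : Cond J) : p ∈ IsMeagerCode (Td ξ) := by
  refine fun k s => mem_fex.2 fun q _ => ?_
  set N := max s.length k with hN
  obtain ⟨r, hr, hlen, _⟩ := push_long q ξ N
  set e := (r.1.st (ξ : WithTop J)).getD N 0 with he
  refine ⟨r, hr, s ++ List.replicate (N - s.length) 0 ++ [e], ?_, ?_⟩
  · rw [List.append_assoc]; exact List.prefix_append _ _
  · intro r' hr' hmeet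
    obtain ⟨q', hq', hT⟩ := exists_of_meets (down_Td ξ k _) hmeet
    have hlen' : (s ++ List.replicate (N - s.length) 0).length = N := by
      simp; omega
    have h1 := hT N (le_max_right _ _) (by rw [List.length_append, hlen']; simp) q' le_rfl
    rw [List.getD_append_right _ _ _ _ (by rw [hlen']), hlen'] at h1
    apply h1
    have h2 : r ∈ Ee ξ N e := ⟨hlen, rfl⟩
    simpa using down_Ee ξ N e r h2 q' (hq'.trans hr')

theorem covLe (hcof : ∀ S : Set J, S.Countable → ∃ b, ∀ s ∈ S, s < b) {Y : Type u} (g : Y → J)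
    (hg : ∀ b, ∃ y, b ≤ g y) (p : Cond J) : p ∈ CovLe (Cond J) Y := by
  refine mem_fex_of_mem (fun y => Td (g y)) ?_ ?_
  · exact down_fand (down_fall fun _ => down_IsMeagerCode _) (down_fall fun _ => down_fimp _ _)
  · refine ⟨fun y => isMeagerCode_Td (g y) p, fun x => mem_fimp.2 fun q _ hq => ?_⟩
    obtain ⟨b, hb⟩ := eventually_different hcof x
    obtain ⟨y, hy⟩ := hg b
    obtain ⟨q', hq', h⟩ := hb (g y) hy q hq
    refine ⟨q', hq', mem_fex_of_mem y (down_InMeager _ _) ?_⟩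
    refine mem_fex_of_mem (q.1.st (g y : WithTop J)).length
      (down_fall fun _ => down_fimp _ _) fun s => mem_fimp.2 fun r hr hinit => ⟨r, le_rfl, ?_⟩
    refine meets_of_mem fun n hn hn' t ht hE => ?_
    exact h n hn (s.getD n 0) t (ht.trans hr) hE (down_meets _ _ (hinit n hn') t ht)

theorem not_covLe (hcof : ∀ S : Set J, S.Countable → ∃ b, ∀ s ∈ S, s < b) {Y : Type u}
    (hY : Countable Y) (p : Cond J) : p ∈ fnot (CovLe (Cond J) Y) := by
  intro q _ hq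
  obtain ⟨r, _, T, hT1, hT2⟩ := mem_fex.1 hq q le_rfl
  choose b hb using fun y => cohen_avoids hcof (T y)
  obtain ⟨ξ, hξ⟩ := hcof (Set.range b) (Set.countable_range b)
  obtain ⟨r', hr', h'⟩ := mem_fimp.1 (hT2 (Cc ξ)) r le_rfl (isFun_Cc ξ r)
  obtain ⟨r'', hr'', y, h''⟩ := mem_fex.1 h' r' le_rfl
  exact hb y ξ (hξ _ ⟨y, rfl⟩).le (hT1 y) r'' (hr''.trans hr') h''

/-! ### Distinct Cohen reals -/

theorem cc_distinct_aux {ξ ξ' : J} (h : ξ < ξ') {q : Cond J}
    (h1 : ∀ r ≤ q, ∀ n a b, r ∈ meets (Cc ξ n a) → r ∈ meets (Cc ξ' n b) → a = b) : False := by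
  set n := (q.1.st (ξ' : WithTop J)).length with hn
  obtain ⟨r, hr, hlen, hst⟩ := push_long q ξ n
  set a := (Nat.unpair ((r.1.st (ξ : WithTop J)).getD n 0)).1 with ha
  obtain ⟨r', hr', hst', _⟩ := push_list ξ' [a + 1] r
  have hlen' : n < (r'.1.st (ξ' : WithTop J)).length := by
    have := congrArg List.length hst'
    rw [hst _ (WithTop.coe_lt_coe.2 h)] at this
    simp at this
    omega
  have h2 : r' ∈ Cc ξ n a := down_Cc ξ n a r ⟨hlen, rfl⟩ r' hr'
  have h3 : r' ∈ Cc ξ' n (a + 1) := by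
    refine ⟨hlen', ?_⟩
    have h4 : ((r'.1.st (ξ' : WithTop J)).map (fun a => (Nat.unpair a).1)).getD n 0 = a + 1 := by
      rw [hst', hst _ (WithTop.coe_lt_coe.2 h), List.getD_append_right _ _ _ _ (by simp [hn])]
      simp [hn]
    rw [List.getD_eq_getElem _ _ (by simpa using hlen')] at h4
    rw [List.getD_eq_getElem _ _ hlen']
    simpa using h4
  have := h1 r' (hr'.trans hr) n a (a + 1) (meets_of_mem h2) (meets_of_mem h3)
  omega

theorem cc_distinct {ξ ξ' : J} (h : ξ ≠ ξ') {q : Cond J}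
    (h1 : ∀ r ≤ q, ∀ n a b, r ∈ meets (Cc ξ n a) → r ∈ meets (Cc ξ' n b) → a = b) : False := by
  rcases lt_or_gt_of_ne h with h' | h'
  · exact cc_distinct_aux h' h1
  · exact cc_distinct_aux h' fun r hr n a b ha hb => (h1 r hr n b a hb ha).symm

theorem sameReal_spec {x y : ℕ → ℕ → Set (Cond J)} {q : Cond J} (h : q ∈ SameReal x y)
    (r : Cond J) (hr : r ≤ q) (n a b : ℕ) (ha : r ∈ meets (x n a)) (hb : r ∈ meets (y n b)) :
    a = b :=
  SameReal.eq (down_SameReal x y q h r hr) ha hb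

/-! ### The Luzin set -/

theorem hasLuzinSet {κ : Cardinal.{u}} (hJ : #J = κ) (hκ : ℵ₀ < κ)
    (hIio : ∀ b : J, #(Set.Iio b) < κ)
    (hcof : ∀ S : Set J, S.Countable → ∃ b, ∀ s ∈ S, s < b) (p : Cond J) :
    p ∈ HasLuzinSet (Cond J) κ := by
  have hequiv : Nonempty (κ.out ≃ J) := Cardinal.eq.1 (by rw [mk_out, hJ])
  obtain ⟨e⟩ := hequiv
  refine mem_fex_of_mem (fun i => Cc (e i)) ?_ ?_
  · exact down_fand (down_fall fun _ => down_IsFun _) (down_fand
      (down_fall fun _ => down_fall fun _ => down_fall fun _ => down_fnot _)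
      (down_fall fun _ => down_fimp _ _))
  refine ⟨fun i => isFun_Cc (e i) p, fun i j hij q _ hq => ?_, fun T => mem_fimp.2 fun q _ hq => ?_⟩
  · exact cc_distinct (fun h => hij (e.injective h)) (sameReal_spec hq)
  · obtain ⟨b, hb⟩ := cohen_avoids hcof T
    refine ⟨q, le_rfl, fun q' hq' hfull => ?_⟩
    obtain ⟨r, hr, R, hR1, hR2, hR3⟩ := mem_fex.1 hfull q' le_rfl
    have h1 : ∀ x : κ.out, ∃ s ≤ r, ∃ y : κ.out, e y < b ∧ s ∈ meets (R x y) := by
      intro x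
      obtain ⟨s, hs, y, hy⟩ := IsFun.total hR1 x
      refine ⟨s, hs, y, ?_, hy⟩
      by_contra hcon
      obtain ⟨t, ht, ht'⟩ := mem_fimp.1 (hR3 x y) s hs hy
      exact hb (e y) (not_lt.1 hcon) (down_IsMeagerCode T q hq q' hq') t
        (ht.trans (hs.trans hr)) ht'
    choose f hf y hy1 hy2 using h1
    obtain ⟨x, x', hne, hz, s, hs1, hs2⟩ := exists_compat_same (X := κ.out) (Z := Set.Iio b) (by
      rw [mk_out]
      exact mul_lt_of_lt hκ.le (hIio b) hκ) f fun x => ⟨e (y x), hy1 x⟩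
    have hyy : y x = y x' := e.injective (Subtype.ext_iff.1 hz)
    apply hne
    refine IsInj.eq (down_IsInj R r hR2 s (hs1.trans (hf x))) (down_meets _ _ (hy2 x) s hs1) ?_
    rw [hyy]
    exact down_meets _ _ (hy2 x') s hs2

/-! ### Cardinals -/

theorem cardinalsPreserved (p : Cond J) : p ∈ CardinalsPreserved.{u, u} (Cond J) := by
  intro μ ν hμν hν q _ hq
  obtain ⟨r, _, R, hR1, hR2⟩ := mem_fex.1 hq q le_rfl
  have h1 : ∀ y : ν.out, ∃ s ≤ r, ∃ x : μ.out, s ∈ meets (R x y) := fun y =>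
    mem_fex.1 (hR2 y) r le_rfl
  choose f hf x hx using h1
  obtain ⟨y, y', hne, hz, s, hs1, hs2⟩ := exists_compat_same (X := ν.out) (Z := μ.out) (by
    rw [mk_out, mk_out]
    exact mul_lt_of_lt hν.le hμν hν) f x
  apply hne
  refine IsFun.unique (down_IsFun R r hR1 s (hs1.trans (hf y))) (down_meets _ _ (hx y) s hs1) ?_
  rw [hz]
  exact down_meets _ _ (hx y') s hs2

/-! ### The continuum -/

theorem not_continuumLe {κ : Cardinal.{u}} (hJ : #J = κ) (hκ : ℵ₀ < κ) {Y : Type u}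
    (hY : #Y < κ) (p : Cond J) : p ∈ fnot (ContinuumLe (Cond J) Y) := by
  intro q _ hq
  obtain ⟨r, _, E, hE1, hE2⟩ := mem_fex.1 hq q le_rfl
  have h1 : ∀ ξ : J, ∃ s ≤ r, ∃ y : Y, s ∈ SameReal (Cc ξ) (E y) := by
    intro ξ
    obtain ⟨r', hr', h'⟩ := mem_fimp.1 (hE2 (Cc ξ)) r le_rfl (isFun_Cc ξ r)
    obtain ⟨r'', hr'', y, h''⟩ := mem_fex.1 h' r' le_rfl
    exact ⟨r'', hr''.trans hr', y, h''⟩
  choose f hf y hy using h1
  obtain ⟨ξ, ξ', hne, hz, s, hs1, hs2⟩ := exists_compat_same (X := J) (Z := Y) (by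
    rw [hJ]
    exact mul_lt_of_lt hκ.le hY hκ) f y
  refine cc_distinct hne (q := s) fun t ht n a b ha hb => ?_
  have hfun : t ∈ IsFun (E (y ξ)) := down_IsFun _ _ (hE1 (y ξ)) t (ht.trans (hs1.trans (hf ξ)))
  obtain ⟨t', ht', c, hc⟩ := IsFun.total hfun n
  have h2 : a = c := sameReal_spec (hy ξ) t' (ht'.trans (ht.trans hs1)) n a c
    (down_meets _ _ ha t' ht') hc
  have h3 : b = c := sameReal_spec (hy ξ') t' (ht'.trans (ht.trans hs2)) n b c
    (down_meets _ _ hb t' ht') (by rw [← hz]; exact hc)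
  exact h2.trans h3.symm

/-- a countable name -/
def nm (c : ℕ → ℕ → Option (Cond J × ℕ)) (n m : ℕ) : Set (Cond J) :=
  {q | ∃ j, c n j = some (q, m)}

theorem exists_nm (x : ℕ → ℕ → Set (Cond J)) :
    ∃ c, (∀ p, p ∈ IsFun (nm c)) ∧ ∀ p ∈ IsFun x, p ∈ SameReal x (nm c) := by
  classical
  have hD : ∀ n, ∃ A ⊆ {q : Cond J | (∃ m, q ∈ meets (x n m) ∧ q ∈ IsFun x) ∨
      q ∈ fnot (IsFun x)}, A.Countable ∧ (∀ p, ∃ a ∈ A, Compat a p) ∧
      ∀ a ∈ A, ∀ b ∈ A, Compat a b → a = b := by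
    intro n
    apply exists_antichain
    intro q
    by_cases hq : q ∈ fnot (IsFun x)
    · exact ⟨q, le_rfl, Or.inr hq⟩
    · simp only [fnot, Set.mem_ofPred_eq, not_forall, not_not] at hq
      obtain ⟨q', hq', hfun⟩ := hq
      obtain ⟨q'', hq'', m, hm⟩ := IsFun.total hfun n
      exact ⟨q'', hq''.trans hq', Or.inl ⟨m, hm, down_IsFun x _ hfun _ hq''⟩⟩
  choose A hAD hAc hApre hAanti using hD
  have hval : ∀ n, ∀ a : Cond J, ∃ m, a ∈ A n → (a ∈ meets (x n m) ∨ a ∈ fnot (IsFun x)) := by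
    intro n a
    by_cases ha : a ∈ A n
    · rcases hAD n ha with ⟨m, h1, _⟩ | h
      · exact ⟨m, fun _ => Or.inl h1⟩
      · exact ⟨0, fun _ => Or.inr h⟩
    · exact ⟨0, fun h => absurd h ha⟩
  choose v hv using hval
  have hcode : ∀ n, ∃ g : ℕ → Option (Cond J × ℕ), ∀ q m, (∃ j, g j = some (q, m)) ↔
      (q ∈ A n ∧ v n q = m) := by
    intro n
    obtain ⟨a₀, ha₀, _⟩ := hApre n (Classical.arbitrary _)
    have : Nonempty (A n) := ⟨⟨a₀, ha₀⟩⟩
    have hc : Countable (A n) := hAc n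
    obtain ⟨g, hg⟩ := exists_surjective_nat (A n)
    refine ⟨fun j => some ((g j).1, v n (g j).1), fun q m => ?_⟩
    constructor
    · rintro ⟨j, hj⟩
      simp only [Option.some.injEq, Prod.mk.injEq] at hj
      obtain ⟨rfl, rfl⟩ := hj
      exact ⟨(g j).2, rfl⟩
    · rintro ⟨hq, rfl⟩
      obtain ⟨j, hj⟩ := hg ⟨q, hq⟩
      exact ⟨j, by simp [hj]⟩
  choose c hc using hcode
  have hmem : ∀ n m q, q ∈ nm c n m ↔ (q ∈ A n ∧ v n q = m) := fun n m q => hc n q m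
  refine ⟨c, fun p => ⟨fun n => mem_fex.2 fun q _ => ?_, fun n m m' => mem_fimp.2 fun q _ h => ?_⟩,
    fun p hp n a b => mem_fimp.2 fun q hq h => ?_⟩
  · obtain ⟨a, ha, s, hs1, hs2⟩ := hApre n q
    exact ⟨s, hs2, v n a, meets_of_le ((hmem n _ a).2 ⟨ha, rfl⟩) hs1⟩
  · obtain ⟨r, hr, a, ha, hra⟩ := h.1 q le_rfl
    obtain ⟨r', hr', a', ha', hra'⟩ := h.2 r hr
    obtain ⟨ha1, rfl⟩ := (hmem n _ a).1 ha
    obtain ⟨ha2, rfl⟩ := (hmem n _ a').1 ha'
    have : a = a' := hAanti n a ha1 a' ha2 ⟨r', hr'.trans hra, hra'⟩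
    exact ⟨q, le_rfl, by rw [this]; rfl⟩
  · obtain ⟨r, hr, s, hs, hrs⟩ := h.2 q le_rfl
    obtain ⟨hs1, rfl⟩ := (hmem n _ s).1 hs
    have hfun : r ∈ IsFun x := down_IsFun x p hp r (hr.trans hq)
    rcases hv n s hs1 with h1 | h1
    · exact ⟨r, hr, IsFun.unique hfun (down_meets _ _ h.1 r hr) (down_meets _ _ h1 r hrs)⟩
    · exact absurd hfun (h1 r hrs)

theorem continuumLe {κ : Cardinal.{u}} (hJ : #J = κ) (hκ : ℵ₀ < κ) (hpow : κ ^ ℵ₀ = κ)
    (p : Cond J) : p ∈ ContinuumLe (Cond J) κ.out := by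
  classical
  have hI : #(WithTop J) ≤ κ := by
    have : #(WithTop J) = #J + 1 := mk_option
    rw [this, hJ]
    exact (add_le_add_right (one_le_aleph0.trans hκ.le) κ).trans (add_eq_self hκ.le).le
  have hC : #(Cond J) ≤ κ := mk_conditions_le hκ.le hpow hI ⊤
  let N := {c : ℕ → ℕ → Option (Cond J × ℕ) // ∀ p, p ∈ IsFun (nm c)}
  have hN : #N ≤ κ := by
    refine (mk_subtype_le _).trans ?_
    have h2 : ∀ X : Type u, #X ≤ κ → #(ℕ → X) ≤ κ := by
      intro X hX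
      have : #(ℕ → X) = #X ^ ℵ₀ := by
        simp [mk_pi]
      rw [this]
      exact (power_le_power_right hX).trans hpow.le
    refine h2 _ (h2 _ ?_)
    rw [mk_option, mk_prod]
    simp only [lift_uzero, mk_nat, lift_aleph0]
    exact (add_le_add ((mul_le_mul' hC hκ.le).trans (mul_eq_self hκ.le).le)
      (one_le_aleph0.trans hκ.le)).trans (add_eq_self hκ.le).le
  have hne : Nonempty N := by
    obtain ⟨c, hc, _⟩ := exists_nm (J := J) fun _ _ => ∅
    exact ⟨⟨c, hc⟩⟩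
  obtain ⟨g⟩ : Nonempty (N ↪ κ.out) := Cardinal.le_def _ _ |>.1 (by rw [mk_out]; exact hN)
  have hsurj : Function.Surjective (Function.invFun g) := Function.invFun_surjective g.injective
  refine mem_fex_of_mem (fun i => nm (Function.invFun g i).1) ?_ ?_
  · exact down_fand (down_fall fun _ => down_IsFun _) (down_fall fun _ => down_fimp _ _)
  · refine ⟨fun i => (Function.invFun g i).2 p, fun x => mem_fimp.2 fun q _ hq => ?_⟩
    obtain ⟨c, hc1, hc2⟩ := exists_nm x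
    obtain ⟨i, hi⟩ := hsurj ⟨c, hc1⟩
    refine ⟨q, le_rfl, mem_fex_of_mem i (down_SameReal _ _) ?_⟩
    have h2 : q ∈ SameReal x (nm (Function.invFun g i).1) := by
      rw [show (Function.invFun g i).1 = c from congrArg Subtype.val hi]
      exact hc2 q hq
    exact h2

end Pool.Agent.KS6_22.CU.F.Main
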