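import Mathlib

/-!
Combinatorial part: on a well-ordered set of regular type there is an ultrafilter which contains
no set that is sparse for one of a dominating family of functions.
-/

namespace Pool.Agent.KS6_22.CU.F.CloneComb

open Cardinal Set

universe u

set_option linter.unusedSectionVars false

variable {X : Type u} [LinearOrder X] [WellFoundedLT X]

/-- every function is bounded on every initial segment -/
def Bd (X : Type u) [LinearOrder X] : Prop := ∀ (f : X → X) (N : X), ∃ ξ, ∀ x ≤ N, f x < ξ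

theorem exists_hull (hX : Bd X) (f : X → X) :
    ∃ g : X → X, Monotone g ∧ (∀ x, f x < g x) ∧ ∀ x, x < g x := by
  classical
  have h1 : ∀ x : X, ({ξ | ∀ y ≤ x, max (f y) y < ξ} : Set X).Nonempty := fun x =>
    hX (fun y => max (f y) y) x
  refine ⟨fun x => (wellFounded_lt (α := X)).min _ (h1 x), ?_, ?_, ?_⟩
  · intro x y hxy
    refine WellFounded.min_le _ ?_
    intro z hz
    exact WellFounded.min_mem (wellFounded_lt (α := X)) _ (h1 y) z (hz.trans hxy)
  · intro x
    exact (le_max_left _ _).trans_lt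
      (WellFounded.min_mem (wellFounded_lt (α := X)) _ (h1 x) x le_rfl)
  · intro x
    exact (le_max_right _ _).trans_lt
      (WellFounded.min_mem (wellFounded_lt (α := X)) _ (h1 x) x le_rfl)

/-- `Y` is `k`-sparse: in every interval `(h x, f x)` it has no `h`-separated subset with more
than `k` points -/
def Sparse (h f : X → X) (k : ℕ) (Y : Set X) : Prop :=
  ∀ (x : X) (T : Finset X), (∀ t ∈ T, t ∈ Y ∧ h x < t ∧ t < f x) →
    (∀ t ∈ T, ∀ t' ∈ T, t < t' → h t < t') → T.card ≤ k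

theorem sparse_empty (h f : X → X) (k : ℕ) : Sparse h f k ∅ := by
  intro x T hT _
  have : T = ∅ := Finset.eq_empty_of_forall_notMem fun t ht => (hT t ht).1
  simp [this]

theorem Sparse.union {h f : X → X} {k l : ℕ} {Y Z : Set X} (hY : Sparse h f k Y)
    (hZ : Sparse h f l Z) : Sparse h f (k + l) (Y ∪ Z) := by
  classical
  intro x T hT hsep
  have h1 : (T.filter (· ∈ Y)).card ≤ k := by
    refine hY x _ ?_ ?_
    · intro t ht
      rw [Finset.mem_filter] at ht
      exact ⟨ht.2, (hT t ht.1).2⟩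
    · intro t ht t' ht'
      exact hsep t (Finset.mem_filter.1 ht).1 t' (Finset.mem_filter.1 ht').1
  have h2 : (T.filter (¬ · ∈ Y)).card ≤ l := by
    refine hZ x _ ?_ ?_
    · intro t ht
      rw [Finset.mem_filter] at ht
      exact ⟨(hT t ht.1).1.resolve_left ht.2, (hT t ht.1).2⟩
    · intro t ht t' ht'
      exact hsep t (Finset.mem_filter.1 ht).1 t' (Finset.mem_filter.1 ht').1
  have h3 := Finset.card_filter_add_card_filter_not (s := T) (· ∈ Y)
  omega

theorem Sparse.mono {h f : X → X} {k l : ℕ} {Y : Set X} (hY : Sparse h f k Y) (hkl : k ≤ l) :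
    Sparse h f l Y := fun x T hT hs => (hY x T hT hs).trans hkl

variable {I : Type u}

/-- `k`-sparse sets with indices in `F` do not cover long intervals -/
def Dag (h f : I → X → X) (F : Finset I) (k : ℕ) : Prop :=
  ∀ n, ∃ m, ∀ Y : I → Set X, (∀ β ∈ F, Sparse (h β) (f β) k (Y β)) →
    ∃ x, n ≤ x ∧ x < m ∧ ∀ β ∈ F, x ∉ Y β

theorem Dag.congr {h f f' : I → X → X} {F : Finset I} {k : ℕ} (hf : ∀ β ∈ F, f β = f' β)
    (hd : Dag h f F k) : Dag h f' F k := by
  intro n
  obtain ⟨m, hm⟩ := hd n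
  refine ⟨m, fun Y hY => hm Y fun β hβ => ?_⟩
  rw [hf β hβ]
  exact hY β hβ

theorem exists_g (h f : I → X → X) (F : Finset I) (k : ℕ) :
    ∃ g : X → X, Monotone g ∧ (Dag h f F k → ∀ n, ∀ Y : I → Set X,
      (∀ β ∈ F, Sparse (h β) (f β) k (Y β)) → ∃ x, n ≤ x ∧ x < g n ∧ ∀ β ∈ F, x ∉ Y β) := by
  classical
  by_cases hd : Dag h f F k
  · refine ⟨fun n => (wellFounded_lt (α := X)).min _ (hd n), ?_, fun _ n => ?_⟩
    · intro n n' hn
      refine WellFounded.min_le _ ?_
      intro Y hY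
      obtain ⟨x, hx1, hx2⟩ := WellFounded.min_mem (wellFounded_lt (α := X)) _ (hd n') Y hY
      exact ⟨x, hn.trans hx1, hx2⟩
    · exact WellFounded.min_mem (wellFounded_lt (α := X)) _ (hd n)
  · exact ⟨id, monotone_id, fun h => absurd h hd⟩

theorem dag_step [DecidableEq I] {h f : I → X → X} {F : Finset I} {k : ℕ} {α : I} {s : X → X}
    (hα : Monotone (h α)) (hα' : ∀ x, x < h α x) (hF : α ∉ F) {g : X → X}
    (hgp : ∀ n, ∀ Y : I → Set X,
      (∀ β ∈ F, Sparse (h β) (f β) k (Y β)) → ∃ x, n ≤ x ∧ x < g n ∧ ∀ β ∈ F, x ∉ Y β)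
    (hs : ∀ n, ∃ l, n ≤ l ∧ (fun x => h α (h α (g x)))^[k + 1] (h α (h α l)) ≤ s l) :
    Dag h (Function.update f α s) (insert α F) k := by
  intro n
  obtain ⟨l, hnl, hl⟩ := hs n
  refine ⟨s l, fun Y hY => ?_⟩
  let φ : X → X := fun x => h α (h α (g x))
  let N : ℕ → X := fun i => φ^[i] (h α (h α l))
  have hN : ∀ i, N (i + 1) = φ (N i) := fun i => Function.iterate_succ_apply' _ _ _
  have h1 : ∀ i, ∃ x, N i ≤ x ∧ x < g (N i) ∧ ∀ β ∈ F, x ∉ Y β := by
    intro i
    refine hgp (N i) Y fun β hβ => ?_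
    have := hY β (Finset.mem_insert_of_mem hβ)
    rwa [Function.update_of_ne (by rintro rfl; exact hF hβ)] at this
  choose x hx1 hx2 hx3 using h1
  have h2 : ∀ i, h α (x i) < N (i + 1) := by
    intro i
    rw [hN]
    exact (hα (hx2 i).le).trans_lt (hα' _)
  have h3 : ∀ i, h α (x i) < x (i + 1) := fun i => (h2 i).trans_le (hx1 _)
  have h4 : StrictMono x := strictMono_nat_of_lt_succ fun i => (hα' _).trans (h3 i)
  have h5 : Monotone N := monotone_nat_of_le_succ fun i =>
    (hx1 i).trans ((hα' _).trans (h2 i)).le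
  have h6 : ∀ i, h α l < x i := fun i =>
    ((hα' (h α l)).trans_le (h5 (Nat.zero_le i))).trans_le (hx1 i)
  have h7 : ∀ i ≤ k, x i < s l := fun i hi =>
    (((hα' _).trans (h2 i)).trans_le (h5 (Nat.succ_le_succ hi))).trans_le hl
  by_contra hcon
  push Not at hcon
  have h8 : ∀ i ≤ k, x i ∈ Y α := by
    intro i hi
    obtain ⟨β, hβ, hxβ⟩ := hcon (x i) (hnl.trans ((hα' l).trans (h6 i)).le) (h7 i hi)
    rcases Finset.mem_insert.1 hβ with rfl | hβ
    · exact hxβ
    · exact absurd hxβ (hx3 i β hβ)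
  have h9 := hY α (Finset.mem_insert_self _ _)
  rw [Function.update_self] at h9
  have h10 := h9 l ((Finset.range (k + 1)).image x) (by
      intro t ht
      obtain ⟨i, hi, rfl⟩ := Finset.mem_image.1 ht
      have hi' : i ≤ k := Nat.lt_succ_iff.1 (Finset.mem_range.1 hi)
      exact ⟨h8 i hi', h6 i, h7 i hi'⟩) (by
      intro t ht t' ht' htt
      obtain ⟨i, hi, rfl⟩ := Finset.mem_image.1 ht
      obtain ⟨j, hj, rfl⟩ := Finset.mem_image.1 ht'
      have hij : i < j := h4.lt_iff_lt.1 htt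
      exact (h3 i).trans_le (h4.monotone hij))
  rw [Finset.card_image_of_injective _ h4.injective, Finset.card_range] at h10
  omega

/-- recursion along a well-order -/
theorem exists_rec {S : Type u} [LinearOrder I] [WellFoundedLT I] [Inhabited S]
    (R : I → (I → S) → S → Prop)
    (hR : ∀ α c c' s, (∀ β < α, c β = c' β) → R α c s → R α c' s)
    (hex : ∀ α c, ∃ s, R α c s) : ∃ C : I → S, ∀ α, R α C (C α) := by
  classical
  let Ψ : (α : I) → ((β : I) → β < α → S) → S := fun α c =>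
    Classical.choose (hex α fun β => if h : β < α then c β h else default)
  let C : I → S := (wellFounded_lt (α := I)).fix Ψ
  have hC : ∀ α, C α = Classical.choose (hex α fun β => if β < α then C β else default) := by
    intro α
    have h1 : C α = Ψ α fun β _ => C β := WellFounded.fix_eq _ _ _
    rw [h1]
  refine ⟨C, fun α => ?_⟩
  have h2 := Classical.choose_spec (hex α fun β => if β < α then C β else default)
  rw [← hC α] at h2
  exact hR α _ C _ (fun β hβ => by simp [hβ]) h2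

theorem mk_pairs_lt [LinearOrder I] [WellFoundedLT I] (hI : ℵ₀ < #I)
    (hord : ∀ α : I, #(Iio α) < #I) (α : I) : #(Finset (Iio α) × ℕ) < #I := by
  have h1 : #(Finset (Iio α)) < #I := by
    rcases finite_or_infinite (Iio α) with h | h
    · exact (Cardinal.lt_aleph0_of_finite _).trans hI
    · rw [mk_finset_of_infinite]
      exact hord α
  rw [mk_prod, lift_uzero, mk_nat, lift_aleph0]
  exact mul_lt_of_lt hI.le h1 hI

/-- the functions `f α` can be chosen so that all the relations `Dag` hold -/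
theorem exists_f [LinearOrder I] [WellFoundedLT I] [Nonempty X] (hX : Bd X) (hI : ℵ₀ < #I)
    (hord : ∀ α : I, #(Iio α) < #I)
    (hsm : ∀ (J : Type u), #J < #I → ∀ G : J → X → X, ∃ s : X → X, ∀ j n, ∃ l, n ≤ l ∧
      G j l ≤ s l)
    (h : I → X → X) (hm : ∀ α, Monotone (h α)) (hi : ∀ α x, x < h α x) :
    ∃ f : I → X → X, ∀ F k, Dag h f F k := by
  classical
  obtain ⟨x0⟩ := ‹Nonempty X›
  have hinh : Inhabited (X → X) := ⟨id⟩
  obtain ⟨f, hf⟩ := exists_rec (S := X → X)
    (fun α c s => ∀ (F : Finset I) (k : ℕ), (∀ β ∈ F, β < α) → Dag h c F k →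
      Dag h (Function.update c α s) (insert α F) k) (by
      intro α c c' s hcc hR F k hF hd
      refine (hR F k hF (hd.congr fun β hβ => (hcc β (hF β hβ)).symm)).congr fun β hβ => ?_
      rcases Finset.mem_insert.1 hβ with rfl | hβ
      · simp
      · rw [Function.update_of_ne (hF β hβ).ne, Function.update_of_ne (hF β hβ).ne,
          hcc β (hF β hβ)]) (by
      intro α c
      have h1 := fun (F : Finset I) (k : ℕ) => exists_g h c F k
      choose g hg hgp using h1
      let emb : Iio α ↪ I := Function.Embedding.subtype _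
      obtain ⟨s, hs⟩ := hsm (Finset (Iio α) × ℕ) (mk_pairs_lt hI hord α) fun j l =>
        (fun x => h α (h α (g (j.1.map emb) j.2 x)))^[j.2 + 1] (h α (h α l))
      refine ⟨s, fun F k hF hd => ?_⟩
      have hFm : ∃ F' : Finset (Iio α), F'.map emb = F := by
        refine ⟨F.subtype (· ∈ Iio α), ?_⟩
        rw [Finset.subtype_map]
        exact Finset.filter_true_of_mem hF
      obtain ⟨F', rfl⟩ := hFm
      exact dag_step (hm α) (hi α) (fun hα => lt_irrefl _ (hF α hα)) (hgp _ k hd)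
        fun n => hs (F', k) n)
  refine ⟨f, fun F k => ?_⟩
  induction F using Finset.induction_on_max with
  | empty =>
    intro n
    obtain ⟨ξ, hξ⟩ := hX id n
    exact ⟨ξ, fun Y _ => ⟨n, le_rfl, hξ n le_rfl, fun β hβ => absurd hβ (Finset.notMem_empty β)⟩⟩
  | insert α F hF ih =>
    have := hf α F k hF ih
    rwa [Function.update_eq_self] at this

/-- the filter dual to the ideal generated by sparse and bounded sets -/
def filt [Nonempty X] (h f : I → X → X) : Filter X where
  sets := {S | ∃ (F : Finset I) (k : ℕ) (n : X) (Y : I → Set X),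
    (∀ β, Sparse (h β) (f β) k (Y β)) ∧ ∀ x, n ≤ x → (∀ β ∈ F, x ∉ Y β) → x ∈ S}
  univ_sets := ⟨∅, 0, Classical.arbitrary X, fun _ => ∅, fun _ => sparse_empty _ _ _,
    fun _ _ _ => mem_univ _⟩
  sets_of_superset := by
    rintro S T ⟨F, k, n, Y, hY, hS⟩ hST
    exact ⟨F, k, n, Y, hY, fun x hx hx' => hST (hS x hx hx')⟩
  inter_sets := by
    classical
    rintro S T ⟨F, k, n, Y, hY, hS⟩ ⟨F', k', n', Y', hY', hT⟩
    refine ⟨F ∪ F', k + k', max n n', fun β => Y β ∪ Y' β, fun β => (hY β).union (hY' β), ?_⟩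
    intro x hx hx'
    refine ⟨hS x ((le_max_left _ _).trans hx) fun β hβ h => hx' β (Finset.mem_union_left _ hβ)
      (Or.inl h), hT x ((le_max_right _ _).trans hx) fun β hβ h =>
      hx' β (Finset.mem_union_right _ hβ) (Or.inr h)⟩

/-- the ultrafilter -/
theorem exists_ultra [LinearOrder I] [WellFoundedLT I] [Nonempty X] (hX : Bd X) (hI : ℵ₀ < #I)
    (hord : ∀ α : I, #(Iio α) < #I)
    (hsm : ∀ (J : Type u), #J < #I → ∀ G : J → X → X, ∃ s : X → X, ∀ j n, ∃ l, n ≤ l ∧
      G j l ≤ s l)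
    (h : I → X → X) (hm : ∀ α, Monotone (h α)) (hi : ∀ α x, x < h α x) :
    ∃ (f : I → X → X) (U : Ultrafilter X), (∀ n, {x | n ≤ x} ∈ U) ∧
      ∀ α k Y, Y ∈ U → ¬ Sparse (h α) (f α) k Y := by
  classical
  obtain ⟨f, hf⟩ := exists_f hX hI hord hsm h hm hi
  have hne : (filt h f).NeBot := by
    refine ⟨fun hb => ?_⟩
    have h1 : (∅ : Set X) ∈ filt h f := by rw [hb]; exact Filter.mem_bot
    obtain ⟨F, k, n, Y, hY, hS⟩ := h1
    obtain ⟨m, hm⟩ := hf F k n
    obtain ⟨x, hx1, _, hx2⟩ := hm Y fun β _ => hY β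
    exact hS x hx1 hx2
  obtain ⟨U, hU⟩ := Ultrafilter.exists_le (filt h f)
  refine ⟨f, U, fun n => hU ?_, fun α k Y hYU hs => ?_⟩
  · exact ⟨∅, 0, n, fun _ => ∅, fun _ => sparse_empty _ _ _, fun x hx _ => hx⟩
  · have h1 : Yᶜ ∈ U := hU ⟨{α}, k, Classical.arbitrary X,
      fun β => if β = α then Y else ∅, fun β => by
        by_cases h : β = α
        · subst h
          simpa using hs
        · simpa [h] using sparse_empty _ _ _, fun x _ hx hxY => hx α (by simp) (by simpa using hxY)⟩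
    exact (Ultrafilter.compl_mem_iff_notMem.1 h1) hYU

/-- the cardinal invariant: a dominating family of least size -/
theorem exists_dominating [Nonempty X] [Infinite X] (hX : Bd X) :
    ∃ (I : Type u) (_ : LinearOrder I) (_ : WellFoundedLT I) (h : I → X → X),
      ℵ₀ < #I ∧ (∀ α : I, #(Iio α) < #I) ∧ (∀ α, Monotone (h α)) ∧ (∀ α x, x < h α x) ∧
      (∀ f : X → X, ∃ α, ∀ x, f x ≤ h α x) ∧
      ∀ (J : Type u), #J < #I → ∀ G : J → X → X, ∃ s : X → X, ∀ j n, ∃ l, n ≤ l ∧
        G j l ≤ s l := by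
  classical
  let D : Set Cardinal.{u} := {c | ∃ S : Set (X → X), #S = c ∧ ∀ f : X → X, ∃ g ∈ S, ∀ x, f x ≤ g x}
  have hD : D.Nonempty := ⟨_, univ, rfl, fun f => ⟨f, mem_univ _, fun _ => le_rfl⟩⟩
  obtain ⟨S, hS, hdom⟩ := csInf_mem hD
  obtain ⟨_, _, hord⟩ := exists_ord_eq_type_lt S
  have h1 : ∀ g : S, ∃ g' : X → X, Monotone g' ∧ (∀ x, g.1 x < g' x) ∧ ∀ x, x < g' x :=
    fun g => exists_hull hX g.1
  choose h hm hg hi using h1
  have hXS : #X < #S := by
    by_contra hcon
    push Not at hcon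
    obtain ⟨e⟩ := Cardinal.le_def _ _ |>.1 hcon
    have h2 : ∀ x : X, ∃ y, ∀ g : S, e g = x → g.1 x < y := by
      intro x
      by_cases hx : ∃ g : S, e g = x
      · obtain ⟨g, hg⟩ := hx
        obtain ⟨y, hy⟩ := hX (fun _ => g.1 x) x
        refine ⟨y, fun g' hg' => ?_⟩
        have : g' = g := e.injective (hg'.trans hg.symm)
        subst this
        exact hy x le_rfl
      · exact ⟨x, fun g hg => absurd ⟨g, hg⟩ hx⟩
    choose φ hφ using h2
    obtain ⟨g, hgS, hgd⟩ := hdom φ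
    exact absurd (hφ (e ⟨g, hgS⟩) ⟨g, hgS⟩ rfl) (not_lt.2 (hgd _))
  have hIS : ℵ₀ < #S := (aleph0_le_mk X).trans_lt hXS
  refine ⟨S, inferInstance, inferInstance, h, hIS, fun α => mk_Iio_lt α hord, hm, hi, ?_, ?_⟩
  · intro f
    obtain ⟨g, hgS, hgd⟩ := hdom f
    exact ⟨⟨g, hgS⟩, fun x => (hgd x).trans (hg ⟨g, hgS⟩ x).le⟩
  · intro J hJ G
    by_contra hcon
    push Not at hcon
    let S' : Set (X → X) := range fun p : J × X => fun x => max (G p.1 x) p.2
    have h2 : ∀ f : X → X, ∃ g ∈ S', ∀ x, f x ≤ g x := by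
      intro f
      obtain ⟨j, n, hjn⟩ := hcon f
      obtain ⟨ξ, hξ⟩ := hX f n
      refine ⟨_, ⟨(j, ξ), rfl⟩, fun x => ?_⟩
      rcases le_total x n with hx | hx
      · exact (hξ x hx).le.trans (le_max_right _ _)
      · exact (hjn x hx).le.trans (le_max_left _ _)
    have h3 : #S' < #S := by
      refine mk_range_le.trans_lt ?_
      rw [mk_prod, lift_id, lift_id]
      exact mul_lt_of_lt hIS.le hJ hXS
    have h4 : #S' ∈ D := ⟨S', rfl, h2⟩
    rw [hS] at h3
    exact absurd (csInf_le' h4) (not_le.2 h3)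

/-- every finitary function is bounded by a function of one variable -/
theorem bd_multi (hX : Bd X) : ∀ (n : ℕ) (f : (Fin n → X) → X) (N : X),
    ∃ ξ, ∀ z : Fin n → X, (∀ i, z i ≤ N) → f z < ξ := by
  intro n
  induction n with
  | zero =>
    intro f N
    obtain ⟨ξ, hξ⟩ := hX (fun _ => f Fin.elim0) N
    refine ⟨ξ, fun z _ => ?_⟩
    have : z = Fin.elim0 := Subsingleton.elim _ _
    rw [this]
    exact hξ N le_rfl
  | succ n ih =>
    intro f N
    have h1 : ∀ a, ∃ ξ, ∀ z : Fin n → X, (∀ i, z i ≤ N) → f (Fin.cons a z) < ξ := fun a =>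
      ih (fun z => f (Fin.cons a z)) N
    choose φ hφ using h1
    obtain ⟨ξ, hξ⟩ := hX φ N
    refine ⟨ξ, fun z hz => ?_⟩
    have h2 := hφ (z 0) (Fin.tail z) fun i => hz _
    rw [Fin.cons_self_tail] at h2
    exact h2.trans (hξ _ (hz 0))

end Pool.Agent.KS6_22.CU.F.CloneComb
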