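import Mathlib
import Pool.Agent.KS6_22.CU.F.KDefs
set_option autoImplicit false

/-!
# Distributivity, chain conditions and cardinals
-/

namespace Pool.Agent.KS6_22.CU.F.K

open Cardinal Pool.Agent.KS6_22.CU.F.Forcing

theorem exists_forall_mem {Q : Type} [Preorder Q] {κ : Cardinal.{0}} (hκ : ℵ₀ ≤ κ)
    (hQ : DirClosed κ Q) {N : Type} (hN : #N < κ) (D : N → Set Q) (hdown : ∀ i, Down (D i))
    (hdense : ∀ i q, ∃ q' ≤ q, q' ∈ D i) (q : Q) : ∃ q' ≤ q, ∀ i, q' ∈ D i := by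
  classical
  obtain ⟨r, wo, -⟩ := Cardinal.exists_ord_eq N
  -- recursion
  let F : (i : N) → ((j : N) → r j i → Q) → Q := fun i g =>
    if h : ∃ p ∈ D i, p ≤ q ∧ ∀ (j : N) (hj : r j i), p ≤ g j hj then h.choose else q
  let f : N → Q := wo.toIsWellFounded.wf.fix F
  have hf : ∀ i, f i = F i (fun j _ => f j) := fun i => wo.toIsWellFounded.wf.fix_eq F i
  have bound : ∀ S : Set N, (∀ i ∈ S, f i ≤ q) → (∀ i ∈ S, ∀ j ∈ S, r j i → f i ≤ f j) →
      ∃ p, p ≤ q ∧ ∀ i ∈ S, p ≤ f i := by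
    intro S h1 h2
    obtain ⟨p, hp⟩ := hQ (insert q (f '' S)) (by
      refine lt_of_le_of_lt (Cardinal.mk_insert_le) ?_
      refine Cardinal.add_lt_of_lt hκ ?_ (lt_of_lt_of_le Cardinal.one_lt_aleph0 hκ)
      exact lt_of_le_of_lt (le_trans Cardinal.mk_image_le (Cardinal.mk_set_le S)) hN)
      (Set.insert_nonempty _ _) (by
        intro a ha b hb
        rcases ha with rfl | ⟨i, hi, rfl⟩
        · exact ⟨b, hb, by
            rcases hb with rfl | ⟨j, hj, rfl⟩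
            · exact le_refl _
            · exact h1 j hj, le_refl _⟩
        · rcases hb with rfl | ⟨j, hj, rfl⟩
          · exact ⟨f i, Or.inr ⟨i, hi, rfl⟩, le_refl _, h1 i hi⟩
          · rcases trichotomous_of r i j with h | h | h
            · exact ⟨f j, Or.inr ⟨j, hj, rfl⟩, h2 j hj i hi h, le_refl _⟩
            · subst h
              exact ⟨f i, Or.inr ⟨i, hi, rfl⟩, le_refl _, le_refl _⟩
            · exact ⟨f i, Or.inr ⟨i, hi, rfl⟩, le_refl _, h2 i hi j hj h⟩)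
    exact ⟨p, hp q (Or.inl rfl), fun i hi => hp _ (Or.inr ⟨i, hi, rfl⟩)⟩
  have inv : ∀ i, f i ∈ D i ∧ f i ≤ q ∧ ∀ j, r j i → f i ≤ f j := by
    intro i
    induction i using wo.toIsWellFounded.wf.induction with
    | _ i ih =>
    have hex : ∃ p ∈ D i, p ≤ q ∧ ∀ (j : N) (_ : r j i), p ≤ f j := by
      obtain ⟨p0, hp0, hp1⟩ := bound {j | r j i} (fun j hj => (ih j hj).2.1)
        (fun j hj j' _ hjj' => (ih j hj).2.2 j' hjj')
      obtain ⟨p, hp, hpD⟩ := hdense i p0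
      exact ⟨p, hpD, hp.trans hp0, fun j hj => hp.trans (hp1 j hj)⟩
    have e : f i = hex.choose := by
      rw [hf i]
      simp only [F]
      rw [dif_pos hex]
    rw [e]
    exact hex.choose_spec
  obtain ⟨p, hp, hp'⟩ := bound Set.univ (fun i _ => (inv i).2.1)
    (fun i _ j _ h => (inv i).2.2 j h)
  exact ⟨p, hp, fun i => hdown i _ (inv i).1 _ (hp' i (Set.mem_univ i))⟩


theorem staysRegular_succ {Q : Type} [Preorder Q] {κ : Cardinal.{0}} (hκ : ℵ₀ ≤ κ)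
    (hcc : ∀ (ι : Type) (f : ι → Q), κ < #ι → ∃ i j, i ≠ j ∧ ∃ r, r ≤ f i ∧ r ≤ f j) (q : Q) :
    q ∈ StaysRegular Q (Order.succ κ) := by
  classical
  intro ν hν R
  rw [mem_fimp]
  intro q' _ hR
  have hν' : ν ≤ κ := Order.lt_succ_iff.1 hν
  have hV : ∀ x : ν.out, #{y : (Order.succ κ).ord.ToType | ∃ q1 ≤ q', q1 ∈ meets (R x y)} ≤ κ := by
    intro x
    by_contra hcon
    push Not at hcon
    choose f hf1 hf2 using fun y : {y : (Order.succ κ).ord.ToType |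
      ∃ q1 ≤ q', q1 ∈ meets (R x y)} => y.2
    obtain ⟨i, j, hij, r, hri, hrj⟩ := hcc _ f hcon
    apply hij
    have hr' : r ∈ IsFun R := down_IsFun R _ hR _ (hri.trans (hf1 i))
    exact Subtype.ext (IsFun.unique hr' (down_meets _ _ (hf2 i) _ hri)
      (down_meets _ _ (hf2 j) _ hrj))
  have hS : #(⋃ x : ν.out, {y : (Order.succ κ).ord.ToType | ∃ q1 ≤ q', q1 ∈ meets (R x y)} :
      Set _) ≤ κ := by
    refine (Cardinal.mk_iUnion_le _).trans ?_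
    refine (mul_le_mul' (le_refl _) (ciSup_le' hV)).trans ?_
    rw [Cardinal.mk_out]
    refine (mul_le_mul' hν' (le_refl κ)).trans ?_
    rw [Cardinal.mul_eq_self hκ]
  have hcof : Order.cof (Order.succ κ).ord.ToType = Order.succ κ := by
    rw [Ordinal.cof_toType]
    exact (Cardinal.isRegular_succ hκ).cof_ord
  have hnc : ¬ IsCofinal (⋃ x : ν.out, {y : (Order.succ κ).ord.ToType |
      ∃ q1 ≤ q', q1 ∈ meets (R x y)}) := by
    intro h
    have h1 := Order.cof_le h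
    rw [hcof] at h1
    exact absurd (Order.succ_le_iff.1 (h1.trans hS)) (lt_irrefl _)
  unfold IsCofinal at hnc
  push Not at hnc
  obtain ⟨b, hb⟩ := hnc
  refine ⟨q', le_rfl, mem_fex_of_mem b ?_ ?_⟩
  · exact down_fall fun x => down_fall fun y => down_fimp _ _
  · intro x y
    rw [mem_fimp]
    intro q1 hq1 hm
    exact ⟨q1, le_rfl, hb y (Set.mem_iUnion.2 ⟨x, q1, hq1, hm⟩)⟩


theorem h400_bdd {κ : Cardinal.{0}} (hκ : ℵ₀ ≤ κ) (ι : Type) (hι : #ι ≤ κ)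
    (ξ : ι → (Order.succ κ).ord.ToType) : ∃ ξ0, ∀ i, ξ i ≤ ξ0 := by
  by_contra hcon
  push Not at hcon
  have hcov : (⋃ i, Set.Iio (ξ i)) = Set.univ := by
    ext y
    simp only [Set.mem_iUnion, Set.mem_Iio, Set.mem_univ, iff_true]
    exact hcon y
  have h1 : #((Order.succ κ).ord.ToType) ≤ κ := by
    calc #((Order.succ κ).ord.ToType) = #(Set.univ : Set ((Order.succ κ).ord.ToType)) :=
          (Cardinal.mk_univ).symm
      _ = #(⋃ i, Set.Iio (ξ i)) := by rw [hcov]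
      _ ≤ #ι * ⨆ i, #(Set.Iio (ξ i)) := Cardinal.mk_iUnion_le _
      _ ≤ κ * κ := mul_le_mul' hι
          (ciSup_le' (fun i => Order.lt_succ_iff.mp (Cardinal.mk_Iio_toType_ord_lt (ξ i))))
      _ = κ := Cardinal.mul_eq_self hκ
  rw [Cardinal.mk_ord_toType] at h1
  exact absurd h1 (not_le.mpr (Order.lt_succ κ))

theorem h400_antichain {Q : Type} [Preorder Q] (D : Set Q) :
    ∃ M : Set Q, M ⊆ D ∧ M.Pairwise (fun a b => ¬ ∃ r, r ≤ a ∧ r ≤ b) ∧
      ∀ q ∈ D, ∃ m ∈ M, ∃ r, r ≤ q ∧ r ≤ m := by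
  obtain ⟨M, hM⟩ := zorn_subset
    {M : Set Q | M ⊆ D ∧ M.Pairwise (fun a b => ¬ ∃ r, r ≤ a ∧ r ≤ b)} (by
      intro c hc hchain
      refine ⟨⋃₀ c, ⟨?_, ?_⟩, fun s hs => Set.subset_sUnion_of_mem hs⟩
      · apply Set.sUnion_subset
        intro s hs
        exact (hc hs).1
      · rw [Set.pairwise_sUnion hchain.directedOn]
        intro s hs
        exact (hc hs).2)
  obtain ⟨hM1, hM2⟩ := hM.prop
  refine ⟨M, hM1, hM2, ?_⟩
  intro q hq
  by_contra hcon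
  push Not at hcon
  have hins : insert q M ∈ {M : Set Q | M ⊆ D ∧
      M.Pairwise (fun a b => ¬ ∃ r, r ≤ a ∧ r ≤ b)} := by
    refine ⟨Set.insert_subset hq hM1, ?_⟩
    rw [Set.pairwise_insert]
    refine ⟨hM2, ?_⟩
    intro b hb _
    constructor
    · rintro ⟨r, hr1, hr2⟩
      exact hcon b hb r hr1 hr2
    · rintro ⟨r, hr1, hr2⟩
      exact hcon b hb r hr2 hr1
  have hsub := hM.le_of_ge hins (Set.subset_insert q M)
  have hqM : q ∈ M := hsub (Set.mem_insert q M)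
  exact hcon q hqM q le_rfl le_rfl

theorem exists_many {Q : Type} [Preorder Q] {κ : Cardinal.{0}} (hκ : ℵ₀ ≤ κ)
    (hcc : ∀ (ι : Type) (f : ι → Q), κ < #ι → ∃ i j, i ≠ j ∧ ∃ r, r ≤ f i ∧ r ≤ f j)
    (hreg : ∀ q : Q, q ∈ StaysRegular Q (Order.succ κ))
    (A : Set (Order.succ κ).ord.ToType) (hA : κ < #A) (f : (Order.succ κ).ord.ToType → Q) :
    ∃ α ∈ A, ∃ q ≤ f α, q ∈ HasFullSize fun β => {p : Q | β ∈ A ∧ p ≤ f β} := by
  by_contra hcon
  push Not at hcon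
  obtain ⟨N, hN⟩ : ∃ N : (Order.succ κ).ord.ToType → Set Q,
      N = fun β => {p : Q | β ∈ A ∧ p ≤ f β} := ⟨_, rfl⟩
  rw [← hN] at hcon
  obtain ⟨D, hD⟩ : ∃ D : Set Q, D = {q | ∃ ξ : (Order.succ κ).ord.ToType, ∀ s ≤ q, ∀ β,
      s ∈ meets (N β) → β < ξ} := ⟨_, rfl⟩
  have hdense : ∀ α ∈ A, ∀ q ≤ f α, ∃ q2 ≤ q, q2 ∈ D := by
    intro α hα q hq
    have h1 := hcon α hα q hq
    have h2 : ∃ ν : Cardinal.{0}, ∃ _ : ν < #((Order.succ κ).ord.ToType), ∃ q1 ≤ q,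
        q1 ∈ fex fun R : ν.out → (Order.succ κ).ord.ToType → Set Q =>
          fand (IsFun R) (fall fun y => fimp (meets (N y)) (fex fun x => meets (R x y))) := by
      by_contra hno
      apply h1
      intro ν hν q1 hq1 hmem
      exact hno ⟨ν, hν, q1, hq1, hmem⟩
    obtain ⟨ν, hν, q1, hq1, hmem⟩ := h2
    obtain ⟨q2, hq2, R, hR1, hR2⟩ := mem_fex.1 hmem q1 le_rfl
    rw [Cardinal.mk_ord_toType] at hν
    have h3 := hreg q2 ν hν R
    obtain ⟨q3, hq3, h4⟩ := mem_fimp.1 h3 q2 le_rfl hR1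
    obtain ⟨q4, hq4, b, hb⟩ := mem_fex.1 h4 q3 le_rfl
    refine ⟨q4, hq4.trans (hq3.trans (hq2.trans hq1)), ?_⟩
    rw [hD]
    refine ⟨b, ?_⟩
    intro s hs β hβ
    obtain ⟨s', hs', h5⟩ := mem_fimp.1 (hR2 β) s (hs.trans (hq4.trans hq3)) hβ
    obtain ⟨s'', hs'', x, h6⟩ := mem_fex.1 h5 s' le_rfl
    obtain ⟨t, _, h7⟩ := mem_fimp.1 (hb x β) s'' (hs''.trans (hs'.trans hs)) h6
    exact h7
  obtain ⟨M, hM1, hM2, hM3⟩ := h400_antichain D
  have hMκ : #M ≤ κ := by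
    by_contra hlt
    push Not at hlt
    obtain ⟨i, j, hij, hcompat⟩ := hcc M (fun m => (m : Q)) hlt
    exact hM2 i.2 j.2 (fun h => hij (Subtype.ext h)) hcompat
  have hξ : ∀ m : M, ∃ ξ : (Order.succ κ).ord.ToType, ∀ s ≤ (m : Q), ∀ β,
      s ∈ meets (N β) → β < ξ := by
    intro m
    have h1 := hM1 m.2
    rw [hD] at h1
    exact h1
  choose ξ hξ using hξ
  obtain ⟨ξ0, hξ0⟩ := h400_bdd hκ M hMκ ξ
  have hα : ∃ α ∈ A, ξ0 ≤ α := by
    by_contra hno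
    push Not at hno
    have h1 : #A ≤ #(Set.Iio ξ0) := Cardinal.mk_le_mk_of_subset (fun α hα => hno α hα)
    have h2 : #A < Order.succ κ := h1.trans_lt (Cardinal.mk_Iio_toType_ord_lt ξ0)
    exact absurd hA (not_lt.mpr (Order.lt_succ_iff.mp h2))
  obtain ⟨α, hαA, hαξ⟩ := hα
  obtain ⟨q2, hq2, hq2D⟩ := hdense α hαA (f α) le_rfl
  obtain ⟨m, hm, r, hr1, hr2⟩ := hM3 q2 hq2D
  have hrN : r ∈ meets (N α) := by
    apply meets_of_mem
    rw [hN]
    exact ⟨hαA, hr1.trans hq2⟩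
  have h9 := hξ ⟨m, hm⟩ r hr2 α hrN
  exact absurd (h9.trans_le (hξ0 ⟨m, hm⟩)) (not_lt.mpr hαξ)


theorem staysRegular_proj {Q Q' : Type} [Preorder Q] [Preorder Q'] {κ : Cardinal.{0}}
    (hκ : κ.IsRegular)
    (hQ : ∀ (N : Type) (D : N → Set Q), #N < κ → (∀ i, Down (D i)) →
      (∀ i q, ∃ q' ≤ q, q' ∈ D i) → ∀ q, ∃ q' ≤ q, ∀ i, q' ∈ D i)
    (π : Q → Q') (hmono : ∀ a b, a ≤ b → π a ≤ π b)
    (hlift : ∀ a q', q' ≤ π a → ∃ b ≤ a, π b ≤ q') (hsurj : ∀ q', ∃ a, π a ≤ q') (q' : Q') :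
    q' ∈ StaysRegular Q' κ := by
  rw [StaysRegular]
  intro ν hν R
  rw [mem_fimp]
  intro q1 _ hq1
  obtain ⟨a, ha⟩ := hsurj q1
  obtain ⟨b, hba, hb⟩ := hQ ν.out
    (fun x => {b : Q | ∃ y, π b ∈ meets (R x y)} ∪ {b : Q | ∀ c ≤ b, ¬ π c ≤ q1})
    (by rw [Cardinal.mk_out]; exact hν)
    (by
      intro x b hb b' hb'
      rcases hb with ⟨y, hy⟩ | hb
      · exact Or.inl ⟨y, down_meets _ _ hy _ (hmono _ _ hb')⟩
      · exact Or.inr fun c hc => hb c (hc.trans hb'))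
    (by
      intro x b0
      by_cases h : ∃ c ≤ b0, π c ≤ q1
      · obtain ⟨c, hc, hcq⟩ := h
        obtain ⟨q2, hq2, y, hy⟩ := IsFun.total (down_IsFun R _ hq1 _ hcq) x
        obtain ⟨d, hd, hdq⟩ := hlift c q2 hq2
        exact ⟨d, hd.trans hc, Or.inl ⟨y, down_meets _ _ hy _ hdq⟩⟩
      · push Not at h
        exact ⟨b0, le_rfl, Or.inr h⟩) a
  have hbq : π b ≤ q1 := (hmono _ _ hba).trans ha
  have hex : ∀ x, ∃ y, π b ∈ meets (R x y) := by
    intro x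
    rcases hb x with h | h
    · exact h
    · exact absurd hbq (h b le_rfl)
  choose y hy using hex
  have hbd : ∃ β : κ.ord.ToType, ∀ x, y x < β := by
    by_contra hcon
    push Not at hcon
    have h1 : IsCofinal (Set.range y) := by
      intro β
      obtain ⟨x, hx⟩ := hcon β
      exact ⟨y x, ⟨x, rfl⟩, hx⟩
    have h2 := Order.cof_le h1
    rw [Ordinal.cof_toType, hκ.cof_ord] at h2
    have h3 : #(Set.range y) ≤ #ν.out := Cardinal.mk_range_le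
    rw [Cardinal.mk_out] at h3
    exact absurd (h2.trans h3) (not_le.2 hν)
  obtain ⟨β, hβ⟩ := hbd
  have hmem : π b ∈ (fall fun x => fall fun y' =>
      fimp (meets (R x y')) (fground (y' < β)) : Set Q') := by
    intro x y'
    rw [mem_fimp]
    intro s hs hsy
    refine ⟨s, le_rfl, ?_⟩
    have h1 : y' = y x := IsFun.unique (down_IsFun R _ hq1 _ (hs.trans hbq)) hsy
      (down_meets _ _ (hy x) _ hs)
    show y' < β
    rw [h1]
    exact hβ x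
  exact ⟨π b, hbq, mem_fex_of_mem β
    (down_fall fun _ => down_fall fun _ => down_fimp _ _) hmem⟩


theorem exists_nice {Q : Type} [Preorder Q] {κ : Cardinal.{0}}
    (hcc : ∀ (ι : Type) (f : ι → Q), κ < #ι → ∃ i j, i ≠ j ∧ ∃ r, r ≤ f i ∧ r ≤ f j) (N : Set Q) :
    ∃ N' : Set Q, #N' ≤ κ ∧ ∀ q, q ∈ meets N' ↔ q ∈ meets N := by
  let D : Set Q := {q | ∃ s ∈ N, q ≤ s}
  let S : Set (Set Q) := {A | A ⊆ D ∧ A.Pairwise (fun a b => ¬ ∃ r, r ≤ a ∧ r ≤ b)}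
  obtain ⟨N1, hN1⟩ : ∃ m, Maximal (· ∈ S) m := by
    refine zorn_subset S ?_
    intro c hc hchain
    refine ⟨⋃₀ c, ⟨?_, ?_⟩, fun s hs => Set.subset_sUnion_of_mem hs⟩
    · exact Set.sUnion_subset fun s hs => (hc hs).1
    · rw [Set.pairwise_sUnion hchain.directedOn]
      exact fun s hs => (hc hs).2
  refine ⟨N1, ?_, ?_⟩
  · by_contra hlt
    push Not at hlt
    obtain ⟨i, j, hij, hr⟩ := hcc N1 (fun x => x.1) hlt
    exact hN1.prop.2 i.2 j.2 (fun h => hij (Subtype.ext h)) hr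
  · intro q
    constructor
    · intro hq q1 hq1
      obtain ⟨r, hr, a, ha, hra⟩ := hq q1 hq1
      obtain ⟨s, hs, has⟩ := hN1.prop.1 ha
      exact ⟨r, hr, s, hs, hra.trans has⟩
    · intro hq q1 hq1
      obtain ⟨r, hr, s, hs, hrs⟩ := hq q1 hq1
      by_contra hcon
      have hinc : ∀ a ∈ N1, ¬ ∃ t, t ≤ r ∧ t ≤ a := by
        rintro a ha ⟨t, ht1, ht2⟩
        exact hcon ⟨t, ht1.trans hr, a, ha, ht2⟩
      have hrN : r ∉ N1 := fun h => hinc r h ⟨r, le_rfl, le_rfl⟩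
      have hmem : insert r N1 ∈ S := by
        refine ⟨?_, ?_⟩
        · intro x hx
          rcases hx with rfl | hx
          · exact ⟨s, hs, hrs⟩
          · exact hN1.prop.1 hx
        · intro x hx y hy hxy
          rcases hx with rfl | hx
          · rcases hy with rfl | hy
            · exact absurd rfl hxy
            · exact hinc y hy
          · rcases hy with rfl | hy
            · rintro ⟨t, ht1, ht2⟩
              exact hinc x hx ⟨t, ht2, ht1⟩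
            · exact hN1.prop.2 hx hy hxy
      exact hrN (hN1.le_of_ge hmem (Set.subset_insert r N1) (Set.mem_insert r N1))


theorem hasFullSize_of_unbounded {Q : Type} [Preorder Q] {κ : Cardinal.{0}} (hκ : ℵ₀ ≤ κ)
    (hreg : ∀ q : Q, q ∈ StaysRegular Q κ) (B : κ.ord.ToType → Set Q) (q : Q)
    (h : ∀ q' ≤ q, ∀ β, ∃ r ≤ q', ∃ γ, β ≤ γ ∧ r ∈ meets (B γ)) : q ∈ HasFullSize B := by
  intro ν hν q1 hq1 hex
  obtain ⟨q2, hq2, R, hR, hcov⟩ := mem_fex.1 hex q1 le_rfl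
  have hν' : ν < κ := by
    rw [Cardinal.mk_ord_toType] at hν
    exact hν
  obtain ⟨r, hr, hr'⟩ := mem_fimp.1 (hreg q2 ν hν' R) q2 le_rfl hR
  obtain ⟨r', hr1, b, hb⟩ := mem_fex.1 hr' r le_rfl
  have hr'q2 : r' ≤ q2 := hr1.trans hr
  obtain ⟨r1, hr1', γ, hγ, hm⟩ := h r' (hr'q2.trans (hq2.trans hq1)) b
  obtain ⟨r2, hr2, hx⟩ := mem_fimp.1 (hcov γ) r1 (hr1'.trans hr'q2) hm
  obtain ⟨r3, hr3, x, hx'⟩ := mem_fex.1 hx r2 le_rfl
  obtain ⟨r4, _, hlt⟩ := mem_fimp.1 (hb x γ) r3 (hr3.trans (hr2.trans hr1')) hx'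
  exact absurd (mem_fground.1 hlt) (not_lt.2 hγ)


end Pool.Agent.KS6_22.CU.F.K
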