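import Mathlib
import Pool.Agent.KS6_22.CU.F.KTree
set_option autoImplicit false

/-!
# The tree forcing
-/

namespace Pool.Agent.KS6_22.CU.F.K

open Cardinal Pool.Agent.KS6_22.CU.F.Forcing



theorem RP.exists_lift {K : Type} [LinearOrder K] (r : RP K) (s' : SP K) (h : s' ≤ r.st) :
    ∃ r' ≤ r, r'.st = s' := by
  classical
  obtain ⟨h1, h2⟩ := h
  refine ⟨⟨s', fun α => if α < r.st.len then r.g α else s'.b s'.len α, ?_, ?_⟩, ⟨⟨h1, h2⟩, ?_⟩, rfl⟩
  · have hfin2 : {α | α < r.st.len ∧ s'.b r.st.len α ≠ s'.b s'.len α}.Finite := by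
      rcases h1.lt_or_eq with hlt | heq
      · exact s'.coh r.st.len s'.len hlt le_rfl
      · rw [heq]
        have : {α | α < s'.len ∧ s'.b s'.len α ≠ s'.b s'.len α} = ∅ := by
          apply Set.eq_empty_of_forall_notMem
          rintro α ⟨_, h3⟩
          exact h3 rfl
        rw [this]
        exact Set.finite_empty
    refine (r.close.union hfin2).subset ?_
    rintro α ⟨h3, h4⟩
    by_cases h5 : α < r.st.len
    · rw [if_pos h5] at h4
      by_cases h6 : r.g α = r.st.b r.st.len α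
      · right
        refine ⟨h5, ?_⟩
        rw [h2 r.st.len le_rfl, ← h6]
        exact h4
      · left
        exact ⟨h5, h6⟩
    · rw [if_neg h5] at h4
      exact absurd rfl h4
  · intro α hα
    rw [if_neg (fun h5 => hα (h5.trans_le h1))]
    exact s'.norm s'.len α (fun h5 => hα h5.1)
  · intro α hα
    show (if α < r.st.len then r.g α else s'.b s'.len α) = r.g α
    rw [if_pos hα]

theorem RP.exists_st {K : Type} [LinearOrder K] (s : SP K) : ∃ r : RP K, r.st = s := by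
  refine ⟨⟨s, s.b s.len, ?_, ?_⟩, rfl⟩
  · have : {α | α < s.len ∧ s.b s.len α ≠ s.b s.len α} = ∅ := by
      apply Set.eq_empty_of_forall_notMem
      rintro α ⟨_, h3⟩
      exact h3 rfl
    rw [this]
    exact Set.finite_empty
  · intro α hα
    exact s.norm s.len α (fun h5 => hα h5.1)

/-- the union of a directed family without a longest member -/
theorem RP.kur_union {K : Type} [LinearOrder K] (D : Set (RP K))
    (hdir : ∀ a ∈ D, ∀ b ∈ D, ∃ c ∈ D, c ≤ a ∧ c ≤ b) (δ : K)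
    (hlt : ∀ a ∈ D, a.st.len < δ) (hR : ∀ β < δ, ∃ r ∈ D, β < r.st.len) :
    ∃ q : RP K, ∀ a ∈ D, q ≤ a := by
  classical
  have hR' : ∀ β : K, ∃ r : RP K, β < δ → r ∈ D ∧ β < r.st.len := by
    intro β
    by_cases h : β < δ
    · obtain ⟨r, h1, h2⟩ := hR β h
      exact ⟨r, fun _ => ⟨h1, h2⟩⟩
    · refine ⟨⟨⟨β, fun _ _ => false, ?_, fun _ _ _ => rfl⟩, fun _ => false, ?_, fun _ _ => rfl⟩,
        fun h' => absurd h' h⟩
      · intro β γ _ _
        simp
      · simp
  choose R hR using hR'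
  -- values agree
  have hb : ∀ r ∈ D, ∀ β ≤ r.st.len, (R β).st.b β = r.st.b β := by
    intro r hr β hβ
    have hβδ : β < δ := hβ.trans_lt (hlt r hr)
    obtain ⟨c, hc, hc1, hc2⟩ := hdir r hr (R β) (hR β hβδ).1
    rw [← hc1.1.2 β hβ, ← hc2.1.2 β (hR β hβδ).2.le]
  have hg : ∀ r ∈ D, ∀ α < r.st.len, (R α).g α = r.g α := by
    intro r hr α hα
    have hαδ : α < δ := hα.trans (hlt r hr)
    obtain ⟨c, hc, hc1, hc2⟩ := hdir r hr (R α) (hR α hαδ).1
    rw [← hc1.2 α hα, ← hc2.2 α (hR α hαδ).2]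
  obtain ⟨B, hB⟩ : ∃ B : K → K → Bool, B = fun β α => if β < δ then (R β).st.b β α else
    if β = δ ∧ α < δ then (R α).g α else false := ⟨_, rfl⟩
  have hB1 : ∀ β, β < δ → ∀ α, B β α = (R β).st.b β α := by
    intro β hβ α
    rw [hB]
    simp only
    rw [if_pos hβ]
  have hB2 : ∀ α, α < δ → B δ α = (R α).g α := by
    intro α hα
    rw [hB]
    simp [hα]
  have hB3 : ∀ β α, ¬ (α < β ∧ β ≤ δ) → B β α = false := by
    intro β α hn
    rw [hB]
    simp only
    split_ifs with h1 h2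
    · exact (R β).st.norm β α (fun h3 => hn ⟨h3.1, h1.le⟩)
    · obtain ⟨h3, h4⟩ := h2
      subst h3
      exact absurd ⟨h4, le_rfl⟩ hn
    · rfl
  refine ⟨⟨⟨δ, B, ?_, hB3⟩, B δ, ?_, ?_⟩, ?_⟩
  · intro β γ hβγ hγ
    have hβδ : β < δ := hβγ.trans_le hγ
    rcases hγ.lt_or_eq with hγδ | hγδ
    · refine ((R γ).st.coh β γ hβγ (hR γ hγδ).2.le).subset ?_
      rintro α ⟨h1, h2⟩
      refine ⟨h1, ?_⟩
      rw [hB1 β hβδ, hB1 γ hγδ, hb (R γ) (hR γ hγδ).1 β (hβγ.trans (hR γ hγδ).2).le] at h2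
      exact h2
    · subst hγδ
      obtain ⟨hrD, hrl⟩ := hR β hβδ
      refine (((R β).st.coh β (R β).st.len hrl le_rfl).union (R β).close).subset ?_
      rintro α ⟨h1, h2⟩
      rw [hB1 β hβδ, hB2 α (h1.trans hβδ), hg (R β) hrD α (h1.trans hrl)] at h2
      by_cases h3 : (R β).st.b β α = (R β).st.b (R β).st.len α
      · right
        refine ⟨h1.trans hrl, ?_⟩
        rw [← h3]
        exact fun h4 => h2 h4.symm
      · left
        exact ⟨h1, h3⟩
  · have : {α | α < δ ∧ B δ α ≠ B δ α} = ∅ := by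
      apply Set.eq_empty_of_forall_notMem
      rintro α ⟨_, h3⟩
      exact h3 rfl
    rw [this]
    exact Set.finite_empty
  · intro α hα
    exact hB3 δ α (fun h => hα h.1)
  · intro a ha
    refine ⟨⟨(hlt a ha).le, fun β hβ => ?_⟩, fun α hα => ?_⟩
    · funext α
      show B β α = a.st.b β α
      rw [hB1 β (hβ.trans_lt (hlt a ha)), hb a ha β hβ]
    · show B δ α = a.g α
      rw [hB2 α (hα.trans (hlt a ha)), hg a ha α hα]

theorem RP.dirClosed {κ : Cardinal.{0}} (hκ : κ.IsRegular) : DirClosed κ (RP κ.ord.ToType) := by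
  intro D hD hne hdir
  by_cases hmax : ∃ r0 ∈ D, ∀ a ∈ D, a.st.len ≤ r0.st.len
  · obtain ⟨r0, hr0, hm⟩ := hmax
    refine ⟨r0, fun a ha => ?_⟩
    obtain ⟨c, hc, hca, hcr⟩ := hdir a ha r0 hr0
    have hlen : c.st.len = r0.st.len := le_antisymm (hm c hc) hcr.1.1
    refine le_trans (b := c) ⟨⟨hlen.le, fun β hβ => ?_⟩, fun α hα => ?_⟩ hca
    · exact (hcr.1.2 β (hlen ▸ hβ)).symm
    · exact (hcr.2 α (hlen ▸ hα)).symm
  · push Not at hmax
    -- an upper bound of the lengths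
    have hbd : ∃ x : κ.ord.ToType, ∀ a ∈ D, a.st.len ≤ x := by
      by_contra hno
      push Not at hno
      have hcof : IsCofinal ((fun a : RP κ.ord.ToType => a.st.len) '' D) := by
        intro x
        obtain ⟨a, ha, hx⟩ := hno x
        exact ⟨a.st.len, ⟨a, ha, rfl⟩, hx.le⟩
      have h1 := Order.cof_le hcof
      rw [Ordinal.cof_toType, hκ.cof_ord] at h1
      exact absurd (h1.trans mk_image_le) (not_le.2 hD)
    obtain ⟨δ, hδ, hmin⟩ := WellFounded.has_min (wellFounded_lt (α := κ.ord.ToType))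
      {x | ∀ a ∈ D, a.st.len ≤ x} hbd
    refine RP.kur_union D hdir δ (fun a ha => ?_) (fun β hβ => ?_)
    · obtain ⟨b, hb, hab⟩ := hmax a ha
      exact hab.trans_le (hδ b hb)
    · by_contra hno
      push Not at hno
      exact hmin β hno hβ

/-- sizes of fibres -/
theorem kur_mk_le {A B : Type} {κ : Cardinal.{0}} (hκ : ℵ₀ ≤ κ) (f : A → B) (hB : #B ≤ κ)
    (hf : ∀ b, #{a // f a = b} ≤ κ) : #A ≤ κ := by
  have e : (Σ b, {a // f a = b}) ≃ A := Equiv.sigmaFiberEquiv f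
  rw [← mk_congr e, mk_sigma]
  calc Cardinal.sum (fun b => #{a // f a = b}) ≤ Cardinal.sum (fun _ : B => κ) :=
        Cardinal.sum_le_sum _ _ hf
    _ = #B * κ := by rw [Cardinal.sum_const']
    _ ≤ κ * κ := mul_le_mul_left hB κ
    _ = κ := mul_eq_self hκ

theorem kur_Iic {κ : Cardinal.{0}} (hκ : κ.IsRegular) (l : κ.ord.ToType) : #(Set.Iic l) < κ := by
  have h1 : #(Set.Iio l) < κ := by
    have := mk_Iio_lt l (by simp)
    simpa using this
  have h2 : Set.Iic l = insert l (Set.Iio l) := by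
    ext x
    simp [le_iff_eq_or_lt]
  rw [h2]
  refine lt_of_le_of_lt mk_insert_le ?_
  exact add_lt_of_lt hκ.aleph0_le h1 (one_lt_aleph0.trans_le hκ.aleph0_le)

theorem SP.mk_le {κ : Cardinal.{0}} (hκ : κ.IsRegular) (hs : ∀ μ < κ, 2 ^ μ < κ) :
    #(SP κ.ord.ToType) ≤ κ := by
  refine kur_mk_le hκ.aleph0_le (fun s : SP κ.ord.ToType => s.len) (by simp) fun l => ?_
  have hinj : Function.Injective (fun (s : {s : SP κ.ord.ToType // s.len = l})
      (p : Set.Iic l × Set.Iic l) => s.1.b p.1.1 p.2.1) := by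
    rintro ⟨s, hs1⟩ ⟨s', hs1'⟩ h
    apply Subtype.ext
    have hb : s.b = s'.b := by
      funext β α
      by_cases h1 : α < β ∧ β ≤ l
      · exact congrFun h (⟨β, h1.2⟩, ⟨α, h1.1.le.trans h1.2⟩)
      · rw [s.norm β α (by rw [hs1]; exact h1), s'.norm β α (by rw [hs1']; exact h1)]
    obtain ⟨len, b, c1, c2⟩ := s
    obtain ⟨len', b', c1', c2'⟩ := s'
    simp only at hs1 hs1' hb
    subst hs1 hs1' hb
    rfl
  refine (mk_le_of_injective hinj).trans ?_
  have h1 : #(Set.Iic l × Set.Iic l → Bool) = 2 ^ (#(Set.Iic l) * #(Set.Iic l)) := by simp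
  rw [h1]
  exact (hs _ (mul_lt_of_lt hκ.aleph0_le (kur_Iic hκ l) (kur_Iic hκ l))).le

theorem RP.mk_le {κ : Cardinal.{0}} (hκ : κ.IsRegular) (hs : ∀ μ < κ, 2 ^ μ < κ) :
    #(RP κ.ord.ToType) ≤ κ := by
  refine kur_mk_le hκ.aleph0_le (fun r : RP κ.ord.ToType => r.st) (SP.mk_le hκ hs) fun s => ?_
  have hinj : Function.Injective (fun (r : {r : RP κ.ord.ToType // r.st = s})
      (p : Set.Iic s.len) => r.1.g p.1) := by
    rintro ⟨r, hr1⟩ ⟨r', hr1'⟩ h
    apply Subtype.ext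
    have hg : r.g = r'.g := by
      funext α
      by_cases h1 : α < s.len
      · exact congrFun h ⟨α, h1.le⟩
      · rw [r.norm α (by rw [hr1]; exact h1), r'.norm α (by rw [hr1']; exact h1)]
    obtain ⟨st, g, c1, c2⟩ := r
    obtain ⟨st', g', c1', c2'⟩ := r'
    simp only at hr1 hr1' hg
    subst hr1 hr1' hg
    rfl
  refine (mk_le_of_injective hinj).trans ?_
  have h1 : #(Set.Iic s.len → Bool) = 2 ^ (#(Set.Iic s.len)) := by simp
  rw [h1]
  exact (hs _ (kur_Iic hκ _)).le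




theorem bdd_seq833 {κ : Cardinal.{0}} (hκ : κ.IsRegular) (h0 : ℵ₀ < κ) (f : ℕ → κ.ord.ToType) :
    ∃ δ, ∀ n, f n ≤ δ := by
  by_contra hcon
  push Not at hcon
  have h1 : (⋃ n : ℕ, Set.Iio (f n)) = Set.univ := by
    ext x
    simp only [Set.mem_iUnion, Set.mem_Iio, Set.mem_univ, iff_true]
    exact hcon x
  have h2 : #(⋃ n : ℕ, Set.Iio (f n)) < κ := by
    rw [card_iUnion_lt_iff_forall_of_isRegular hκ (by simpa using h0)]
    intro n
    have := mk_Iio_lt (f n)
    simpa using this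
  rw [h1, mk_univ] at h2
  simp at h2

/-- extension of a condition by a function close to its last member -/
def ext833 {K : Type} [LinearOrder K] (t : SP K) (δ : K) (g : K → Bool) (hδ : t.len ≤ δ)
    (hg : {α | α < t.len ∧ g α ≠ t.b t.len α}.Finite) : SP K where
  len := δ
  b := fun β α => if β ≤ t.len then t.b β α else if α < β ∧ β ≤ δ then g α else false
  coh := by
    intro β γ hβγ hγ
    by_cases h1 : γ ≤ t.len
    · have h2 : β ≤ t.len := hβγ.le.trans h1
      simp only [if_pos h1, if_pos h2]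
      exact t.coh β γ hβγ h1
    · by_cases h2 : β ≤ t.len
      · simp only [if_neg h1, if_pos h2]
        have hfin : ({α | α < β ∧ t.b β α ≠ t.b t.len α} ∪
            {α | α < t.len ∧ g α ≠ t.b t.len α}).Finite := by
          refine Set.Finite.union ?_ hg
          rcases lt_or_eq_of_le h2 with h3 | h3
          · exact t.coh β t.len h3 le_rfl
          · subst h3
            convert Set.finite_empty using 1
            ext α
            simp
        refine hfin.subset ?_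
        rintro α ⟨hα, hne⟩
        rw [if_pos ⟨hα.trans hβγ, hγ⟩] at hne
        by_cases h4 : t.b β α = t.b t.len α
        · right
          refine ⟨lt_of_lt_of_le hα h2, ?_⟩
          rw [← h4]
          exact fun h => hne h.symm
        · left
          exact ⟨hα, h4⟩
      · simp only [if_neg h1, if_neg h2]
        convert Set.finite_empty using 1
        ext α
        simp only [Set.mem_ofPred_eq, Set.mem_empty_iff_false, iff_false, not_and, not_not]
        intro hα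
        rw [if_pos ⟨hα, hβγ.le.trans hγ⟩, if_pos ⟨hα.trans hβγ, hγ⟩]
  norm := by
    intro β α h
    by_cases h1 : β ≤ t.len
    · simp only [if_pos h1]
      apply t.norm
      rintro ⟨h2, h3⟩
      exact h ⟨h2, h1.trans hδ⟩
    · simp only [if_neg h1, if_neg h]

theorem ext833_le {K : Type} [LinearOrder K] (t : SP K) (δ : K) (g : K → Bool) (hδ : t.len ≤ δ)
    (hg : {α | α < t.len ∧ g α ≠ t.b t.len α}.Finite) : ext833 t δ g hδ hg ≤ t := by
  refine ⟨hδ, fun β hβ => ?_⟩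
  funext α
  show (if β ≤ t.len then t.b β α else if α < β ∧ β ≤ δ then g α else false) = t.b β α
  rw [if_pos hβ]

theorem ext833_top {K : Type} [LinearOrder K] (t : SP K) (δ : K) (g : K → Bool) (hδ : t.len < δ)
    (hg : {α | α < t.len ∧ g α ≠ t.b t.len α}.Finite) (α : K) (hα : α < δ) :
    (ext833 t δ g hδ.le hg).b δ α = g α := by
  show (if δ ≤ t.len then t.b δ α else if α < δ ∧ δ ≤ δ then g α else false) = g α
  rw [if_neg (not_le.2 hδ), if_pos ⟨hα, le_rfl⟩]

/-- unboundedness of a name of full size -/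
theorem unb833 {κ : Cardinal.{0}} {Q : Type} [Preorder Q]
    (H : κ.ord.ToType → Set Q) (s : Q) (hs : s ∈ HasFullSize H) (q1 : Q) (hq : q1 ≤ s)
    (β : κ.ord.ToType) : ∃ r ≤ q1, ∃ γ, β ≤ γ ∧ r ∈ meets (H γ) := by
  classical
  by_contra hcon
  push Not at hcon
  have hν : #(Set.Iio β) < #κ.ord.ToType := mk_Iio_lt β (by simp)
  have h1 := hs #(Set.Iio β) hν q1 hq
  apply h1
  let e : (#(Set.Iio β)).out ≃ Set.Iio β := Cardinal.outMkEquiv
  apply mem_fex_of_mem (fun (i : (#(Set.Iio β)).out) (y : κ.ord.ToType) => {_q : Q | y = (e i : κ.ord.ToType)})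
  · exact down_fand (down_IsFun _) (down_fall fun _ => down_fimp _ _)
  · refine ⟨⟨fun i => ?_, fun i y y' => ?_⟩, fun y => ?_⟩
    · exact mem_fex_of_mem (e i : κ.ord.ToType) (down_meets _) (meets_of_mem rfl)
    · refine mem_fimp.2 fun q hq' hq2 => ?_
      obtain ⟨h2, h3⟩ := hq2
      obtain ⟨r, -, s', hs', -⟩ := h2 q le_rfl
      obtain ⟨r', -, s'', hs'', -⟩ := h3 q le_rfl
      have h4 : y = (e i : κ.ord.ToType) := hs'
      have h5 : y' = (e i : κ.ord.ToType) := hs''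
      exact ⟨q, le_rfl, h4.trans h5.symm⟩
    · refine mem_fimp.2 fun q hq' hq2 => ⟨q, le_rfl, ?_⟩
      have hy : y < β := by
        by_contra hy
        exact hcon q hq' y (not_lt.1 hy) hq2
      refine mem_fex_of_mem (e.symm ⟨y, hy⟩) (down_meets _) (meets_of_mem ?_)
      show y = (e (e.symm ⟨y, hy⟩) : κ.ord.ToType)
      rw [e.apply_symm_apply]

/-- one step of the construction -/
theorem step833 {κ : Cardinal.{0}} (hκ : κ.IsRegular) {P : Type} [Preorder P]
    (H : κ.ord.ToType → Set (P × SP κ.ord.ToType)) (s : P × SP κ.ord.ToType)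
    (hs : s ∈ HasFullSize H) (v : Bool) (q : P × SP κ.ord.ToType) (hq : q ≤ s) :
    ∃ (q' : P × SP κ.ord.ToType) (α : κ.ord.ToType), q' ≤ q ∧ q' ∈ meets (H α) ∧ q.2.len ≤ α ∧
      α < q'.2.len ∧ q'.2.b q'.2.len α = !v ∧ ∀ x < q.2.len, q'.2.b q'.2.len x = q.2.b q.2.len x := by
  classical
  obtain ⟨r, hr, α, hα, hrα⟩ := unb833 H s hs q hq q.2.len
  haveI : NoMaxOrder κ.ord.ToType := Cardinal.noMaxOrder hκ.aleph0_le
  obtain ⟨δ, hδ⟩ := exists_gt (max α r.2.len)
  have hδ1 : α < δ := lt_of_le_of_lt (le_max_left _ _) hδ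
  have hδ2 : r.2.len < δ := lt_of_le_of_lt (le_max_right _ _) hδ
  let g : κ.ord.ToType → Bool := fun x => if x < q.2.len then q.2.b q.2.len x else
    if x = α then !v else r.2.b r.2.len x
  have hrq : r.2 ≤ q.2 := hr.2
  have hg : {x | x < r.2.len ∧ g x ≠ r.2.b r.2.len x}.Finite := by
    have hfin : ({x | x < q.2.len ∧ r.2.b q.2.len x ≠ r.2.b r.2.len x} ∪ {α}).Finite := by
      refine Set.Finite.union ?_ (Set.finite_singleton _)
      rcases lt_or_eq_of_le hrq.1 with h3 | h3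
      · exact r.2.coh q.2.len r.2.len h3 le_rfl
      · rw [h3]
        convert Set.finite_empty using 1
        ext x
        simp
    refine hfin.subset ?_
    rintro x ⟨hx, hne⟩
    by_cases h1 : x < q.2.len
    · left
      refine ⟨h1, ?_⟩
      rw [hrq.2 q.2.len le_rfl]
      simpa only [g, if_pos h1] using hne
    · by_cases h2 : x = α
      · right; exact h2
      · exact absurd (by simp only [g, if_neg h1, if_neg h2]) hne
  have hle : ext833 r.2 δ g hδ2.le hg ≤ r.2 := ext833_le _ _ _ _ _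
  refine ⟨(r.1, ext833 r.2 δ g hδ2.le hg), α, ?_, ?_, hα, hδ1, ?_, ?_⟩
  · exact le_trans (⟨le_rfl, hle⟩ : ((r.1, ext833 r.2 δ g hδ2.le hg) : P × SP κ.ord.ToType) ≤ r) hr
  · exact down_meets _ _ hrα _ (⟨le_rfl, hle⟩ : ((r.1, ext833 r.2 δ g hδ2.le hg) : P × SP κ.ord.ToType) ≤ r)
  · have h1 := ext833_top r.2 δ g hδ2 hg α hδ1
    refine h1.trans ?_
    simp only [g, if_neg (not_lt.2 hα), if_true]
  · intro x hx
    have hxδ : x < δ := hx.trans (lt_of_le_of_lt hrq.1 hδ2)
    have h1 := ext833_top r.2 δ g hδ2 hg x hxδ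
    refine h1.trans ?_
    simp only [g, if_pos hx]

/-- the limit condition -/
theorem limit833 {K : Type} [LinearOrder K] (t : ℕ → SP K) (ht : ∀ n, t (n + 1) ≤ t n)
    (hlt : ∀ n, (t n).len < (t (n + 1)).len) (δ : K) (hδ : ∀ n, (t n).len ≤ δ)
    (hδ' : ∀ β < δ, ∃ n, β < (t n).len)
    (hag : ∀ n, ∀ x < (t n).len, (t (n + 1)).b (t (n + 1)).len x = (t n).b (t n).len x) :
    ∃ T : SP K, T.len = δ ∧ (∀ n, T ≤ t n) ∧ ∀ n, ∀ x < (t n).len, T.b δ x = (t n).b (t n).len x := by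
  classical
  have hlen : StrictMono (fun n => (t n).len) := strictMono_nat_of_lt_succ hlt
  have htle : ∀ n m, n ≤ m → t m ≤ t n := by
    intro n m h
    induction h with
    | refl => exact le_rfl
    | step h ih => exact (ht _).trans ih
  have hag' : ∀ n m, n ≤ m → ∀ x < (t n).len, (t m).b (t m).len x = (t n).b (t n).len x := by
    intro n m h
    induction h with
    | refl => intro x _; rfl
    | @step m h ih =>
      intro x hx
      rw [hag m x (lt_of_lt_of_le hx (hlen.monotone h)), ih x hx]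
  have hδlt : ∀ n, (t n).len < δ := fun n => lt_of_lt_of_le (hlt n) (hδ (n + 1))
  -- comparing
  have hcmp : ∀ n m, ∀ x, x < (t n).len → x < (t m).len →
      (t n).b (t n).len x = (t m).b (t m).len x := by
    intro n m x hn hm
    rcases le_total n m with h | h
    · exact (hag' n m h x hn).symm
    · exact hag' m n h x hm
  have hcmpb : ∀ n m, ∀ β, β ≤ (t n).len → β ≤ (t m).len → (t n).b β = (t m).b β := by
    intro n m β hn hm
    rcases le_total n m with h | h
    · exact ((htle n m h).2 β hn).symm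
    · exact (htle m n h).2 β hm
  let B : K → K → Bool := fun β α =>
    if h : ∃ n, β ≤ (t n).len then (t h.choose).b β α else
      if h' : β = δ ∧ ∃ n, α < (t n).len then (t h'.2.choose).b (t h'.2.choose).len α else false
  have hB1 : ∀ n β, β ≤ (t n).len → B β = (t n).b β := by
    intro n β h
    funext α
    have h1 : ∃ n, β ≤ (t n).len := ⟨n, h⟩
    show (if h : ∃ n, β ≤ (t n).len then (t h.choose).b β α else _) = _
    rw [dif_pos h1]
    exact congrFun (hcmpb _ _ β h1.choose_spec h) α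
  have hnδ : ¬ ∃ n, δ ≤ (t n).len := by
    rintro ⟨n, hn⟩
    exact absurd (hδlt n) (not_lt.2 hn)
  have hB2 : ∀ n x, x < (t n).len → B δ x = (t n).b (t n).len x := by
    intro n x h
    have h2 : δ = δ ∧ ∃ n, x < (t n).len := ⟨rfl, n, h⟩
    show (if h : ∃ n, δ ≤ (t n).len then (t h.choose).b δ x else
      if h' : δ = δ ∧ ∃ n, x < (t n).len then (t h'.2.choose).b (t h'.2.choose).len x else false) = _
    rw [dif_neg hnδ, dif_pos h2]
    exact hcmp _ _ x h2.2.choose_spec h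
  refine ⟨⟨δ, B, ?_, ?_⟩, rfl, ?_, ?_⟩
  · intro β γ hβγ hγ
    rcases lt_or_eq_of_le hγ with h | h
    · obtain ⟨n, hn⟩ := hδ' γ h
      rw [hB1 n γ hn.le, hB1 n β (hβγ.le.trans hn.le)]
      exact (t n).coh β γ hβγ hn.le
    · subst h
      obtain ⟨n, hn⟩ := hδ' β hβγ
      refine ((t n).coh β (t n).len hn le_rfl).subset ?_
      rintro α ⟨hα, hne⟩
      refine ⟨hα, ?_⟩
      rw [hB1 n β hn.le, hB2 n α (hα.trans hn)] at hne
      exact hne
  · intro β α h
    show (if h : ∃ n, β ≤ (t n).len then (t h.choose).b β α else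
      if h' : β = δ ∧ ∃ n, α < (t n).len then (t h'.2.choose).b (t h'.2.choose).len α else false)
        = false
    by_cases h1 : ∃ n, β ≤ (t n).len
    · rw [dif_pos h1]
      apply (t _).norm
      rintro ⟨h2, h3⟩
      exact h ⟨h2, h3.trans (hδ _)⟩
    · rw [dif_neg h1, dif_neg]
      rintro ⟨h2, n, hn⟩
      subst h2
      exact h ⟨hn.trans (hδlt n), le_rfl⟩
  · intro n
    refine ⟨hδ n, fun β hβ => ?_⟩
    exact hB1 n β hβ
  · exact hB2

theorem main833 {κ : Cardinal.{0}} (hκ : κ.IsRegular) (h0 : ℵ₀ < κ) {P : Type}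
    [Preorder P] (hP : DirClosed κ P) (H : κ.ord.ToType → Set (P × SP κ.ord.ToType))
    (s : P × SP κ.ord.ToType) (hs : s ∈ HasFullSize H) (v : Bool) :
    ∃ (r : P × SP κ.ord.ToType) (α γ : κ.ord.ToType), r ≤ s ∧ α < γ ∧ γ ≤ r.2.len ∧
      r ∈ meets (H α) ∧ r ∈ meets (H γ) ∧ r.2.b γ α = !v := by
  classical
  haveI : NoMaxOrder κ.ord.ToType := Cardinal.noMaxOrder hκ.aleph0_le
  haveI : Nonempty κ.ord.ToType := ⟨s.2.len⟩
  choose! F A hF1 hF2 hF3 hF4 hF5 hF6 using step833 hκ H s hs v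
  let q : ℕ → P × SP κ.ord.ToType := fun n => Nat.rec s (fun _ x => F x) n
  have hq0 : q 0 = s := rfl
  have hqs : ∀ n, q (n + 1) = F (q n) := fun n => rfl
  have hqle : ∀ n, q n ≤ s := by
    intro n
    induction n with
    | zero => exact le_rfl
    | succ n ih => rw [hqs]; exact (hF1 _ ih).trans ih
  have hstep : ∀ n, q (n + 1) ≤ q n := fun n => by rw [hqs]; exact hF1 _ (hqle n)
  have hmono : ∀ n m, n ≤ m → q m ≤ q n := by
    intro n m h
    induction h with
    | refl => exact le_rfl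
    | step h ih => exact (hstep _).trans ih
  have hmeet : ∀ n, q (n + 1) ∈ meets (H (A (q n))) := fun n => by rw [hqs]; exact hF2 _ (hqle n)
  have hA1 : ∀ n, (q n).2.len ≤ A (q n) := fun n => hF3 _ (hqle n)
  have hA2 : ∀ n, A (q n) < (q (n + 1)).2.len := fun n => by rw [hqs]; exact hF4 _ (hqle n)
  have hA3 : ∀ n, (q (n + 1)).2.b (q (n + 1)).2.len (A (q n)) = !v := fun n => by
    rw [hqs]; exact hF5 _ (hqle n)
  have hag : ∀ n, ∀ x < (q n).2.len, (q (n + 1)).2.b (q (n + 1)).2.len x = (q n).2.b (q n).2.len x :=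
    fun n x hx => by rw [hqs]; exact hF6 _ (hqle n) x hx
  have hlt : ∀ n, (q n).2.len < (q (n + 1)).2.len := fun n => lt_of_le_of_lt (hA1 n) (hA2 n)
  -- the bound
  obtain ⟨δ0, hδ0⟩ := bdd_seq833 hκ h0 (fun n => (q n).2.len)
  obtain ⟨δ, hδ, hδmin⟩ : ∃ δ : κ.ord.ToType, (∀ n, (q n).2.len ≤ δ) ∧
      ∀ β < δ, ∃ n, β < (q n).2.len := by
    have hne : {x : κ.ord.ToType | ∀ n, (q n).2.len ≤ x}.Nonempty := ⟨δ0, hδ0⟩
    refine ⟨WellFounded.min (wellFounded_lt) _ hne, WellFounded.min_mem _ _ hne, ?_⟩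
    intro β hβ
    by_contra hcon
    push Not at hcon
    have hmem : β ∈ {x : κ.ord.ToType | ∀ n, (q n).2.len ≤ x} := hcon
    exact absurd hβ (WellFounded.not_lt_min wellFounded_lt _ hmem)
  obtain ⟨T, hTlen, hTle, hTtop⟩ := limit833 (fun n => (q n).2) (fun n => (hstep n).2) hlt δ hδ
    hδmin hag
  -- the lower bound in P
  obtain ⟨p, hp⟩ := hP (Set.range fun n => (q n).1)
    (lt_of_le_of_lt (by
      have := Cardinal.mk_range_le (f := fun n : ℕ => (q n).1)
      simpa using this) h0) (Set.range_nonempty _) (by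
      rintro _ ⟨n, rfl⟩ _ ⟨m, rfl⟩
      exact ⟨_, ⟨max n m, rfl⟩, (hmono n _ (le_max_left _ _)).1, (hmono m _ (le_max_right _ _)).1⟩)
  have hpT : ∀ n, ((p, T) : P × SP κ.ord.ToType) ≤ q n := fun n =>
    ⟨hp _ ⟨n, rfl⟩, hTle n⟩
  obtain ⟨δ1, hδ1⟩ := exists_gt δ
  obtain ⟨r, hr, γ, hγ, hrγ⟩ := unb833 H s hs (p, T) ((hpT 0).trans (hqle 0)) δ1
  have hδγ : δ < γ := lt_of_lt_of_le hδ1 hγ
  -- extend so that γ is below the length
  obtain ⟨r', hr'r, hr'γ⟩ : ∃ r' ≤ r, γ ≤ r'.2.len := by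
    by_cases h : γ ≤ r.2.len
    · exact ⟨r, le_rfl, h⟩
    · push Not at h
      have hg : {α | α < r.2.len ∧ (r.2.b r.2.len) α ≠ r.2.b r.2.len α}.Finite := by
        convert Set.finite_empty using 1
        ext x
        simp
      exact ⟨(r.1, ext833 r.2 γ (r.2.b r.2.len) h.le hg),
        ⟨le_rfl, ext833_le r.2 γ (r.2.b r.2.len) h.le hg⟩, le_rfl⟩
  have hr' : r' ≤ (p, T) := hr'r.trans hr
  have hTb : r'.2.b δ = T.b δ := hr'.2.2 δ hTlen.ge
  have hfin := r'.2.coh δ γ hδγ hr'γ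
  -- infinitely many points
  have hAmono : StrictMono (fun n => A (q n)) :=
    strictMono_nat_of_lt_succ fun n => lt_of_lt_of_le (hA2 n) (hA1 (n + 1))
  have hAδ : ∀ n, A (q n) < δ := fun n => lt_of_lt_of_le (hA2 n) (hδ (n + 1))
  obtain ⟨n, hn⟩ : ∃ n, A (q n) ∉ {α | α < δ ∧ r'.2.b δ α ≠ r'.2.b γ α} := by
    by_contra hcon
    push Not at hcon
    exact Set.infinite_of_injective_forall_mem hAmono.injective hcon hfin
  have hval : r'.2.b γ (A (q n)) = !v := by
    have h1 : r'.2.b δ (A (q n)) = r'.2.b γ (A (q n)) := by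
      by_contra h2
      exact hn ⟨hAδ n, h2⟩
    rw [← h1, hTb, hTtop (n + 1) (A (q n)) (hA2 n)]
    exact hA3 n
  refine ⟨r', A (q n), γ, (hr'.trans (hpT 0)).trans (hqle 0), (hAδ n).trans hδγ, hr'γ, ?_, ?_, hval⟩
  · exact down_meets _ _ (hmeet n) _ (hr'.trans (hpT (n + 1)))
  · exact down_meets _ _ hrγ _ hr'r

theorem not_pairsPartition {κ : Cardinal.{0}} (hκ : κ.IsRegular) (h0 : ℵ₀ < κ) {P : Type}
    [Preorder P] (hP : DirClosed κ P) (x : P × SP κ.ord.ToType) :
    x ∈ fnot (PairsPartition (P × SP κ.ord.ToType) κ.ord.ToType) := by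
  intro y0 _ hy0
  let c : κ.ord.ToType → κ.ord.ToType → Set (P × SP κ.ord.ToType) :=
    fun a y => {q | y ≤ q.2.len ∧ q.2.b y a = true}
  obtain ⟨r, hr, H, hH⟩ := mem_fex.1 (hy0 c) y0 le_rfl
  obtain ⟨hH1, hH2⟩ := hH
  have hdown : Down (HasFullSize H) := down_fall fun _ => down_fall fun _ => down_fnot _
  have hcase : ∃ s ≤ r, (s ∈ (fall fun x => fall fun y => fall fun _ : x < y =>
          fimp (fand (meets (H x)) (meets (H y))) (meets (c x y)))) ∨
        (s ∈ (fall fun x => fall fun y => fall fun _ : x < y =>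
          fimp (fand (meets (H x)) (meets (H y))) (fnot (meets (c x y))))) := by
    by_contra hcon
    push Not at hcon
    exact hH2 r le_rfl ⟨fun q hq => (hcon q hq).1, fun q hq => (hcon q hq).2⟩
  obtain ⟨s, hsr, hs⟩ := hcase
  have hsH : s ∈ HasFullSize H := hdown _ hH1 _ hsr
  rcases hs with hs | hs
  · obtain ⟨r', α, γ, hr's, hαγ, hγ, hm1, hm2, hv⟩ := main833 hκ h0 hP H s hsH true
    obtain ⟨r1, hr1, hr1m⟩ := mem_fimp.1 (hs α γ hαγ) r' hr's ⟨hm1, hm2⟩
    obtain ⟨r2, hr2, s', hs', hr2s⟩ := hr1m r1 le_rfl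
    have h1 : r2.2.b γ = s'.2.b γ := hr2s.2.2 γ hs'.1
    have h2 : r2.2.b γ = r'.2.b γ := (hr2.trans hr1).2.2 γ hγ
    have h3 : s'.2.b γ α = true := hs'.2
    rw [← h1, h2, hv] at h3
    exact absurd h3 (by simp)
  · obtain ⟨r', α, γ, hr's, hαγ, hγ, hm1, hm2, hv⟩ := main833 hκ h0 hP H s hsH false
    obtain ⟨r1, hr1, hr1m⟩ := mem_fimp.1 (hs α γ hαγ) r' hr's ⟨hm1, hm2⟩
    apply hr1m r1 le_rfl
    apply meets_of_mem
    refine ⟨hγ.trans hr1.2.1, ?_⟩
    rw [hr1.2.2 γ hγ, hv]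
    rfl


end Pool.Agent.KS6_22.CU.F.K
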