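import Mathlib

set_option autoImplicit false

/-!
# A weak form of the Delta-system lemma
-/

universe u

namespace Pool.Agent.KS6_22.CU.F.KDelta

open Cardinal Set

/-- unions of few small sets are small -/
theorem small_iUnion {ι α : Type u} {c : Cardinal.{u}} (hc : ℵ₀ ≤ c) (hι : #ι ≤ c)
    (f : ι → Set α) (hf : ∀ i, #(f i) ≤ c) : #(⋃ i, f i) ≤ c := by
  refine (Cardinal.mk_iUnion_le f).trans ?_
  calc #ι * (⨆ i, #(f i)) ≤ c * c := mul_le_mul' hι (ciSup_le' hf)
    _ = c := Cardinal.mul_eq_self hc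

theorem small_biUnion {ι α : Type u} {c : Cardinal.{u}} (hc : ℵ₀ ≤ c) (s : Set ι) (hs : #s ≤ c)
    (f : ι → Set α) (hf : ∀ i ∈ s, #(f i) ≤ c) : #(⋃ i ∈ s, f i) ≤ c := by
  rw [biUnion_eq_iUnion]
  exact small_iUnion hc hs _ (fun i => hf i.1 i.2)

theorem small_union {α : Type u} {c : Cardinal.{u}} (hc : ℵ₀ ≤ c) {s t : Set α}
    (hs : #s ≤ c) (ht : #t ≤ c) : #(s ∪ t : Set α) ≤ c := by
  refine (Cardinal.mk_union_le s t).trans ?_
  calc #s + #t ≤ c + c := add_le_add hs ht
    _ = c := Cardinal.add_eq_self hc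

theorem small_mono {α : Type u} {c : Cardinal.{u}} {s t : Set α} (h : s ⊆ t) (ht : #t ≤ c) :
    #s ≤ c := (Cardinal.mk_le_mk_of_subset h).trans ht

theorem small_subsingleton {α : Type u} {c : Cardinal.{u}} (hc : ℵ₀ ≤ c) {s : Set α}
    (hs : s.Subsingleton) : #s ≤ c := by
  have : s.Finite := hs.finite
  exact (this.lt_aleph0).le.trans hc

theorem small_singleton {α : Type u} {c : Cardinal.{u}} (hc : ℵ₀ ≤ c) (a : α) :
    #({a} : Set α) ≤ c := small_subsingleton hc subsingleton_singleton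

theorem small_finite {α : Type u} {c : Cardinal.{u}} (hc : ℵ₀ ≤ c) {s : Set α}
    (hs : s.Finite) : #s ≤ c := (hs.lt_aleph0).le.trans hc

theorem not_small_diff {α : Type u} {c : Cardinal.{u}} (hc : ℵ₀ ≤ c) {s t : Set α}
    (hs : ¬ #s ≤ c) (ht : #t ≤ c) : ¬ #(s \ t : Set α) ≤ c := by
  intro h
  apply hs
  refine small_mono (t := (s \ t) ∪ t) ?_ (small_union hc h ht)
  intro x hx
  by_cases hxt : x ∈ t
  · exact Or.inr hxt
  · exact Or.inl ⟨hx, hxt⟩

theorem exists_of_not_small {α : Type u} {c : Cardinal.{u}} {s : Set α}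
    (hs : ¬ #s ≤ c) : s.Nonempty := by
  by_contra h
  rw [Set.not_nonempty_iff_eq_empty] at h
  apply hs
  rw [h]
  simp

/-- a set of size larger than `c` is not covered by few small sets. -/
theorem exists_not_mem_biUnion {ι α : Type u} {c : Cardinal.{u}} (hc : ℵ₀ ≤ c) (s : Set ι)
    (hs : #s ≤ c) (f : ι → Set α) (E : Set α) (hE : ¬ #E ≤ c)
    (hf : ∀ i ∈ s, #(E ∩ f i : Set α) ≤ c) : ∃ x ∈ E, ∀ i ∈ s, x ∉ f i := by
  by_contra h
  push Not at h
  apply hE
  refine small_mono (t := ⋃ i ∈ s, E ∩ f i) ?_ (small_biUnion hc s hs _ hf)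
  intro x hx
  obtain ⟨i, hi, hxi⟩ := h x hx
  simp only [mem_iUnion]
  exact ⟨i, hi, hx, hxi⟩

/-- Recursive choice along a well-founded relation. -/
theorem rec_choice {ι β : Type*} [Nonempty β] {r : ι → ι → Prop} (wf : WellFounded r)
    (P : ι → (ι → β) → β → Prop)
    (hloc : ∀ i f g b, (∀ j, r j i → f j = g j) → P i f b → P i g b)
    (hstep : ∀ i f, (∀ j, r j i → P j f (f j)) → ∃ b, P i f b) :
    ∃ f : ι → β, ∀ i, P i f (f i) := by
  classical
  let d : β := Classical.arbitrary β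
  let F : ι → β := wf.fix (fun i prev =>
    if h : ∃ b, P i (fun j => if hj : r j i then prev j hj else d) b then h.choose else d)
  have hF : ∀ i, F i =
      if h : ∃ b, P i (fun j => if r j i then F j else d) b then h.choose else d := by
    intro i
    have := wf.fix_eq (C := fun _ => β) (fun i prev =>
      if h : ∃ b, P i (fun j => if hj : r j i then prev j hj else d) b then h.choose else d) i
    simp only [dite_eq_ite] at this
    exact this
  refine ⟨F, ?_⟩
  intro i
  induction i using wf.induction with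
  | _ i ih =>
    have h1 : ∃ b, P i F b := hstep i F ih
    have h2 : ∃ b, P i (fun j => if r j i then F j else d) b := by
      obtain ⟨b, hb⟩ := h1
      exact ⟨b, hloc i F _ b (fun j hj => by simp [hj]) hb⟩
    rw [hF i, dif_pos h2]
    have h3 := h2.choose_spec
    exact hloc i _ F _ (fun j hj => by simp [hj]) h3

/-- A weak form of the Delta-system lemma. -/
theorem weak_delta {E K : Type u} {c : Cardinal.{u}} (hc : ℵ₀ ≤ c) (hE : ¬ #E ≤ c) (Z : E → Set K)
    (hZ : ∀ b, #(Z b) < c) :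
    ∃ (T : Set E) (R : Set K), (¬ #T ≤ c) ∧ #R ≤ c ∧
      ∀ b ∈ T, ∀ b' ∈ T, b ≠ b' → Z b ∩ Z b' ⊆ R := by
  by_contra hcon
  push Not at hcon
  -- maximal families
  have hmax : ∀ R : Set K, ∃ T : Set E, T.Pairwise (fun b b' => Z b ∩ Z b' ⊆ R) ∧
      ∀ b, b ∉ T → ∃ b' ∈ T, ¬ (Z b ∩ Z b' ⊆ R) := by
    intro R
    obtain ⟨T, hT⟩ := zorn_subset {T : Set E | T.Pairwise (fun b b' => Z b ∩ Z b' ⊆ R)} (by
      intro c hc hchain
      refine ⟨⋃₀ c, ?_, fun s hs => subset_sUnion_of_mem hs⟩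
      exact (pairwise_sUnion hchain.directedOn).2 (fun s hs => hc hs))
    refine ⟨T, hT.prop, ?_⟩
    intro b hb
    by_contra h
    push Not at h
    have h2 : (insert b T).Pairwise (fun b b' => Z b ∩ Z b' ⊆ R) := by
      rw [pairwise_insert]
      refine ⟨hT.prop, ?_⟩
      intro b' hb' _
      refine ⟨h b' hb', ?_⟩
      rw [inter_comm]
      exact h b' hb'
    exact hb (hT.le_of_ge h2 (subset_insert b T) (mem_insert b T))
  choose M hM1 hM2 using hmax
  have hMsmall : ∀ R : Set K, #R ≤ c → #(M R) ≤ c := by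
    intro R hR
    by_contra h
    obtain ⟨b, hb, b', hb', hne, hsub⟩ := hcon (M R) R (not_le.1 h) hR
    exact hsub (hM1 R hb hb' hne)
  let F : Set K → Set K := fun R => R ∪ ⋃ b ∈ M R, Z b
  have hF : ∀ R : Set K, #R ≤ c → #(F R) ≤ c := by
    intro R hR
    exact small_union hc hR
      (small_biUnion hc _ (hMsmall R hR) _ (fun b _ => (hZ b).le))
  -- the recursion
  let W := (c).ord.ToType
  have hWcard : #W = c := Cardinal.mk_ord_toType _
  obtain ⟨R, hR⟩ := rec_choice (ι := W) (β := Set K) (r := (· < ·)) wellFounded_lt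
    (fun ξ f b => b = ⋃ η ∈ Iio ξ, F (f η))
    (by
      intro i f g b hfg h
      rw [h]
      refine iUnion₂_congr ?_
      intro j hj
      rw [hfg j hj])
    (by
      intro i f _
      exact ⟨_, rfl⟩)
  have hRsmall : ∀ ξ, #(R ξ) ≤ c := by
    intro ξ
    induction ξ using WellFoundedLT.induction with
    | _ ξ ih =>
      rw [hR ξ]
      refine small_biUnion hc _ ?_ _ ?_
      · exact (Cardinal.mk_set_le _).trans hWcard.le
      · intro η hη
        exact hF _ (ih η hη)
  -- pick a point outside all the maximal families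
  have hall : #(⋃ ξ, M (R ξ) : Set E) ≤ c :=
    small_iUnion hc hWcard.le _ (fun ξ => hMsmall _ (hRsmall ξ))
  have hEuniv : ¬ #(univ : Set E) ≤ c := by simpa using hE
  obtain ⟨b, _, hb⟩ := exists_of_not_small (not_small_diff hc hEuniv hall)
  have hb' : ∀ ξ, b ∉ M (R ξ) := by
    intro ξ h
    exact hb (mem_iUnion.2 ⟨ξ, h⟩)
  have hz : ∀ ξ : W, ∃ z, z ∈ Z b ∧ z ∉ R ξ ∧ z ∈ F (R ξ) := by
    intro ξ
    obtain ⟨b', hb'M, hnot⟩ := hM2 (R ξ) b (hb' ξ)
    rw [not_subset] at hnot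
    obtain ⟨z, hz, hzR⟩ := hnot
    refine ⟨z, hz.1, hzR, Or.inr ?_⟩
    simp only [mem_iUnion]
    exact ⟨b', hb'M, hz.2⟩
  choose z hz1 hz2 hz3 using hz
  have hinj : Function.Injective z := by
    have key : ∀ ξ η : W, ξ < η → z ξ ≠ z η := by
      intro ξ η hlt heq
      apply hz2 η
      rw [hR η]
      simp only [mem_iUnion]
      exact ⟨ξ, hlt, heq ▸ hz3 ξ⟩
    intro ξ η heq
    rcases lt_trichotomy ξ η with h | h | h
    · exact absurd heq (key ξ η h)
    · exact h
    · exact absurd heq.symm (key η ξ h)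
  have : #W ≤ #(Z b) := by
    refine Cardinal.mk_le_of_injective (f := fun ξ => (⟨z ξ, hz1 ξ⟩ : Z b)) ?_
    intro ξ η h
    exact hinj (Subtype.ext_iff.1 h)
  rw [hWcard] at this
  exact absurd (hZ b) (not_lt.2 this)


end Pool.Agent.KS6_22.CU.F.KDelta
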