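import Mathlib
import Pool.Agent.KS6_22.CU.F.KIter

set_option autoImplicit false

/-!
# Density arguments
-/

namespace Pool.Agent.KS6_22.CU.F.K

open Cardinal Pool.Agent.KS6_22.CU.F.Forcing

theorem meets_of_dense' {P : Type} [Preorder P] {N : Set P} {p : P}
    (h : ∀ q ≤ p, ∃ r ≤ q, r ∈ meets N) : p ∈ meets N := by
  intro q hq
  obtain ⟨r, hr, h'⟩ := h q hq
  obtain ⟨r', hr', s, hs, hle⟩ := h' r le_rfl
  exact ⟨r', hr'.trans hr, s, hs, hle⟩

theorem fnot_of_dense {P : Type} [Preorder P] {φ : Set P} (hφ : Down φ) {p : P}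
    (h : ∀ q ≤ p, ∃ r ≤ q, r ∈ fnot φ) : p ∈ fnot φ := by
  intro q hq hqφ
  obtain ⟨r, hr, h'⟩ := h q hq
  exact h' r le_rfl (hφ q hqφ r hr)

theorem exists_decide' {P : Type} [Preorder P] (N : Set P) (p : P) :
    ∃ q ≤ p, q ∈ meets N ∨ q ∈ fnot (meets N) := by
  by_cases h : p ∈ fnot (meets N)
  · exact ⟨p, le_rfl, Or.inr h⟩
  · simp only [fnot, Set.mem_ofPred_eq, not_forall, not_not] at h
    obtain ⟨q, hq, h'⟩ := h
    exact ⟨q, hq, Or.inl h'⟩

theorem meets_fnot {P : Type} [Preorder P] {φ : Set P} (hφ : Down φ) {p : P}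
    (h : p ∈ meets (fnot φ)) : p ∈ fnot φ :=
  fnot_of_dense hφ fun q hq => by
    obtain ⟨r, hr, s, hs, hle⟩ := h q hq
    exact ⟨r, hr, down_fnot _ s hs r hle⟩

section

variable {κ : Cardinal.{0}} {L R S K I : Type} [LinearOrder L] [WellFoundedLT L] [Preorder R]
  [Preorder S] (st : R → S) (e : I → K → Set (Cond κ L (K × R) I × S))
  {W : Wt κ L (K × R) I} (hW : ∀ α, W α = stage st e α (rel W α))

/-- the part of `p` below `α`, with `r` -/
def pt (W : Wt κ L (K × R) I) (α : L) (p : Cond κ L (K × R) I) (r : R) : PR (rel W α) × R :=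
  (PR.mk (rel W α) (p.res α) (Cond.res_res le_rfl p), r)

include hW in
theorem pt_le {α : L} {p q : Cond κ L (K × R) I} {r r' : R} (h : Le W p q) (hr : r ≤ r') :
    pt W α p r ≤ pt W α q r' :=
  ⟨(le_PR st e hW _ _).2 (h.res α), hr⟩

theorem pt_eq {α : L} {p : Cond κ L (K × R) I} {x : PR (rel W α) × R} (h : p.res α = x.1.val) :
    pt W α p x.2 = x := by
  obtain ⟨x, r⟩ := x
  refine Prod.ext ?_ rfl
  exact Subtype.ext h

/-- the measure one sets -/
def UU (W : Wt κ L (K × R) I) (α : L) (η : I) : Set (PR (rel W α) × R) :=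
  theU κ K (PR (rel W α) × R) (nm st e (rel W α) η)

include hW in
theorem mem_W {α : L} {η : I} {p : Cond κ L (K × R) I} {β : K} {r : R} (hp : p.res α ∈ W α η (β, r)) :
    (pt W α p r ∈ meets (UU st e W α η) ∧ pt W α p r ∈ meets (nm st e (rel W α) η β)) ∨
      (pt W α p r ∈ fnot (meets (UU st e W α η)) ∧
        pt W α p r ∈ fnot (meets (nm st e (rel W α) η β))) := by
  rw [hW α] at hp
  obtain ⟨x, hx, h⟩ := hp
  have : (x, r) = pt W α p r := by
    have := pt_eq (W := W) (α := α) (p := p) (x := (x, r)) hx.symm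
    exact this.symm
  simp only [this] at h
  exact h

include hW in
theorem mem_W_of {α : L} {η : I} {x : PR (rel W α) × R} {β : K}
    (h : (x ∈ meets (UU st e W α η) ∧ x ∈ meets (nm st e (rel W α) η β)) ∨
      (x ∈ fnot (meets (UU st e W α η)) ∧ x ∈ fnot (meets (nm st e (rel W α) η β)))) :
    x.1.val ∈ W α η (β, x.2) := by
  rw [hW α]
  exact ⟨x.1, rfl, h⟩

variable (hκ : κ.IsRegular) (hR : DirClosed κ R)
  (hU : ∀ (α : L) (q : PR (rel W α) × R), q ∈ IsMeasure κ (theU κ K (PR (rel W α) × R)))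

include hW hκ hR hU in
/-- it is dense to add generic elements -/
theorem exists_add (p : Cond κ L (K × R) I) (r : R) (α : L) (B : Set K) (hB : #B < κ) :
    ∃ p', Le W p' p ∧ ∃ r' ≤ r, ∃ β, β ∉ B ∧ (α, (β, r')) ∈ p'.s := by
  classical
  have hF : #{η : I | (α, η) ∈ p.E} < κ := by
    refine lt_of_le_of_lt ?_ p.hE
    refine mk_le_of_injective (f := fun η => ⟨(α, η.1), η.2⟩) ?_
    intro η η' h
    have := congrArg (fun x : p.E => x.1.2) h
    exact Subtype.ext this
  obtain ⟨x1, hx1, hD⟩ := exists_forall_mem (Q := PR (rel W α) × R) hκ.aleph0_le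
    (dirClosed_prod (dirClosed_PR st e hW hκ α) hR) hF
    (fun η => meets (UU st e W α η.1) ∪ fnot (meets (UU st e W α η.1)))
    (fun η x hx y hy => by
      rcases hx with hx | hx
      · exact Or.inl (down_meets _ _ hx _ hy)
      · exact Or.inr (down_fnot _ _ hx _ hy))
    (fun η x => exists_decide' _ x) (pt W α p r)
  let X : {η : I | (α, η) ∈ p.E} → K → Set (PR (rel W α) × R) := fun η =>
    if x1 ∈ meets (UU st e W α η.1) then nm st e (rel W α) η.1
    else nCompl (nm st e (rel W α) η.1)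
  have hX : ∀ η, x1 ∈ meets (theU κ K (PR (rel W α) × R) (X η)) := by
    intro η
    by_cases h : x1 ∈ meets (UU st e W α η.1)
    · have : X η = nm st e (rel W α) η.1 := by simp only [X, if_pos h]
      rw [this]
      exact h
    · have : X η = nCompl (nm st e (rel W α) η.1) := by simp only [X, if_neg h]
      rw [this]
      have h2 : x1 ∈ fnot (meets (UU st e W α η.1)) := (hD η).resolve_left h
      have h3 := ((hU α x1).2.1 (nm st e (rel W α) η.1)).2
      exact meets_of_dense' fun q hq => mem_fimp.1 h3 q hq (down_fnot _ _ h2 q hq)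
  obtain ⟨x2, hx2, β, hβ, h⟩ := exists_point hκ.aleph0_le (hU α) hF X x1 hX B hB
  have hle : Le W x2.1.val (p.res α) := (le_PR st e hW _ _).1 (hx2.trans hx1).1
  refine ⟨amal hκ.aleph0_le x2.1.val p α {(β, x2.2)} (Set.finite_singleton _),
    amal_le _ _ x2.1.res_val hle ?_, x2.2, (hx2.trans hx1).2, β, hβ, Or.inr ⟨rfl, rfl⟩⟩
  intro z hz η hη
  rw [Set.mem_singleton_iff] at hz
  subst hz
  refine mem_W_of st e hW ?_
  have hη' := h ⟨η, hη⟩
  by_cases h1 : x1 ∈ meets (UU st e W α η)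
  · have : X ⟨η, hη⟩ = nm st e (rel W α) η := by simp only [X, if_pos h1]
    rw [this] at hη'
    exact Or.inl ⟨down_meets _ _ h1 _ hx2, hη'⟩
  · have : X ⟨η, hη⟩ = nCompl (nm st e (rel W α) η) := by simp only [X, if_neg h1]
    rw [this] at hη'
    have h2 : x1 ∈ fnot (meets (UU st e W α η)) := (hD ⟨η, hη⟩).resolve_left h1
    exact Or.inr ⟨down_fnot _ _ h2 _ hx2, meets_fnot (down_meets _) hη'⟩

include hW in
/-- it is dense to decide the side of a name, and to promise it -/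
theorem exists_promise (hκ : ℵ₀ ≤ κ) (p : Cond κ L (K × R) I) (r : R) (α : L) (η : I) :
    ∃ p', Le W p' p ∧ ∃ r' ≤ r, (α, η) ∈ p'.E ∧
      (pt W α p' r' ∈ meets (UU st e W α η) ∨ pt W α p' r' ∈ fnot (meets (UU st e W α η))) := by
  obtain ⟨x, hx, h⟩ := exists_decide' (UU st e W α η) (pt W α p r)
  have hle : Le W x.1.val (p.res α) := (le_PR st e hW _ _).1 hx.1
  refine ⟨addE hκ (amal hκ x.1.val p α ∅ Set.finite_empty) α η,
    Le.trans' st e hW (addE_le _ _ _) (amal_le _ _ x.1.res_val hle fun z hz => absurd hz (by simp)),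
    x.2, hx.2, Set.mem_insert _ _, ?_⟩
  rw [pt_eq (x := x) (by rw [addE_res, amal_res _ _ x.1.res_val le_rfl, x.1.res_val])]
  exact h

include hW in
/-- new generic elements respect the promises -/
theorem use_promise {p0 p : Cond κ L (K × R) I} {t r : R} {α : L} {η : I} {β : K}
    (hle : Le W p p0) (hr : r ≤ t) (hη : (α, η) ∈ p0.E) (h1 : (α, (β, r)) ∈ p.s)
    (h2 : (α, (β, r)) ∉ p0.s) :
    (pt W α p0 t ∈ meets (UU st e W α η) → pt W α p r ∈ meets (nm st e (rel W α) η β)) ∧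
    (pt W α p0 t ∈ fnot (meets (UU st e W α η)) →
      pt W α p r ∈ fnot (meets (nm st e (rel W α) η β))) := by
  have h3 := mem_W st e hW (hle.2.2 α (β, r) η h1 h2 hη)
  have h4 : pt W α p r ≤ pt W α p0 t := pt_le st e hW hle hr
  constructor
  · intro h5
    rcases h3 with h3 | h3
    · exact h3.2
    · exact absurd (down_meets _ _ h5 _ h4) (h3.1 _ le_rfl)
  · intro h5
    rcases h3 with h3 | h3
    · exact absurd h3.1 (h5 _ h4)
    · exact h3.2

variable (hst : ∀ a b : R, a ≤ b → st a ≤ st b)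
  (hlift : ∀ (r : R) (s : S), s ≤ st r → ∃ r' ≤ r, st r' = s)

include hW hst hlift in
/-- from the product with `R` to the product with `S` -/
theorem transfer (hκ : ℵ₀ ≤ κ) {p : Cond κ L (K × R) I} {r : R} {b : S} {α : L} {η : I} {β : K}
    (hb : b ≤ st r) (h : pt W α p r ∈ meets (nm st e (rel W α) η β)) :
    (PW.mk W p, b) ∈ meets (P := PW W × S) (e η β) := by
  rintro ⟨p', b'⟩ ⟨hp', hb'⟩
  have hp1 : Le W p' p := (le_PW st e hW _ _).1 hp'
  obtain ⟨r', hr', rfl⟩ := hlift r b' (hb'.trans hb)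
  obtain ⟨x, hx, y, ⟨a, c, hac, hya, hyc⟩, hxy⟩ := h (pt W α p' r') (pt_le st e hW hp1 hr')
  have hle : Le W x.1.val (Cond.res α p') := (le_PR st e hW _ _).1 hx.1
  refine ⟨(PW.mk W (amal hκ x.1.val p' α ∅ Set.finite_empty), st x.2), ⟨?_, hst _ _ hx.2⟩,
    (a.val, c), hac, ?_, ?_⟩
  · exact (le_PW st e hW _ _).2
      (amal_le hκ Set.finite_empty x.1.res_val hle fun z hz => absurd hz (by simp))
  · refine (le_PW st e hW _ _).2 ?_
    exact Le.trans' st e hW (amal_le_left hκ Set.finite_empty x.1.res_val)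
      ((le_PR st e hW _ _).1 (hxy.1.trans hya))
  · exact (hst _ _ hxy.2).trans hyc

include hW hst hlift in
theorem transfer' (hκ : ℵ₀ ≤ κ) {p : Cond κ L (K × R) I} {r : R} {b : S} {α : L} {η : I} {β : K}
    (he : ∀ x ∈ e η β, Cond.res α x.1 = x.1)
    (hb : b ≤ st r) (h : pt W α p r ∈ fnot (meets (nm st e (rel W α) η β))) :
    (PW.mk W p, b) ∈ fnot (meets (P := PW W × S) (e η β)) := by
  rintro ⟨p', b'⟩ ⟨hp', hb'⟩ hmem
  have hp1 : Le W p' p := (le_PW st e hW _ _).1 hp'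
  obtain ⟨⟨p'', b''⟩, ⟨hp'', hb''⟩, ⟨a, c⟩, hac, ⟨hpa, hbc⟩⟩ := hmem (p', b') le_rfl
  have hp2 : Le W p'' p' := (le_PW st e hW _ _).1 hp''
  have hpa' : Le W p'' a := (le_PW st e hW _ _).1 hpa
  obtain ⟨r', hr', rfl⟩ := hlift r b'' (hb''.trans (hb'.trans hb))
  refine h (pt W α p'' r') (pt_le st e hW (Le.trans' st e hW hp2 hp1) hr') ?_
  refine meets_of_mem ⟨PR.mk (rel W α) a (he _ hac), c, hac, ?_, hbc⟩
  refine (le_PR st e hW _ _).2 ?_
  have := hpa'.res α
  rw [he _ hac] at this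
  exact this

end

end Pool.Agent.KS6_22.CU.F.K
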