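import Mathlib
import Pool.Agent.KS6_22.CU.F.KPow

set_option autoImplicit false

/-!
# Cardinal arithmetic and preservation of cardinals
-/

namespace Pool.Agent.KS6_22.CU.F.K

open Cardinal Pool.Agent.KS6_22.CU.F.Forcing

theorem pow_succ_le {κ : Cardinal.{0}} (hκ : ℵ₀ ≤ κ) :
    (Order.succ ((2 : Cardinal.{0}) ^ κ)) ^ κ ≤ Order.succ ((2 : Cardinal.{0}) ^ κ) := by
  set M : Cardinal.{0} := Order.succ (2 ^ κ) with hM
  have hinf : ℵ₀ ≤ 2 ^ κ := hκ.trans (cantor κ).le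
  have hreg : M.IsRegular := isRegular_succ hinf
  have hMinf : ℵ₀ ≤ M := hinf.trans (Order.le_succ _)
  have hκM : κ < M := (cantor κ).trans (Order.lt_succ _)
  have h1 : #(M.ord.ToType) = M := by simp
  have h2 : #(κ.out) = κ := mk_out κ
  have h3 : M ^ κ = #(κ.out → M.ord.ToType) := by
    rw [← power_def, h1, h2]
  have hb : ∀ f : κ.out → M.ord.ToType, ∃ b, ∀ i, f i < b := by
    intro f
    by_contra hcon
    push Not at hcon
    have hcof : IsCofinal (Set.range f) := fun b => by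
      obtain ⟨i, hi⟩ := hcon b
      exact ⟨f i, ⟨i, rfl⟩, hi⟩
    have h4 := Order.cof_le hcof
    rw [Ordinal.cof_toType, hreg.cof_ord] at h4
    have h5 : #(Set.range f) ≤ κ := mk_range_le.trans_eq h2
    exact absurd (h4.trans h5) (not_le.2 hκM)
  choose b hb using hb
  let F : (κ.out → M.ord.ToType) → Σ c : M.ord.ToType, (κ.out → Set.Iio c) :=
    fun f => ⟨b f, fun i => ⟨f i, hb f i⟩⟩
  let G : (Σ c : M.ord.ToType, (κ.out → Set.Iio c)) → (κ.out → M.ord.ToType) :=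
    fun p i => (p.2 i).1
  have hGF : Function.LeftInverse G F := fun f => rfl
  have h5 : #(κ.out → M.ord.ToType) ≤ #(Σ c : M.ord.ToType, (κ.out → Set.Iio c)) :=
    mk_le_of_injective hGF.injective
  rw [mk_sigma] at h5
  have h6 : ∀ c : M.ord.ToType, #(κ.out → Set.Iio c) ≤ M := by
    intro c
    rw [← power_def, h2]
    have h7 : #(Set.Iio c) ≤ 2 ^ κ := Order.lt_succ_iff.1 (mk_Iio_toType_ord_lt c)
    calc #(Set.Iio c) ^ κ ≤ (2 ^ κ) ^ κ := power_le_power_right h7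
      _ = 2 ^ κ := by rw [← power_mul, mul_eq_self hκ]
      _ ≤ M := Order.le_succ _
  rw [h3]
  refine h5.trans ((sum_le_sum _ _ h6).trans ?_)
  rw [sum_const', h1, mul_eq_self hMinf]


theorem lex_bound {κ : Cardinal.{0}} (hκ : ℵ₀ ≤ κ) (M : Type) [LinearOrder M] [Nonempty M] :
    ∃ Γ : (Order.succ κ).ord.ToType → (Order.succ κ).ord.ToType ×ₗ M,
      ∀ T : Set ((Order.succ κ).ord.ToType ×ₗ M), #T ≤ κ → ∃ ξ, ∀ α ∈ T, α < Γ ξ := by
  obtain ⟨m0⟩ := ‹Nonempty M›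
  refine ⟨fun ξ => toLex (ξ, m0), ?_⟩
  intro T hT
  have hnot : ¬ IsCofinal ((fun α : (Order.succ κ).ord.ToType ×ₗ M => (ofLex α).1) '' T) := by
    intro hc
    have h1 := Order.cof_le hc
    rw [Ordinal.cof_toType, (isRegular_succ hκ).cof_ord] at h1
    have h2 : #((fun α : (Order.succ κ).ord.ToType ×ₗ M => (ofLex α).1) '' T) ≤ κ :=
      le_trans mk_image_le hT
    exact absurd (le_trans h1 h2) (not_le.2 (Order.lt_succ κ))
  rw [not_isCofinal_iff] at hnot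
  obtain ⟨ξ, hξ⟩ := hnot
  refine ⟨ξ, ?_⟩
  intro α hα
  have h3 : (ofLex α).1 < ξ := hξ _ (Set.mem_image_of_mem _ hα)
  exact Prod.Lex.lt_iff.2 (Or.inl h3)

theorem lex_mk {κ μ : Cardinal.{0}} (hκ : ℵ₀ ≤ κ) (hμ : κ < μ) :
    #((Order.succ κ).ord.ToType ×ₗ μ.ord.ToType) = μ := by
  have h1 : #((Order.succ κ).ord.ToType ×ₗ μ.ord.ToType) =
      #((Order.succ κ).ord.ToType × μ.ord.ToType) :=
    mk_congr ofLex
  rw [h1, mk_prod, lift_id, lift_id, mk_ord_toType, mk_ord_toType]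
  apply mul_eq_right (le_trans hκ hμ.le) (Order.succ_le_of_lt hμ)
  exact (lt_of_le_of_lt (by simp) (Order.lt_succ κ)).ne'

theorem exists_fiber_full {μ : Cardinal.{0}} (hμ : μ.IsRegular) {ι Y : Type} (hι : μ ≤ #ι)
    (hY : #Y < μ) (f : ι → Y) : ∃ y, μ ≤ #{i | f i = y} := by
  obtain ⟨y, hy⟩ := infinite_pigeonhole_card f μ hι hμ.1 (by rw [hμ.cof_ord]; exact hY)
  exact ⟨y, hy⟩


theorem exists_enum_le {κ M : Cardinal.{0}} (hκ : ℵ₀ ≤ κ) (hM : M ^ κ ≤ M) (hκM : κ ≤ M)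
    (L Z S K I : Type) (hL : #L ≤ M) (hZ : #Z ≤ κ) (hS : #S ≤ κ) (hK : #K ≤ κ) (hI : #I = M) :
    ∃ e : I → K → Set (Cond κ L Z I × S),
      ∀ c : K → Set (Cond κ L Z I × S), (∀ β, #(c β) ≤ κ) → ∃ η, e η = c := by
  classical
  have hM0 : ℵ₀ ≤ M := hκ.trans hκM
  have hMne : M ≠ 0 := (lt_of_lt_of_le aleph0_pos hM0).ne'
  have hMM : M * M = M := mul_eq_self hM0
  have hbd : ∀ α : Type, #α ≤ M → #{t : Set α // #t ≤ κ} ≤ M := by
    intro α hα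
    calc #{t : Set α // #t ≤ κ} ≤ max #α ℵ₀ ^ κ := mk_bounded_set_le α κ
      _ ≤ M ^ κ := power_le_power_right (max_le hα hM0)
      _ ≤ M := hM
  have hLZ : #(L × Z) ≤ M := by
    rw [mk_prod, lift_id, lift_id]
    calc #L * #Z ≤ M * M := mul_le_mul' hL (hZ.trans hκM)
      _ = M := hMM
  have hLI : #(L × I) ≤ M := by
    rw [mk_prod, lift_id, lift_id, hI]
    calc #L * M ≤ M * M := mul_le_mul' hL le_rfl
      _ = M := hMM
  have hC : #(Cond κ L Z I) ≤ M := by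
    have hinj : Function.Injective (fun c : Cond κ L Z I =>
        ((⟨c.s, c.hs.le⟩, ⟨c.E, c.hE.le⟩) :
          {t : Set (L × Z) // #t ≤ κ} × {t : Set (L × I) // #t ≤ κ})) := by
      intro a b hab
      simp only [Prod.mk.injEq, Subtype.mk.injEq] at hab
      exact Cond.ext hab.1 hab.2
    calc #(Cond κ L Z I) ≤ #({t : Set (L × Z) // #t ≤ κ} × {t : Set (L × I) // #t ≤ κ}) :=
          mk_le_of_injective hinj
      _ = #{t : Set (L × Z) // #t ≤ κ} * #{t : Set (L × I) // #t ≤ κ} := by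
          rw [mk_prod, lift_id, lift_id]
      _ ≤ M * M := mul_le_mul' (hbd _ hLZ) (hbd _ hLI)
      _ = M := hMM
  have hCS : #(Cond κ L Z I × S) ≤ M := by
    rw [mk_prod, lift_id, lift_id]
    calc #(Cond κ L Z I) * #S ≤ M * M := mul_le_mul' hC (hS.trans hκM)
      _ = M := hMM
  let T : Set (K → Set (Cond κ L Z I × S)) := {c | ∀ β, #(c β) ≤ κ}
  have hT : #T ≤ #I := by
    rw [hI]
    have hinj : Function.Injective (fun c : T =>
        ((fun β => ⟨c.1 β, c.2 β⟩) : K → {t : Set (Cond κ L Z I × S) // #t ≤ κ})) := by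
      intro a b hab
      apply Subtype.ext
      funext β
      have := congrFun hab β
      simpa using this
    calc #T ≤ #(K → {t : Set (Cond κ L Z I × S) // #t ≤ κ}) := mk_le_of_injective hinj
      _ = #{t : Set (Cond κ L Z I × S) // #t ≤ κ} ^ #K := by simp
      _ ≤ M ^ #K := power_le_power_right (hbd _ hCS)
      _ ≤ M ^ κ := power_le_power_left hMne hK
      _ ≤ M := hM
  haveI : Nonempty T := ⟨⟨fun _ => ∅, fun β => by simp⟩⟩
  obtain ⟨f⟩ := hT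
  refine ⟨fun η => (Function.invFun f η : T), fun c hc => ⟨f ⟨c, hc⟩, ?_⟩⟩
  have h := Function.leftInverse_invFun f.injective (⟨c, hc⟩ : T)
  exact congrArg Subtype.val h


theorem staysRegular_of_cc {Q : Type} [Preorder Q] {κ μ : Cardinal.{0}} (hκ : ℵ₀ ≤ κ)
    (hμ : μ.IsRegular) (hκμ : κ < μ)
    (hcc : ∀ (ι : Type) (f : ι → Q), κ < #ι → ∃ i j, i ≠ j ∧ ∃ r, r ≤ f i ∧ r ≤ f j) (q : Q) :
    q ∈ StaysRegular Q μ := by
  classical
  intro ν hν R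
  rw [mem_fimp]
  intro q' _ hR
  have hV : ∀ x : ν.out, #{y : μ.ord.ToType | ∃ q1 ≤ q', q1 ∈ meets (R x y)} ≤ κ := by
    intro x
    by_contra hcon
    push Not at hcon
    choose f hf1 hf2 using fun y : {y : μ.ord.ToType |
      ∃ q1 ≤ q', q1 ∈ meets (R x y)} => y.2
    obtain ⟨i, j, hij, r, hri, hrj⟩ := hcc _ f hcon
    apply hij
    have hr' : r ∈ IsFun R := down_IsFun R _ hR _ (hri.trans (hf1 i))
    exact Subtype.ext (IsFun.unique hr' (down_meets _ _ (hf2 i) _ hri)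
      (down_meets _ _ (hf2 j) _ hrj))
  have hS : #(⋃ x : ν.out, {y : μ.ord.ToType | ∃ q1 ≤ q', q1 ∈ meets (R x y)} :
      Set _) < μ := by
    refine (Cardinal.mk_iUnion_le _).trans_lt ?_
    refine (mul_le_mul' (le_refl _) (ciSup_le' hV)).trans_lt ?_
    rw [Cardinal.mk_out]
    exact Cardinal.mul_lt_of_lt (hκ.trans hκμ.le) hν hκμ
  have hcof : Order.cof μ.ord.ToType = μ := by
    rw [Ordinal.cof_toType]
    exact hμ.cof_ord
  have hnc : ¬ IsCofinal (⋃ x : ν.out, {y : μ.ord.ToType |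
      ∃ q1 ≤ q', q1 ∈ meets (R x y)}) := by
    intro h
    have h1 := Order.cof_le h
    rw [hcof] at h1
    exact absurd (h1.trans_lt hS) (lt_irrefl _)
  unfold IsCofinal at hnc
  push Not at hnc
  obtain ⟨b, hb⟩ := hnc
  refine ⟨q', le_rfl, mem_fex_of_mem b ?_ ?_⟩
  · exact down_fall fun x => down_fall fun y => down_fimp _ _
  · intro x y
    rw [mem_fimp]
    intro q1 hq1 hm
    exact ⟨q1, le_rfl, hb y (Set.mem_iUnion.2 ⟨x, q1, hq1, hm⟩)⟩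


theorem emf_bdd {κ μ : Cardinal.{0}} (hμ : μ.IsRegular) (hκμ : κ < μ) (ι : Type) (hι : #ι ≤ κ)
    (ξ : ι → μ.ord.ToType) : ∃ ξ0, ∀ i, ξ i ≤ ξ0 := by
  by_contra hcon
  push Not at hcon
  have hcov : (⋃ i, Set.Iio (ξ i)) = Set.univ := by
    ext y
    simp only [Set.mem_iUnion, Set.mem_Iio, Set.mem_univ, iff_true]
    exact hcon y
  have h1 : #(⋃ i, Set.Iio (ξ i)) < μ := by
    rw [Cardinal.card_iUnion_lt_iff_forall_of_isRegular hμ (hι.trans_lt hκμ)]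
    intro i
    exact Cardinal.mk_Iio_toType_ord_lt (ξ i)
  rw [hcov, Cardinal.mk_univ, Cardinal.mk_ord_toType] at h1
  exact lt_irrefl _ h1


theorem exists_many_full {Q : Type} [Preorder Q] {κ μ : Cardinal.{0}} (hκ : ℵ₀ ≤ κ)
    (hμ : μ.IsRegular) (hκμ : κ < μ)
    (hcc : ∀ (ι : Type) (f : ι → Q), κ < #ι → ∃ i j, i ≠ j ∧ ∃ r, r ≤ f i ∧ r ≤ f j)
    (hreg : ∀ q : Q, q ∈ StaysRegular Q μ)
    (A : Set μ.ord.ToType) (hA : μ ≤ #A) (f : μ.ord.ToType → Q) :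
    ∃ α ∈ A, ∃ q ≤ f α, q ∈ HasFullSize fun β => {p : Q | β ∈ A ∧ p ≤ f β} := by
  by_contra hcon
  push Not at hcon
  obtain ⟨N, hN⟩ : ∃ N : μ.ord.ToType → Set Q,
      N = fun β => {p : Q | β ∈ A ∧ p ≤ f β} := ⟨_, rfl⟩
  rw [← hN] at hcon
  obtain ⟨D, hD⟩ : ∃ D : Set Q, D = {q | ∃ ξ : μ.ord.ToType, ∀ s ≤ q, ∀ β,
      s ∈ meets (N β) → β < ξ} := ⟨_, rfl⟩
  have hdense : ∀ α ∈ A, ∀ q ≤ f α, ∃ q2 ≤ q, q2 ∈ D := by
    intro α hα q hq
    have h1 := hcon α hα q hq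
    have h2 : ∃ ν : Cardinal.{0}, ∃ _ : ν < #(μ.ord.ToType), ∃ q1 ≤ q,
        q1 ∈ fex fun R : ν.out → μ.ord.ToType → Set Q =>
          fand (IsFun R) (fall fun y => fimp (meets (N y)) (fex fun x => meets (R x y))) := by
      by_contra hno
      apply h1
      intro ν hν q1 hq1 hmem
      exact hno ⟨ν, hν, q1, hq1, hmem⟩
    obtain ⟨ν, hν, q1, hq1, hmem⟩ := h2
    obtain ⟨q2, hq2, R, hR1, hR2⟩ := mem_fex.1 hmem q1 le_rfl
    rw [Cardinal.mk_ord_toType] at hν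
    have h3 := hreg q2 ν hν R
    obtain ⟨q3, hq3, h4⟩ := mem_fimp.1 h3 q2 le_rfl hR1
    obtain ⟨q4, hq4, b, hb⟩ := mem_fex.1 h4 q3 le_rfl
    refine ⟨q4, hq4.trans (hq3.trans (hq2.trans hq1)), ?_⟩
    rw [hD]
    refine ⟨b, ?_⟩
    intro s hs β hβ
    obtain ⟨s', hs', h5⟩ := mem_fimp.1 (hR2 β) s (hs.trans (hq4.trans hq3)) hβ
    obtain ⟨s'', hs'', x, h6⟩ := mem_fex.1 h5 s' le_rfl
    obtain ⟨t, _, h7⟩ := mem_fimp.1 (hb x β) s'' (hs''.trans (hs'.trans hs)) h6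
    exact h7
  obtain ⟨M, hM1, hM2, hM3⟩ := h400_antichain D
  have hMκ : #M ≤ κ := by
    by_contra hlt
    push Not at hlt
    obtain ⟨i, j, hij, hcompat⟩ := hcc M (fun m => (m : Q)) hlt
    exact hM2 i.2 j.2 (fun h => hij (Subtype.ext h)) hcompat
  have hξ : ∀ m : M, ∃ ξ : μ.ord.ToType, ∀ s ≤ (m : Q), ∀ β,
      s ∈ meets (N β) → β < ξ := by
    intro m
    have h1 := hM1 m.2
    rw [hD] at h1
    exact h1
  choose ξ hξ using hξ
  obtain ⟨ξ0, hξ0⟩ := emf_bdd hμ hκμ M hMκ ξ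
  have hα : ∃ α ∈ A, ξ0 ≤ α := by
    by_contra hno
    push Not at hno
    have h1 : #A ≤ #(Set.Iio ξ0) := Cardinal.mk_le_mk_of_subset (fun α hα => hno α hα)
    have h2 : #A < μ := h1.trans_lt (Cardinal.mk_Iio_toType_ord_lt ξ0)
    exact absurd hA (not_le.mpr h2)
  obtain ⟨α, hαA, hαξ⟩ := hα
  obtain ⟨q2, hq2, hq2D⟩ := hdense α hαA (f α) le_rfl
  obtain ⟨m, hm, r, hr1, hr2⟩ := hM3 q2 hq2D
  have hrN : r ∈ meets (N α) := by
    apply meets_of_mem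
    rw [hN]
    exact ⟨hαA, hr1.trans hq2⟩
  have h9 := hξ ⟨m, hm⟩ r hr2 α hrN
  exact absurd (h9.trans_le (hξ0 ⟨m, hm⟩)) (not_lt.mpr hαξ)


theorem distr_proj {Q Q' : Type} [Preorder Q] [Preorder Q'] {κ : Cardinal.{0}}
    (hQ : ∀ (N : Type) (D : N → Set Q), #N < κ → (∀ i, Down (D i)) →
      (∀ i q, ∃ q' ≤ q, q' ∈ D i) → ∀ q, ∃ q' ≤ q, ∀ i, q' ∈ D i)
    (π : Q → Q') (hmono : ∀ a b, a ≤ b → π a ≤ π b)
    (hlift : ∀ a q', q' ≤ π a → ∃ b ≤ a, π b ≤ q') (hsurj : ∀ q', ∃ a, π a ≤ q')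
    (N : Type) (D : N → Set Q') (hN : #N < κ) (hD : ∀ i, Down (D i))
    (hdense : ∀ i q, ∃ q' ≤ q, q' ∈ D i) (q : Q') : ∃ q' ≤ q, ∀ i, q' ∈ D i := by
  obtain ⟨a, ha⟩ := hsurj q
  obtain ⟨c, hca, hc⟩ := hQ N (fun i => {b | π b ∈ D i}) hN
    (fun i b hb c hcb => hD i _ hb _ (hmono _ _ hcb))
    (fun i b => by
      obtain ⟨q1, hq1, hq1D⟩ := hdense i (π b)
      obtain ⟨c, hc, hcq⟩ := hlift b q1 hq1
      exact ⟨c, hc, hD i _ hq1D _ hcq⟩) a
  exact ⟨π c, (hmono _ _ hca).trans ha, hc⟩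

theorem staysStrongLimit_of_distr {Q : Type} [Preorder Q] {κ : Cardinal.{0}}
    (h2 : ∀ μ < κ, 2 ^ μ < κ)
    (hQ : ∀ (N : Type) (D : N → Set Q), #N < κ → (∀ i, Down (D i)) →
      (∀ i q, ∃ q' ≤ q, q' ∈ D i) → ∀ q, ∃ q' ≤ q, ∀ i, q' ∈ D i) (q : Q) :
    q ∈ StaysStrongLimit Q κ := by
  classical
  intro ν hν
  refine mem_fex.2 fun q1 _ => ⟨q1, le_rfl, ⟨2 ^ ν, h2 ν hν⟩, ?_⟩
  refine mem_fex.2 fun q2 _ => ⟨q2, le_rfl, ?_⟩
  have hcard : #((2 ^ ν : Cardinal.{0}).out) = #(ν.out → Bool) := by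
    rw [Cardinal.mk_out]
    simp
  obtain ⟨e⟩ := Cardinal.eq.1 hcard
  refine ⟨fun i a => {_r | e i a = true}, ?_⟩
  intro X
  refine mem_fex.2 fun q3 _ => ?_
  obtain ⟨q4, h43, h4⟩ := hQ ν.out (fun a => {r | r ∈ meets (X a) ∨ r ∈ fnot (meets (X a))})
    (by rw [Cardinal.mk_out]; exact hν)
    (fun a r hr s hs => by
      rcases hr with h | h
      · exact Or.inl (down_meets _ _ h _ hs)
      · exact Or.inr (down_fnot _ _ h _ hs))
    (fun a r => by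
      by_cases h : ∃ q' ≤ r, q' ∈ meets (X a)
      · obtain ⟨q', h1, h2⟩ := h
        exact ⟨q', h1, Or.inl h2⟩
      · push Not at h
        exact ⟨r, le_rfl, Or.inr h⟩) q3
  refine ⟨q4, h43, e.symm (fun a => decide (q4 ∈ meets (X a))), ?_⟩
  intro a
  refine ⟨mem_fimp.2 fun r hr hra => ?_, mem_fimp.2 fun r hr hra => ?_⟩
  · obtain ⟨s, hs, s', hs', _⟩ := hra r le_rfl
    have h5 : e (e.symm (fun a => decide (q4 ∈ meets (X a)))) a = true := hs'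
    rw [Equiv.apply_symm_apply] at h5
    exact ⟨r, le_rfl, down_meets _ _ (of_decide_eq_true h5) _ hr⟩
  · refine ⟨r, le_rfl, meets_of_mem ?_⟩
    change e (e.symm (fun a => decide (q4 ∈ meets (X a)))) a = true
    rw [Equiv.apply_symm_apply]
    rcases h4 a with h | h
    · exact decide_eq_true h
    · exact absurd hra (h r hr)


end Pool.Agent.KS6_22.CU.F.K
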