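import Mathlib
import Pool.Agent.KS6_22.CU.F.KPowB

set_option autoImplicit false

/-!
# Adding many Cohen reals
-/

namespace Pool.Agent.KS6_22.CU.F.K

open Cardinal Pool.Agent.KS6_22.CU.F.Forcing
open KDelta (weak_delta)

/-- A condition of the forcing notion adding a Cohen real for every element of `L`: a finite
partial function from `L × ℕ` to `Bool`, given by its graph. -/
structure CC (L : Type) where
  /-- the graph -/
  g : Set (L × (ℕ × Bool))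
  fin : g.Finite
  fn : ∀ a n b b', (a, (n, b)) ∈ g → (a, (n, b')) ∈ g → b = b'

instance (L : Type) : Preorder (CC L) where
  le p q := q.g ⊆ p.g
  le_refl _ := subset_rfl
  le_trans _ _ _ h h' := h'.trans h

theorem CC.le_iff {L : Type} {p q : CC L} : p ≤ q ↔ q.g ⊆ p.g := Iff.rfl

theorem cardinalsPreserved_of_ccc {Q : Type} [Preorder Q]
    (hcc : ∀ (ι : Type) (f : ι → Q), ℵ₀ < #ι → ∃ i j, i ≠ j ∧ ∃ r, r ≤ f i ∧ r ≤ f j) (q : Q) :
    q ∈ CardinalsPreserved.{0, 0} Q := by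
  intro μ ν hμν hν q1 hq1 hex
  obtain ⟨q2, hq2, R, hfun, honto⟩ := mem_fex.1 hex q1 le_rfl
  let V : μ.out → Set ν.out := fun x => {y | ∃ r ≤ q2, r ∈ meets (R x y)}
  have hV : ∀ x, #(V x) ≤ ℵ₀ := by
    intro x
    by_contra hc
    rw [not_le] at hc
    have hch : ∀ y : V x, ∃ r ≤ q2, r ∈ meets (R x y.1) := fun y => y.2
    choose f hf1 hf2 using hch
    obtain ⟨i, j, hij, r, hri, hrj⟩ := hcc (V x) f hc
    apply hij
    apply Subtype.ext
    have hr : r ∈ IsFun R := down_IsFun R _ hfun r (hri.trans (hf1 i))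
    exact IsFun.unique hr (down_meets _ _ (hf2 i) r hri) (down_meets _ _ (hf2 j) r hrj)
  have hU : (⋃ x, V x) = Set.univ := by
    rw [Set.eq_univ_iff_forall]
    intro y
    obtain ⟨r, hr, x, h⟩ := mem_fex.1 (honto y) q2 le_rfl
    exact Set.mem_iUnion.2 ⟨x, r, hr, h⟩
  have h1 : ν ≤ μ * ℵ₀ := by
    calc ν = #(ν.out) := (Cardinal.mk_out ν).symm
      _ = #(Set.univ : Set ν.out) := Cardinal.mk_univ.symm
      _ = #(⋃ x, V x) := by rw [hU]
      _ ≤ Cardinal.sum fun x => #(V x) := Cardinal.mk_iUnion_le_sum_mk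
      _ ≤ Cardinal.sum fun _ : μ.out => ℵ₀ := Cardinal.sum_le_sum _ _ hV
      _ = μ * ℵ₀ := by rw [Cardinal.sum_const', Cardinal.mk_out]
  exact absurd h1 (not_le.2 (Cardinal.mul_lt_of_lt hν.le hμν hν))


set_option quotPrecheck false in

theorem exists_singular (κ : Cardinal.{0}) :
    ∃ (L : Type) (ρ : L → (ℵ₁ : Cardinal.{0}).ord.ToType), κ < #L ∧ ℵ₀ ≤ #L ∧
      (∀ μ < #L, 2 ^ μ < #L) ∧ ∀ i, #{x | ρ x ≤ i} < #L := by
  classical
  let o : Ordinal.{0} := κ.ord + (ℵ₁ : Cardinal.{0}).ord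
  let T : (ℵ₁ : Cardinal.{0}).ord.ToType → Cardinal.{0} := fun i => beth (κ.ord + Ordinal.typein (α := (ℵ₁ : Cardinal.{0}).ord.ToType) (· < ·) i)
  have hW : #(ℵ₁ : Cardinal.{0}).ord.ToType = ℵ₁ := by simp
  have hTlt : ∀ i, T i < beth o := fun i => beth_lt_beth.2 (by
    exact (add_lt_add_iff_left _).2 (Ordinal.typein_lt_self i))
  have hTmono : ∀ i j : (ℵ₁ : Cardinal.{0}).ord.ToType, i ≤ j → T i ≤ T j := by
    intro i j h
    refine beth_le_beth.2 (add_le_add le_rfl ?_)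
    rw [Ordinal.typein_le_typein]
    exact not_lt.2 h
  have hlim1 : Order.IsSuccLimit (ℵ₁ : Cardinal.{0}).ord := isSuccLimit_ord (aleph0_le_aleph 1)
  have hlim : Order.IsSuccLimit o := Ordinal.isSuccLimit_add κ.ord hlim1
  have h1 : (ℵ₁ : Cardinal.{0}) < beth o := by
    refine (aleph_le_beth 1).trans_lt (beth_lt_beth.2 ?_)
    have h2 : (1 : Ordinal.{0}) < (ℵ₁ : Cardinal.{0}).ord := by
      have := hlim1.succ_lt hlim1.bot_lt
      simpa using this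
    exact h2.trans_le (le_add_self)
  have hinf : ℵ₀ ≤ beth o := aleph0_le_beth o
  let L : Type := Σ i : (ℵ₁ : Cardinal.{0}).ord.ToType, (T i).out
  have hLs : #L = Cardinal.sum T := by
    simp [L, Cardinal.mk_sigma]
  have hL1 : #L ≤ beth o := by
    rw [hLs]
    refine (Cardinal.sum_le_mk_mul_iSup T).trans ?_
    have h3 : (⨆ i, T i) ≤ beth o := ciSup_le' fun i => (hTlt i).le
    calc #(ℵ₁ : Cardinal.{0}).ord.ToType * ⨆ i, T i ≤ beth o * beth o := mul_le_mul' (by rw [hW]; exact h1.le) h3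
      _ = beth o := Cardinal.mul_eq_self hinf
  have hTL : ∀ i, T i ≤ #L := by
    intro i
    rw [hLs]
    exact Cardinal.le_sum T i
  have hL2 : beth o ≤ #L := by
    rw [beth_limit hlim]
    refine ciSup_le' ?_
    rintro ⟨a, ha⟩
    have ha' : a < κ.ord + (ℵ₁ : Cardinal.{0}).ord := ha
    by_cases hk : κ.ord ≤ a
    · have h4 : κ.ord + (a - κ.ord) = a := Ordinal.add_sub_cancel_of_le hk
      have h5 : a - κ.ord < (ℵ₁ : Cardinal.{0}).ord := by
        rw [← h4] at ha'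
        exact (add_lt_add_iff_left _).1 ha'
      have h6 : a - κ.ord < Ordinal.type (α := (ℵ₁ : Cardinal.{0}).ord.ToType) (· < ·) := by
        simpa using h5
      obtain ⟨i, hi⟩ := Ordinal.typein_surj (α := (ℵ₁ : Cardinal.{0}).ord.ToType) (· < ·) h6
      have h7 : T i = beth a := by
        simp only [T]
        rw [hi, h4]
      rw [← h7]
      exact hTL i
    · have h6 : (0 : Ordinal.{0}) < Ordinal.type (α := (ℵ₁ : Cardinal.{0}).ord.ToType) (· < ·) := by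
        have : (0 : Ordinal.{0}) < (ℵ₁ : Cardinal.{0}).ord := hlim1.bot_lt
        simpa using this
      obtain ⟨i, hi⟩ := Ordinal.typein_surj (α := (ℵ₁ : Cardinal.{0}).ord.ToType) (· < ·) h6
      refine le_trans ?_ (hTL i)
      simp only [T]
      rw [hi, add_zero]
      exact beth_le_beth.2 (not_le.1 hk).le
  have hL : #L = beth o := le_antisymm hL1 hL2
  refine ⟨L, Sigma.fst, ?_, ?_, ?_, ?_⟩
  · rw [hL]
    refine (le_beth_ord κ).trans_lt (beth_lt_beth.2 ?_)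
    have : κ.ord + 0 < κ.ord + (ℵ₁ : Cardinal.{0}).ord := (add_lt_add_iff_left _).2 hlim1.bot_lt
    rw [add_zero] at this
    exact this
  · rw [hL]; exact hinf
  · rw [hL]
    intro μ hμ
    have := (isStrongLimit_beth (o := o)).2 hlim.isSuccPrelimit
    exact this.isStrongPrelimit hμ
  · intro i
    rw [hL]
    have hemb : ∀ j : (ℵ₁ : Cardinal.{0}).ord.ToType, j ≤ i → Nonempty ((T j).out ↪ (T i).out) := fun j hj =>
      Cardinal.out_embedding.1 (hTmono j i hj)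
    let f : {x : L | x.1 ≤ i} → (ℵ₁ : Cardinal.{0}).ord.ToType × (T i).out := fun x =>
      (x.1.1, (hemb x.1.1 x.2).some x.1.2)
    have hf : Function.Injective f := by
      rintro ⟨⟨a, b⟩, hx⟩ ⟨⟨c, d⟩, hy⟩ h
      simp only [f, Prod.mk.injEq] at h
      obtain ⟨h8, h9⟩ := h
      subst h8
      have := (hemb a hx).some.injective h9
      subst this
      rfl
    have h10 : #{x : L | x.1 ≤ i} ≤ #((ℵ₁ : Cardinal.{0}).ord.ToType × (T i).out) := Cardinal.mk_le_of_injective hf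
    refine h10.trans_lt ?_
    rw [Cardinal.mk_prod]
    simp only [Cardinal.lift_id, Cardinal.mk_out]
    exact Cardinal.mul_lt_of_lt hinf (by rw [hW]; exact h1) (hTlt i)

theorem power_le_fun {L : Type} (ρ : L → (ℵ₁ : Cardinal.{0}).ord.ToType) (hL : ℵ₀ ≤ #L)
    (h2 : ∀ μ < #L, 2 ^ μ < #L) (hρ : ∀ i, #{x | ρ x ≤ i} < #L) :
    2 ^ #L ≤ #((ℵ₁ : Cardinal.{0}).ord.ToType → L) := by
  classical
  have hg : ∀ i, Nonempty (Set {x | ρ x ≤ i} ↪ L) := by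
    intro i
    have h := (h2 _ (hρ i)).le
    rw [← Cardinal.mk_set] at h
    exact h
  let g := fun i => (hg i).some
  rw [← Cardinal.mk_set]
  refine Cardinal.mk_le_of_injective (f := fun s : Set L => fun i => g i {x | (x : L) ∈ s}) ?_
  intro s t hst
  ext x
  have h := congrFun hst (ρ x)
  have h' := (g (ρ x)).injective h
  have h'' := Set.ext_iff.1 h' ⟨x, (le_refl (ρ x) : ρ x ≤ ρ x)⟩
  simpa using h''


theorem hasFullSize_ground {Q : Type} [Preorder Q]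
    (hcc : ∀ (ι : Type) (f : ι → Q), ℵ₀ < #ι → ∃ i j, i ≠ j ∧ ∃ r, r ≤ f i ∧ r ≤ f j)
    {X : Type} (hX : ℵ₀ < #X) (A : Set X) (hA : #A = #X) (q : Q) :
    q ∈ HasFullSize fun x : X => {_p : Q | x ∈ A} := by
  intro ν hν q1 hq1 hmem
  obtain ⟨q2, hq2, R, hR⟩ := mem_fex.1 hmem q1 le_rfl
  set V : ν.out → Set X := fun x => {y | ∃ r ≤ q2, r ∈ meets (R x y)} with hV
  have hVc : ∀ x, #(V x) ≤ ℵ₀ := by
    intro x
    by_contra hcon
    rw [not_le] at hcon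
    have hch : ∀ y : V x, ∃ r, r ≤ q2 ∧ r ∈ meets (R x y.1) := by
      rintro ⟨y, r, hr, hr'⟩
      exact ⟨r, hr, hr'⟩
    choose f hf1 hf2 using hch
    obtain ⟨i, j, hij, r, hri, hrj⟩ := hcc (V x) f hcon
    have h1 : r ∈ meets (R x i.1) := down_meets _ _ (hf2 i) _ hri
    have h2 : r ∈ meets (R x j.1) := down_meets _ _ (hf2 j) _ hrj
    have h3 : r ∈ IsFun R := down_IsFun R _ hR.1 _ (hri.trans (hf1 i))
    exact hij (Subtype.ext (IsFun.unique h3 h1 h2))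
  have hU : #(⋃ x, V x) < #X := by
    calc #(⋃ x, V x) ≤ Cardinal.sum (fun x => #(V x)) := Cardinal.mk_iUnion_le_sum_mk
      _ ≤ Cardinal.sum (fun _ : ν.out => ℵ₀) := Cardinal.sum_le_sum _ _ hVc
      _ = ν * ℵ₀ := by rw [Cardinal.sum_const', Cardinal.mk_out]
      _ < #X := Cardinal.mul_lt_of_lt hX.le hν hX
  have hex : ∃ y ∈ A, y ∉ ⋃ x, V x := by
    by_contra hcon
    push Not at hcon
    have h1 : #A ≤ #(⋃ x, V x) := Cardinal.mk_le_mk_of_subset hcon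
    rw [hA] at h1
    exact absurd hU (not_lt.2 h1)
  obtain ⟨y, hyA, hy⟩ := hex
  have hm : q2 ∈ meets {_p : Q | y ∈ A} := meets_of_mem hyA
  obtain ⟨r, hr, hr'⟩ := mem_fimp.1 (hR.2 y) q2 le_rfl hm
  obtain ⟨r1, hr1, x, hx⟩ := mem_fex.1 hr' r le_rfl
  apply hy
  rw [Set.mem_iUnion]
  exact ⟨x, r1, hr1.trans hr, hx⟩


theorem CC.ccc {L : Type} (ι : Type) (f : ι → CC L) (hι : ℵ₀ < #ι) :
    ∃ i j, i ≠ j ∧ ∃ r, r ≤ f i ∧ r ≤ f j := by
  obtain ⟨i, j, hij, h⟩ := exists_agree (L := L) (Z := ℕ × Bool) isRegular_aleph0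
    (fun μ hμ => power_lt_aleph0 (by exact_mod_cast natCast_lt_aleph0 (n := 2)) hμ)
    mk_le_aleph0 hι (fun E K' Z' hE hZ' => weak_delta le_rfl hE Z' hZ')
    (fun i => (f i).g) (fun i => Prod.fst '' (f i).g)
    (fun i => lt_aleph0_iff_set_finite.mpr (f i).fin)
    (fun i => lt_aleph0_iff_set_finite.mpr ((f i).fin.image _))
  refine ⟨i, j, hij, ⟨(f i).g ∪ (f j).g, (f i).fin.union (f j).fin, ?_⟩, ?_, ?_⟩
  · intro a n b b' hb hb'
    rcases hb with hb | hb <;> rcases hb' with hb' | hb'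
    · exact (f i).fn a n b b' hb hb'
    · have h1 := (h a ⟨_, hb, rfl⟩ ⟨_, hb', rfl⟩ (n, b)).mp hb
      exact (f j).fn a n b b' h1 hb'
    · have h1 := (h a ⟨_, hb', rfl⟩ ⟨_, hb, rfl⟩ (n, b)).mpr hb
      exact (f i).fn a n b b' h1 hb'
    · exact (f j).fn a n b b' hb hb'
  · rw [CC.le_iff]
    exact Set.subset_union_left
  · rw [CC.le_iff]
    exact Set.subset_union_right


theorem mk_finset_le_max (T : Type) : #(Finset T) ≤ max #T ℵ₀ := by
  rcases finite_or_infinite T with h | h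
  · exact (Cardinal.lt_aleph0_of_finite (Finset T)).le.trans (le_max_right _ _)
  · rw [Cardinal.mk_finset_of_infinite]
    exact le_max_left _ _

theorem CC.ext_g {L : Type} {p q : CC L} (h : p.g = q.g) : p = q := by
  cases p
  cases q
  cases h
  rfl

theorem CC.mk_supported {L : Type} (S : Set L) :
    #{p : CC L // ∀ x ∈ p.g, x.1 ∈ S} ≤ max #S ℵ₀ := by
  have hfin : ∀ p : {p : CC L // ∀ x ∈ p.g, x.1 ∈ S},
      {t : S × (ℕ × Bool) | ((t.1 : L), t.2) ∈ p.1.g}.Finite := by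
    intro p
    refine p.1.fin.preimage (f := fun t : S × (ℕ × Bool) => ((t.1 : L), t.2)) ?_
    rintro ⟨a, b⟩ - ⟨a', b'⟩ - h
    simp only [Prod.mk.injEq] at h
    obtain ⟨h1, h2⟩ := h
    exact Prod.ext (Subtype.ext h1) h2
  have h1 : #{p : CC L // ∀ x ∈ p.g, x.1 ∈ S} ≤ #(Finset (S × (ℕ × Bool))) := by
    refine Cardinal.mk_le_of_injective (f := fun p => (hfin p).toFinset) ?_
    intro p q hpq
    have h2 : {t : S × (ℕ × Bool) | ((t.1 : L), t.2) ∈ p.1.g} =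
        {t : S × (ℕ × Bool) | ((t.1 : L), t.2) ∈ q.1.g} := Set.Finite.toFinset_inj.1 hpq
    refine Subtype.ext (CC.ext_g ?_)
    ext ⟨x, y⟩
    constructor
    · intro hx
      have h3 : ((⟨x, p.2 _ hx⟩ : S), y) ∈ {t : S × (ℕ × Bool) | ((t.1 : L), t.2) ∈ p.1.g} := hx
      rw [h2] at h3
      exact h3
    · intro hx
      have h3 : ((⟨x, q.2 _ hx⟩ : S), y) ∈ {t : S × (ℕ × Bool) | ((t.1 : L), t.2) ∈ q.1.g} := hx
      rw [← h2] at h3
      exact h3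
  refine h1.trans ((mk_finset_le_max _).trans ?_)
  refine max_le ?_ (le_max_right _ _)
  have h2 : #(S × (ℕ × Bool)) = #S * #(ℕ × Bool) := Cardinal.mk_prod _ _ |>.trans (by simp)
  have h3 : #(ℕ × Bool) ≤ ℵ₀ := Cardinal.mk_le_aleph0
  rw [h2]
  calc #S * #(ℕ × Bool) ≤ max #S ℵ₀ * max #S ℵ₀ :=
        mul_le_mul' (le_max_left _ _) (h3.trans (le_max_right _ _))
    _ = max #S ℵ₀ := Cardinal.mul_eq_self (le_max_right _ _)

theorem CC.mk_le {L : Type} (hL : ℵ₀ ≤ #L) : #(CC L) ≤ #L := by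
  have h1 : #(CC L) ≤ #{p : CC L // ∀ x ∈ p.g, x.1 ∈ (Set.univ : Set L)} := by
    refine Cardinal.mk_le_of_injective (f := fun p => ⟨p, fun x _ => Set.mem_univ _⟩) ?_
    intro p q hpq
    exact congrArg Subtype.val hpq
  refine h1.trans ((CC.mk_supported Set.univ).trans ?_)
  rw [Cardinal.mk_univ]
  exact max_le le_rfl hL

theorem mk_small_names {K L : Type} (hL : ℵ₀ ≤ #L) (hK : #K ≤ #L) :
    #{c : K → Set (CC L) // ∀ β, (c β).Countable} ≤ 2 ^ #L := by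
  have h1 : #{c : K → Set (CC L) // ∀ β, (c β).Countable} ≤
      #(K → {t : Set (CC L) // #t ≤ ℵ₀}) := by
    refine Cardinal.mk_le_of_injective
      (f := fun c β => ⟨c.1 β, Cardinal.le_aleph0_iff_set_countable.2 (c.2 β)⟩) ?_
    intro c c' h
    refine Subtype.ext (funext fun β => ?_)
    exact congrArg Subtype.val (congrFun h β)
  have h2 : #(K → {t : Set (CC L) // #t ≤ ℵ₀}) = #{t : Set (CC L) // #t ≤ ℵ₀} ^ #K := rfl
  have h3 : #{t : Set (CC L) // #t ≤ ℵ₀} ≤ #L ^ ℵ₀ :=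
    (Cardinal.mk_bounded_set_le (CC L) ℵ₀).trans
      (Cardinal.power_le_power_right (max_le (CC.mk_le hL) hL))
  have hL0 : #L ≠ 0 := fun h => by
    rw [h] at hL
    exact absurd hL (not_le.2 Cardinal.aleph0_pos)
  calc #{c : K → Set (CC L) // ∀ β, (c β).Countable} ≤ #{t : Set (CC L) // #t ≤ ℵ₀} ^ #K := by
        rw [← h2]; exact h1
    _ ≤ (#L ^ ℵ₀) ^ #K := Cardinal.power_le_power_right h3
    _ = #L ^ (ℵ₀ * #K) := Cardinal.power_mul.symm
    _ ≤ #L ^ #L := by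
        refine Cardinal.power_le_power_left hL0 ?_
        calc ℵ₀ * #K ≤ #L * #L := mul_le_mul' hL hK
          _ = #L := Cardinal.mul_eq_self hL
    _ = 2 ^ #L := Cardinal.power_self_eq hL


theorem cohen_ne {K L W : Type} (j : W × ℕ → K) (hj : Function.Injective j) (f f' : W → L)
    (hf : f ≠ f') (q : CC L) :
    ∃ r ≤ q, ∃ b : K,
      r ∈ meets {p : CC L | ∃ i n, j (i, n) = b ∧ (f i, (n, true)) ∈ p.g} ∧
      r ∈ fnot (meets {p : CC L | ∃ i n, j (i, n) = b ∧ (f' i, (n, true)) ∈ p.g}) := by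
  obtain ⟨i, hi⟩ := Function.ne_iff.1 hf
  have hfin : ((fun x : L × (ℕ × Bool) => x.2.1) '' q.g).Finite := q.fin.image _
  obtain ⟨n, hn⟩ := hfin.exists_notMem
  have hn' : ∀ a b, (a, (n, b)) ∉ q.g := fun a b hab => hn ⟨_, hab, rfl⟩
  have hfn : ∀ a m b b', (a, (m, b)) ∈ insert (f i, (n, true)) (insert (f' i, (n, false)) q.g) →
      (a, (m, b')) ∈ insert (f i, (n, true)) (insert (f' i, (n, false)) q.g) → b = b' := by
    intro a m b b' h1 h2
    simp only [Set.mem_insert_iff, Prod.mk.injEq] at h1 h2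
    rcases h1 with ⟨h1a, h1b, h1c⟩ | ⟨h1a, h1b, h1c⟩ | h1
    · rcases h2 with ⟨h2a, h2b, h2c⟩ | ⟨h2a, h2b, h2c⟩ | h2
      · rw [h1c, h2c]
      · exact absurd (h1a.symm.trans h2a) hi
      · rw [h1b] at h2
        exact absurd h2 (hn' _ _)
    · rcases h2 with ⟨h2a, h2b, h2c⟩ | ⟨h2a, h2b, h2c⟩ | h2
      · exact absurd (h2a.symm.trans h1a) hi
      · rw [h1c, h2c]
      · rw [h1b] at h2
        exact absurd h2 (hn' _ _)
    · rcases h2 with ⟨h2a, h2b, h2c⟩ | ⟨h2a, h2b, h2c⟩ | h2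
      · rw [h2b] at h1
        exact absurd h1 (hn' _ _)
      · rw [h2b] at h1
        exact absurd h1 (hn' _ _)
      · exact q.fn a m b b' h1 h2
  let r : CC L := ⟨insert (f i, (n, true)) (insert (f' i, (n, false)) q.g),
    (q.fin.insert _).insert _, hfn⟩
  have hrt : (f i, (n, true)) ∈ r.g := Set.mem_insert _ _
  have hrf : (f' i, (n, false)) ∈ r.g := Set.mem_insert_of_mem _ (Set.mem_insert _ _)
  refine ⟨r, fun x hx => Set.mem_insert_of_mem _ (Set.mem_insert_of_mem _ hx), j (i, n),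
    meets_of_mem ⟨i, n, rfl, hrt⟩, ?_⟩
  intro r1 hr1 hm
  obtain ⟨r2, hr2, s, ⟨i1, n1, hj1, hs⟩, hle⟩ := hm r1 le_rfl
  have he := hj hj1
  simp only [Prod.mk.injEq] at he
  obtain ⟨rfl, rfl⟩ := he
  have h1 : (f' i1, (n1, true)) ∈ r2.g := hle hs
  have h2 : (f' i1, (n1, false)) ∈ r2.g := hr2 (hr1 hrf)
  exact absurd (r2.fn _ _ _ _ h1 h2) (by simp)


theorem exists_rows {κ : Cardinal.{0}} (hκ : κ.IsRegular) (hκ1 : ℵ₁ < κ) {L : Type}
    (ρ : L → (ℵ₁ : Cardinal.{0}).ord.ToType) (hL : ℵ₀ ≤ #L) (hκL : κ < #L)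
    (h2 : ∀ μ < #L, 2 ^ μ < #L) (hρ : ∀ i, #{x | ρ x ≤ i} < #L) {N : Type} (hN : #N = 2 ^ #L)
    (Nm : N → κ.ord.ToType → Set (CC L)) (hNm : ∀ ξ α, (Nm ξ α).Countable) :
    ∃ (A : Set N) (X : Set κ.ord.ToType) (d : κ.ord.ToType → Set (CC L)),
      #A = #N ∧ #X = κ ∧ ∀ ξ ∈ A, ∀ α ∈ X, Nm ξ α = d α := by
  classical
  have hW : #((ℵ₁ : Cardinal.{0}).ord.ToType) = ℵ₁ := mk_ord_toType _
  have hK : #κ.ord.ToType = κ := mk_ord_toType _
  have hbd : ∀ s : Set ((ℵ₁ : Cardinal.{0}).ord.ToType), s.Countable → ∃ r, ∀ a ∈ s, a ≤ r := by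
    intro s hs
    by_contra hcon
    push Not at hcon
    have hcf : IsCofinal s := fun r => by
      obtain ⟨a, ha, hra⟩ := hcon r
      exact ⟨a, ha, hra.le⟩
    have h1 := Order.cof_le hcf
    rw [Ordinal.cof_toType, isRegular_aleph_one.cof_ord] at h1
    have h2 : #s ≤ ℵ₀ := Cardinal.le_aleph0_iff_set_countable.mpr hs
    exact absurd (h1.trans h2) (not_le.mpr aleph0_lt_aleph_one)
  have hr : ∀ ξ α, ∃ r : (ℵ₁ : Cardinal.{0}).ord.ToType, ∀ p ∈ Nm ξ α, ∀ x ∈ p.g, ρ x.1 ≤ r := by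
    intro ξ α
    have hc : (⋃ p ∈ Nm ξ α, (fun x : L × (ℕ × Bool) => ρ x.1) '' p.g).Countable :=
      (hNm ξ α).biUnion fun p _ => (p.fin.image _).countable
    obtain ⟨r, hr⟩ := hbd _ hc
    refine ⟨r, fun p hp x hx => hr _ ?_⟩
    exact Set.mem_biUnion hp ⟨x, hx, rfl⟩
  choose r hr using hr
  have hi : ∀ ξ, ∃ i, κ ≤ #((r ξ) ⁻¹' {i}) := by
    intro ξ
    refine infinite_pigeonhole_card (r ξ) κ (by rw [hK]) hκ.aleph0_le ?_
    rw [hκ.cof_ord, hW]; exact hκ1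
  choose i hi using hi
  let S : (ℵ₁ : Cardinal.{0}).ord.ToType → Type := fun j => {p : CC L // ∀ x ∈ p.g, x.1 ∈ {x | ρ x ≤ j}}
  have hS : ∀ j, #(S j) < #L := fun j =>
    lt_of_le_of_lt (CC.mk_supported {x | ρ x ≤ j}) (max_lt (hρ j) (hκ.aleph0_le.trans_lt hκL))
  have hprod : ∀ j, #(Set κ.ord.ToType × (κ.ord.ToType → Set (S j))) ≤ #L := by
    intro j
    have e1 : #(Set κ.ord.ToType × (κ.ord.ToType → Set (S j))) =
        2 ^ κ * 2 ^ (#(S j) * κ) := by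
      rw [mk_prod, lift_id, lift_id, mk_set, hK, ← power_def, mk_set, hK, power_mul]
    rw [e1]
    exact (mul_lt_of_lt hL (h2 κ hκL) (h2 _ (mul_lt_of_lt hL (hS j) hκL))).le
  let T : Type := Σ j : (ℵ₁ : Cardinal.{0}).ord.ToType,
    (Set κ.ord.ToType × (κ.ord.ToType → Set (S j)))
  have hT : #T ≤ #L := by
    have e1 : #T = Cardinal.sum (fun j => #(Set κ.ord.ToType × (κ.ord.ToType → Set (S j)))) :=
      mk_sigma _
    rw [e1]
    refine (sum_le_sum _ (fun _ => #L) hprod).trans ?_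
    rw [sum_const', hW]
    exact (mul_eq_right hL (hκ1.le.trans hκL.le) (aleph_pos 1).ne').le
  let Φ : N → T := fun ξ => ⟨i ξ, ((r ξ) ⁻¹' {i ξ}, fun α => {p | p.1 ∈ Nm ξ α})⟩
  have hNinf : ℵ₀ ≤ #N := by
    rw [hN]; exact hL.trans (cantor _).le
  obtain ⟨t, ht⟩ := infinite_pigeonhole_card Φ #N le_rfl hNinf (by
    rw [hN]
    exact hT.trans_lt (lt_cof_ord_power hL one_lt_two))
  let XT : T → Set κ.ord.ToType := fun t => t.2.1
  let dT : T → κ.ord.ToType → Set (CC L) := fun t α => Subtype.val '' (t.2.2 α)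
  have hne : (Φ ⁻¹' {t}).Nonempty := by
    by_contra hcon
    rw [Set.not_nonempty_iff_eq_empty] at hcon
    rw [hcon, mk_emptyCollection] at ht
    exact absurd (hNinf.trans ht) (not_le.mpr aleph0_pos)
  refine ⟨Φ ⁻¹' {t}, XT t, dT t, le_antisymm (mk_set_le _) ht, ?_, ?_⟩
  · obtain ⟨ξ, hξ⟩ := hne
    have h1 : XT t = (r ξ) ⁻¹' {i ξ} := by
      have : Φ ξ = t := hξ
      rw [← this]
    rw [h1]
    exact le_antisymm ((mk_set_le _).trans_eq hK) (hi ξ)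
  · intro ξ hξ α hα
    have hξ' : Φ ξ = t := hξ
    rw [← hξ'] at hα ⊢
    have hα' : r ξ α = i ξ := hα
    show Nm ξ α = Subtype.val '' {p : S (i ξ) | p.1 ∈ Nm ξ α}
    ext p
    constructor
    · intro hp
      refine ⟨⟨p, fun x hx => ?_⟩, hp, rfl⟩
      have := hr ξ α p hp x hx
      rw [hα'] at this
      exact this
    · rintro ⟨q, hq, rfl⟩
      exact hq


theorem CC.unbounded {κ : Cardinal.{0}} {X : Set κ.ord.ToType} (hX : #X = κ)
    (β : κ.ord.ToType) : ∃ γ ∈ X, β ≤ γ := by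
  by_contra hcon
  push Not at hcon
  have h1 : #X ≤ #(Set.Iio β) := mk_le_mk_of_subset fun γ hγ => hcon γ hγ
  have h2 : #(Set.Iio β) < κ := by
    have := mk_Iio_lt β (by simp)
    rwa [mk_ord_toType] at this
  rw [hX] at h1
  exact absurd h2 (not_lt.2 h1)

/-- the strong polarized relation after adding Cohen reals -/
theorem polarized_cohen {κ : Cardinal.{0}} (hκ : κ.IsRegular) (hκ1 : ℵ₁ < κ) {L : Type}
    (ρ : L → (ℵ₁ : Cardinal.{0}).ord.ToType) (hL : ℵ₀ ≤ #L) (hκL : κ < #L)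
    (h2 : ∀ μ < #L, 2 ^ μ < #L) (hρ : ∀ i, #{x | ρ x ≤ i} < #L) {N : Type} (hN : #N = 2 ^ #L)
    (x : CC L) : x ∈ Polarized (CC L) N κ.ord.ToType := by
  classical
  have hcc : ∀ (ι : Type) (f : ι → CC L), ℵ₀ < #ι → ∃ i j, i ≠ j ∧ ∃ r, r ≤ f i ∧ r ≤ f j :=
    fun ι f hι => CC.ccc ι f hι
  have hκ0 : ℵ₀ < κ := (aleph0_lt_aleph_one).trans hκ1
  have hreg : ∀ q : CC L, q ∈ StaysRegular (CC L) κ :=
    fun q => staysRegular_of_cc le_rfl hκ hκ0 hcc q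
  have hNinf : ℵ₀ < #N := by
    rw [hN]
    exact hL.trans_lt (cantor _)
  intro c
  choose Nm hN1 hN2 using fun ξ α => exists_nice (Q := CC L) (κ := ℵ₀) hcc (c ξ α)
  obtain ⟨A, X, d, hA, hX, hd⟩ := exists_rows hκ hκ1 ρ hL hκL h2 hρ hN Nm
    (fun ξ α => le_aleph0_iff_set_countable.1 (hN1 ξ α))
  have hc : ∀ ξ ∈ A, ∀ α ∈ X, ∀ w : CC L, w ∈ meets (d α) ↔ w ∈ meets (c ξ α) := by
    intro ξ hξ α hα w
    rw [← hd ξ hξ α hα]
    exact hN2 ξ α w
  have hfullA : ∀ q : CC L, q ∈ HasFullSize fun ξ : N => {_p : CC L | ξ ∈ A} :=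
    fun q => hasFullSize_ground hcc hNinf A hA q
  have hmA : ∀ {ξ : N} {q : CC L}, q ∈ meets {_p : CC L | ξ ∈ A} → ξ ∈ A := by
    intro ξ q h
    obtain ⟨_, _, t, ht, _⟩ := h q le_rfl
    exact ht
  refine mem_fex.2 fun p _ => ?_
  by_cases hcase : ∃ q ≤ p, ∃ β : κ.ord.ToType, ∀ r ≤ q, ∀ γ ∈ X, β ≤ γ → r ∉ meets (d γ)
  · obtain ⟨q, hq, β, hβ⟩ := hcase
    refine ⟨q, hq, fun ξ => {_p : CC L | ξ ∈ A}, mem_fex.2 fun z hz => ⟨z, le_rfl,
      fun γ => {_p : CC L | γ ∈ X ∧ β ≤ γ}, hfullA z, ?_, mem_for'.2 fun z1 hz1 =>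
        ⟨z1, le_rfl, Or.inr ?_⟩⟩⟩
    · refine hasFullSize_of_unbounded hκ0.le hreg _ _ fun q' _ β' => ?_
      obtain ⟨γ, hγ, hγ'⟩ := CC.unbounded hX (max β β')
      exact ⟨q', le_rfl, γ, (le_max_right _ _).trans hγ',
        meets_of_mem ⟨hγ, (le_max_left _ _).trans hγ'⟩⟩
    · intro ξ α
      refine mem_fimp.2 fun w hw h => ⟨w, le_rfl, fun w' hw' hmem => ?_⟩
      have hξ := hmA h.1
      obtain ⟨_, _, t, ht, _⟩ := h.2 w le_rfl
      exact hβ w' (hw'.trans (hw.trans (hz1.trans hz))) α ht.1 ht.2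
        ((hc ξ hξ α ht.1 w').2 hmem)
  · push Not at hcase
    refine ⟨p, le_rfl, fun ξ => {_p : CC L | ξ ∈ A}, mem_fex.2 fun z hz => ⟨z, le_rfl,
      fun γ => {q : CC L | γ ∈ X ∧ q ∈ meets (d γ)}, hfullA z, ?_, mem_for'.2 fun z1 hz1 =>
        ⟨z1, le_rfl, Or.inl ?_⟩⟩⟩
    · refine hasFullSize_of_unbounded hκ0.le hreg _ _ fun q' hq' β' => ?_
      obtain ⟨r, hr, γ, hγ, hγ', hm⟩ := hcase q' (hq'.trans hz) β'
      exact ⟨r, hr, γ, hγ', meets_of_mem ⟨hγ, hm⟩⟩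
    · intro ξ α
      refine mem_fimp.2 fun w hw h => ?_
      have hξ := hmA h.1
      have hdn : Down {q : CC L | α ∈ X ∧ q ∈ meets (d α)} :=
        fun a ha b hb => ⟨ha.1, down_meets _ _ ha.2 _ hb⟩
      obtain ⟨w', hw', hα, hm⟩ := exists_of_meets hdn h.2
      exact ⟨w', hw', (hc ξ hξ α hα w').1 hm⟩

/-- the power set of `κ` after adding Cohen reals -/
theorem powerSize_cohen {κ : Cardinal.{0}} (hκ1 : ℵ₁ < κ) {L : Type}
    (ρ : L → (ℵ₁ : Cardinal.{0}).ord.ToType) (hL : ℵ₀ ≤ #L) (hκL : κ < #L)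
    (h2 : ∀ μ < #L, 2 ^ μ < #L) (hρ : ∀ i, #{x | ρ x ≤ i} < #L) {N : Type} (hN : #N = 2 ^ #L)
    (x : CC L) : x ∈ PowerSize (CC L) κ.ord.ToType N := by
  classical
  have hcc : ∀ (ι : Type) (f : ι → CC L), ℵ₀ < #ι → ∃ i j, i ≠ j ∧ ∃ r, r ≤ f i ∧ r ≤ f j :=
    fun ι f hι => CC.ccc ι f hι
  have hne : Nonempty N := by
    rw [← mk_ne_zero_iff, hN]
    exact (hL.trans (cantor _).le).trans_lt' aleph0_pos |>.ne'
  constructor
  · obtain ⟨φ⟩ : Nonempty (N ↪ ((ℵ₁ : Cardinal.{0}).ord.ToType → L)) := by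
      rw [← Cardinal.le_def, hN]
      exact power_le_fun ρ hL h2 hρ
    obtain ⟨j⟩ : Nonempty ((ℵ₁ : Cardinal.{0}).ord.ToType × ℕ ↪ κ.ord.ToType) := by
      rw [← Cardinal.le_def, mk_prod, lift_id, lift_id, mk_ord_toType, mk_ord_toType, mk_nat]
      refine le_trans ?_ hκ1.le
      exact (mul_le_mul' le_rfl aleph0_lt_aleph_one.le).trans
        (mul_eq_self aleph0_lt_aleph_one.le).le
    refine mem_fex.2 fun q _ => ⟨q, le_rfl, fun ξ b =>
      {p : CC L | ∃ i n, j (i, n) = b ∧ (φ ξ i, (n, true)) ∈ p.g}, ?_⟩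
    intro ξ ξ' hξ q1 _ hsame
    obtain ⟨r, hr, b, h1, h3⟩ := cohen_ne j j.injective (φ ξ) (φ ξ')
      (fun h => hξ (φ.injective h)) q1
    obtain ⟨r', hr', h4⟩ := mem_fimp.1 (hsame b).1 r hr h1
    exact h3 r' hr' h4
  · obtain ⟨g⟩ : Nonempty ({c : κ.ord.ToType → Set (CC L) // ∀ β, (c β).Countable} ↪ N) := by
      rw [← Cardinal.le_def, hN]
      exact mk_small_names hL (by rw [mk_ord_toType]; exact hκL.le)
    haveI : Nonempty {c : κ.ord.ToType → Set (CC L) // ∀ β, (c β).Countable} :=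
      ⟨⟨fun _ => ∅, fun _ => Set.countable_empty⟩⟩
    refine mem_fex.2 fun q _ => ⟨q, le_rfl, fun ξ => (Function.invFun g ξ).1, fun X => ?_⟩
    choose Nm hN1 hN2 using fun α => exists_nice (Q := CC L) (κ := ℵ₀) hcc (X α)
    have hcount : ∀ α, (Nm α).Countable := fun α => le_aleph0_iff_set_countable.1 (hN1 α)
    refine mem_fex.2 fun q1 _ => ⟨q1, le_rfl, g ⟨Nm, hcount⟩, ?_⟩
    have h5 : Function.invFun g (g ⟨Nm, hcount⟩) = ⟨Nm, hcount⟩ :=
      Function.leftInverse_invFun g.injective _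
    intro α
    change q1 ∈ fand (fimp (meets ((Function.invFun g (g ⟨Nm, hcount⟩)).1 α)) (meets (X α)))
      (fimp (meets (X α)) (meets ((Function.invFun g (g ⟨Nm, hcount⟩)).1 α)))
    rw [h5]
    exact ⟨mem_fimp.2 fun w _ hw => ⟨w, le_rfl, (hN2 α w).1 hw⟩,
      mem_fimp.2 fun w _ hw => ⟨w, le_rfl, (hN2 α w).2 hw⟩⟩

end Pool.Agent.KS6_22.CU.F.K
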